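import Pool.Agent.Helper50.VM.Dsc
import Pool.Agent.Helper82.TP.Copy

/-! Exact entropy calculus: the LITERAL VARIABLE of a finite family of functions (cells of size `2 ^ (-n)`): it is
bounded, its information is the information of the family, and the functions are literal functions of it. -/

set_option autoImplicit false

namespace Pool.Agent.Helper50.BLD

open Finset Filter Topology Pool.Agent.Helper69.RK Pool.Agent.Helper31.EC Pool.Agent.Helper31.EC.Sp
open Pool.Agent.Helper31.EC.QS Pool.Agent.Helper57.TA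
open Pool.Agent.Helper82.TP (Lit)

noncomputable section

variable {S : Sp}

theorem rnd_close {d : ℝ} (p : 0 < d) (x : ℝ) : |d * (⌊x / d⌋ : ℤ) - x| ≤ d := by
  have h1 := Int.floor_le (x / d)
  have h2 := Int.lt_floor_add_one (x / d)
  have e1 : x = d * (x / d) := by field_simp
  rw [abs_sub_comm, abs_le]
  constructor <;> nlinarith

/-- rounding of a tame function to the grid of size `2 ^ (-n)` -/
def grd (f : TR S) : TR S := ⟨fun k ω => S.dl 1 k * (⌊TR.ev f k ω / S.dl 1 k⌋ : ℤ), by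
  obtain ⟨K, hK, h⟩ := f.2
  refine ⟨fun k => K k + 1, hK.add (S.Sub_const zero_le_one), ?_⟩
  filter_upwards [h] with k hk ω hω
  have p1 : S.dl 1 k ≤ 1 := by
    have h1 := S.dl_anti (zero_le_one : (0 : ℝ) ≤ 1) k
    have h2 : S.dl 0 k = 1 := by unfold Sp.dl; simp
    rwa [h2] at h1
  have h3 : |TR.ev f k ω| ≤ K k := hk ω hω
  have h4 := rnd_close (S.dl_pos 1 k) (TR.ev f k ω)
  have h5 := abs_add_le (S.dl 1 k * (⌊TR.ev f k ω / S.dl 1 k⌋ : ℤ) - TR.ev f k ω) (TR.ev f k ω)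
  rw [sub_add_cancel] at h5
  show |S.dl 1 k * (⌊TR.ev f k ω / S.dl 1 k⌋ : ℤ)| ≤ K k + 1
  linarith⟩

theorem grd_close (f : TR S) (k : ℕ) (ω : (S.F k).Ω) : |TR.ev (grd f) k ω - TR.ev f k ω| ≤ S.dl 1 k :=
  rnd_close (S.dl_pos 1 k) (TR.ev f k ω)

theorem mk_grd (f : TR S) : mk (grd f) = mk f := by
  rw [mk_eq]
  refine ⟨fun _ _ => True, fun _ => 1, Typ_true, S.Sub_const zero_le_one, Eventually.of_forall fun k ω _ _ => ?_⟩
  rw [one_mul]
  exact grd_close f k ω

/-- the literal variable of a finite family -/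
def lv {m : ℕ} (f : Fin m → QS S) : ∀ k, (S.F k).Ω → (Fin m → ℤ) := (TR.vec fun i => rep (f i)).cellv 1

theorem lv_bdd {m : ℕ} (f : Fin m → QS S) : Bdd (α := fun _ => Fin m → ℤ) (lv f) := VV.bdd _ _

theorem lv_io {m : ℕ} (f : Fin m → QS S) : io (α := fun _ => Fin m → ℤ) (lv f) = vd f 1 := by
  have h1 : io (α := fun _ => Fin m → ℤ) (lv f) = (TR.vec fun i => rep (f i)).dg 1 := rfl
  rw [h1, TR.vec_dg_eq]
  apply le_antisymm
  · apply Finset.sup_le
    intro i _
    rw [← dg_mk _ le_rfl, mk_rep]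
    exact dg_le_vd f 1 i
  · rw [vd_le]
    intro i
    have h2 := Finset.le_sup (f := fun i => TR.dg (rep (f i)) 1) (Finset.mem_univ i)
    beta_reduce at h2
    rw [← dg_mk _ le_rfl, mk_rep] at h2
    exact h2

theorem lv_lit {m : ℕ} (f : Fin m → QS S) (i : Fin m) : Lit (β := fun _ => Fin m → ℤ) (lv f) (f i) := by
  refine ⟨grd (rep (f i)), by rw [mk_grd, mk_rep], Eventually.of_forall fun k ω ω' _ _ _ h => ?_⟩
  have h1 := congrFun h i
  show S.dl 1 k * (⌊TR.ev (rep (f i)) k ω / S.dl 1 k⌋ : ℤ) = S.dl 1 k * (⌊TR.ev (rep (f i)) k ω' / S.dl 1 k⌋ : ℤ)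
  have h2 : ⌊TR.ev (rep (f i)) k ω / S.dl 1 k⌋ = ⌊TR.ev (rep (f i)) k ω' / S.dl 1 k⌋ := h1
  rw [h2]

end

end Pool.Agent.Helper50.BLD
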