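import Pool.Agent.Helper31.EC.DensS
import Pool.Agent.Helper31.EC.Uns

/-! Restriction to an event of an extension (`Sp.im`) as a functor on functions. -/

set_option autoImplicit false

namespace Pool.Agent.Helper50.BLD

open Finset Filter Topology Pool.Agent.Helper69.RK Pool.Agent.Helper31.EC Pool.Agent.Helper31.EC.Sp
open Pool.Agent.Helper31.EC.QS

noncomputable section

variable {T S : Sp}

/-- an event is typical if its pull back is typical -/
theorem typ_of_pull (p : Pj T S) {E : ∀ k, (S.F k).Ω → Prop} (hE : Typ (S := T) (fun k ω => E k (p.π k ω))) : Typ E := by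
  unfold Sp.Typ at hE ⊢
  have h1 : ∀ k, mass (res (T.F k).μ (fun ω => ¬ E k (p.π k ω))) = mass (res (S.F k).μ (fun ω => ¬ E k ω)) := by
    intro k
    have h2 : push (p.π k) (res (T.F k).μ fun ω => ¬ E k (p.π k ω)) = res (S.F k).μ fun ω => ¬ E k ω := by
      funext ω
      rw [push_ind]
      by_cases h : E k ω
      · rw [res_neg (S.F k).μ (fun ω => ¬ E k ω) ω (fun hc => hc h)]
        apply Finset.sum_eq_zero
        intro ω' _
        by_cases h2 : p.π k ω' = ω
        · rw [res_neg (T.F k).μ (fun ω => ¬ E k (p.π k ω)) ω' (fun hc => hc (by rw [h2]; exact h)), mul_zero]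
        · rw [e1_ind_neg h2, zero_mul]
      · rw [res_pos (S.F k).μ (fun ω => ¬ E k ω) ω h, ← p.law k, push_ind]
        apply Finset.sum_congr rfl
        intro ω' _
        by_cases h2 : p.π k ω' = ω
        · rw [res_pos (T.F k).μ (fun ω => ¬ E k (p.π k ω)) ω' (by rw [h2]; exact h)]
        · rw [e1_ind_neg h2, zero_mul, zero_mul]
    rw [← h2]
    have h3 := (Pool.Agent.Helper70.RK.st_E5.1 (S.F k).Ω (T.F k).Ω Unit Unit
      (res (T.F k).μ fun ω => ¬ E k (p.π k ω)) (p.π k) (fun _ => ()) (fun _ => ())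
      ((T.F k).res_nonneg fun ω => ¬ E k (p.π k ω))).2.1
    exact h3.symm
  simp only [← h1]
  exact hE

variable (p : Pj T S) (A : ∀ k, (T.F k).Ω → Prop)

theorem typ_im (hA : 0 < ul (T.pr A)) {E : ∀ k, (S.F k).Ω → Prop} (hE : Typ E) : Typ (S := Sp.im p A) E :=
  typ_of_pull (imq p A) (Typ.rest A hA (p.typ hE))

/-- tame functions -/
def imT : TR S →+* TR (Sp.im p A) where
  toFun f := ⟨f.1, by
    obtain ⟨K, hK, h⟩ := f.2
    refine ⟨K, hK, ?_⟩
    filter_upwards [h] with k hk ω hω
    exact hk ω (FSp.im_supp (p.fp k) (A k) ω hω)⟩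
  map_one' := rfl
  map_mul' _ _ := rfl
  map_zero' := rfl
  map_add' _ _ := rfl

theorem imT_ag (hA : 0 < ul (T.pr A)) {r : ℝ} {f g : TR S} (h : TR.Ag r f g) : TR.Ag r (imT p A f) (imT p A g) := by
  obtain ⟨E, K, hE, hK, hh⟩ := h
  refine ⟨E, K, typ_im p A hA hE, hK, ?_⟩
  filter_upwards [hh] with k hk ω a b
  exact hk ω (FSp.im_supp (p.fp k) (A k) ω a) b

/-- functions to full precision on an event of an extension -/
def imS (hA : 0 < ul (T.pr A)) : QS S →+* QS (Sp.im p A) :=
  Ideal.Quotient.lift (TR.Idl S) (QS.mk.comp (imT p A)) (by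
    intro f hf
    have h2 : TR.Ag 1 f 0 := hf
    have h3 := imT_ag p A hA h2
    show QS.mk (imT p A f) = 0
    rw [← map_zero QS.mk, mk_eq]
    exact h3)

theorem imS_mk (hA : 0 < ul (T.pr A)) (f : TR S) : imS p A hA (QS.mk f) = QS.mk (imT p A f) := rfl

end

end Pool.Agent.Helper50.BLD
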