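import Pool.Agent.Helper50.BLD.Lfw
import Pool.Agent.Helper13.AM.Zq

/-! THE LEAF AS THE BASE: the space with the leaf partition added to the base; informations, real families, literal
functions. -/

set_option autoImplicit false

namespace Pool.Agent.Helper50.BLD

open Finset Filter Topology Pool.Agent.Helper69.RK Pool.Agent.Helper31.EC Pool.Agent.Helper31.EC.Sp
open Pool.Agent.Helper31.EC.QS Pool.Agent.Helper40.EL Pool.Agent.Helper84.MT
open Pool.Agent.Helper82.TP (Lit)
open Pool.Agent.Helper13.AM (cQ cQ_dg cQ_mem cQ_vd)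

noncomputable section

variable {S : Sp} (La : ∀ k, Setoid (S.F k).Ω)

/-- informations over the new base -/
theorem chgL_le_of {x y : S.L} (h : KP (fun k => fc (La k) ⊔ rp y k) x) : chgL La 1 one_pos x ≤ chgL La 1 one_pos y := by
  induction x using cl_ind with | _ A
  induction y using cl_ind with | _ B
  rw [chgL_cl, chgL_cl]
  have h1 : PLe (rpI A) (fun k => fc (La k) ⊔ rpI B k) := by
    refine (rp_rpI A).2.trans (PLe.trans h ?_)
    exact PLe.sup_le (PLe_of_le fun k => le_sup_left) ((rp_rpI B).1.trans (PLe_of_le fun k => le_sup_right))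
  have h2 : Tendsto (fun k => S.rt A.1 (fun k => B.1 k ⊓ La k) k) UF (𝓝 0) := by
    refine Tendsto.congr (fun k => ?_) h1
    have e1 : (fc (La k) ⊔ rpI B k : FL (S.F k)) = fc (B.1 k ⊓ La k) := by
      rw [fc_inf, sup_comm]
      rfl
    have e2 : Pool.Agent.Helper31.EC.h (rpI A k) (fc (La k) ⊔ rpI B k) / (S.F k).n = S.rt A.1 (fun k => B.1 k ⊓ La k) k := by
      rw [e1]
      unfold rpI
      rw [h_fc]
      rfl
    exact e2
  rw [cl_le, Inf.le_def]
  refine h2.congr fun k => ?_
  exact ((chg_rt La 1 one_pos A.1 B.1 k).trans (div_one _)).symm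

/-- entropy over the new base -/
theorem hZ_eq_hr (x : S.L) : hZ La x = hr (rp x) (fun k => fc (La k)) := by
  induction x using cl_ind with | _ A
  rw [hZ_cl]
  have h1 : hr (rp (Sp.cl A)) (fun k => fc (La k)) = hr (rpI A) (fun k => fc (La k)) :=
    le_antisymm (hr_mono (rp_Bd _) (rpI_Bd A) (rp_rpI A).1) (hr_mono (rpI_Bd A) (rp_Bd _) (rp_rpI A).2)
  rw [h1]
  unfold hr
  congr 1
  funext k
  unfold rpI
  rw [h_fc]
  rfl

theorem H_chg_one (x : S.L) : H (chgL La 1 one_pos x) = hr (rp x) (fun k => fc (La k)) := by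
  rw [H_chgL, div_one, hZ_eq_hr]

/-- the variable of a partition -/
def qV : ∀ k, (S.F k).Ω → Quotient (La k) := fun k ω => Quotient.mk (La k) ω

theorem pv_qV (k : ℕ) : pv (qV La) k = fc (La k) := by
  unfold pv
  congr 1
  ext ω ω'
  constructor
  · intro h
    exact Quotient.exact h
  · intro h
    exact Quotient.sound h

/-- functions to full precision over the new base -/
def kap : QS S →+* QS (S.chg La 1 one_pos) := cQ La 1 one_pos le_rfl

theorem kap_dg (f : QS S) {r : ℝ} (hr : r ≤ 1) : dg (kap La f) r = chgL La 1 one_pos (dg f r) := by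
  unfold kap
  rw [cQ_dg La 1 one_pos le_rfl f hr, one_mul]

theorem kap_mem {f : QS S} {r : ℝ} (hr : r ≤ 1) : kap La f ∈ Id _ r ↔ f ∈ Id S r := by
  unfold kap
  rw [cQ_mem La 1 one_pos le_rfl hr, one_mul]

/-- literal functions of the partition are known to the new base -/
theorem lit_kap {f : QS S} (hf : Lit (qV La) f) : dg (kap La f) 1 = ⊥ := by
  apply le_antisymm _ _root_.bot_le
  rw [kap_dg La f le_rfl, ← chgL_bot La 1 one_pos]
  apply chgL_le_of
  have h1 := lit_kp hf le_rfl
  refine h1.trans (PLe_of_le fun k => ?_)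
  rw [pv_qV]
  exact le_sup_left

namespace PCh

variable {M : ℕ} {E : ℕ → ℕ} {Q : S.VV M} (l : Leaf S Q E)

theorem sr_eq_vd (r : ℝ) : sr l univ r = vd (y l) r := rfl

/-- the parameter is full over the leaf -/
theorem hr_y : hr (rp (vd (y l) 1)) (fun k => fc (l.La k)) = l.e := by
  have b1 : hr (cm l univ 1) (fun k => fc (l.La k)) = l.e := by
    apply ul_eq
    have h1 := l.full
    have e1 : (fun k => h (cm l univ 1 k) (fc (l.La k)) / (S.F k).n) =
        fun k => h (fc (Setoid.ker (l.Y.cellv 1 k))) (fc (l.La k)) / (S.F k).n := by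
      funext k
      rw [cm_univ]
    rw [e1]
    exact h1
  rw [← b1, ← sr_eq_vd]
  exact le_antisymm (hr_mono (rp_Bd _) (cm_Bd l univ 1) (cm_rp l univ le_rfl).2)
    (hr_mono (cm_Bd l univ 1) (rp_Bd _) (cm_rp l univ le_rfl).1)

/-- the parameter is real over the new base -/
theorem rl_kap : Rl (fun m => kap l.La (y l m)) ⊥ := by
  unfold Rl
  have e1 : vd (fun m => kap l.La (y l m)) 1 = chgL l.La 1 one_pos (vd (y l) 1) := by
    have h1 := cQ_vd l.La 1 one_pos le_rfl (y l) (le_refl (1 : ℝ))
    rw [one_mul] at h1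
    exact h1
  rw [e1, h_bot, H_chg_one, hr_y, Fintype.card_fin]

/-- informations known to the window of level `c` -/
theorem win_kap {c : ℝ} (hc : c ≤ 1) {x : S.L} (h : KP (l.win c) x) :
    chgL l.La 1 one_pos x ≤ vd (fun m => kap l.La (y l m)) c := by
  have e1 : vd (fun m => kap l.La (y l m)) c = chgL l.La 1 one_pos (vd (y l) c) := by
    have h1 := cQ_vd l.La 1 one_pos le_rfl (y l) hc
    rw [one_mul] at h1
    exact h1
  rw [e1]
  apply chgL_le_of
  refine h.trans ?_
  have h2 : PLe (l.win c) (fun k => fc (l.La k) ⊔ cm l univ c k) := by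
    apply PLe_of_le
    intro k
    rw [cm_univ, ← fc_inf]
    exact le_rfl
  refine h2.trans (PLe.sup_le (PLe_of_le fun k => le_sup_left) ?_)
  exact (cm_rp l univ hc).1.trans (PLe_of_le fun k => le_sup_right)

end PCh

end

end Pool.Agent.Helper50.BLD
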