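import Pool.Agent.Helper50.BLD.Gud
import Pool.Agent.Helper31.EC.Sep

/-! Visible directions from minors which are units or zero. -/

set_option autoImplicit false

namespace Pool.Agent.Helper50.BLD

open Finset Filter Topology Pool.Agent.Helper69.RK Pool.Agent.Helper31.EC Pool.Agent.Helper31.EC.Sp
open Pool.Agent.Helper31.EC.QS Pool.Agent.Helper40.EL Pool.Agent.Helper84.MT Pool.Agent.Helper36.AM
open Pool.Agent.Helper57.TA (rcst)
open Pool.Agent.Helper82.TP (Lit)

noncomputable section

variable {S : Sp} {M : ℕ} {E : ℕ → ℕ} {Q : S.VV M} {l : Leaf S Q E} {w : Fin M → ℝ} (c : PCh l w)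

theorem BM_lit (j : Fin M) (m : Fin l.e) : Lit (qV l.La) (c.BM j m) := by
  by_cases h : w j = 1
  · rw [c.BM_pos h]
    exact Dir.co_qV c j _
  · rw [c.BM_neg h]
    exact (LR (qV l.La)).zero_mem

/-- the base-linear part over the ring of literal functions of the leaf -/
def BL : Matrix (Fin M) (Fin l.e) (LR (qV l.La)) := Matrix.of fun j m => ⟨c.BM j m, BM_lit c j m⟩

theorem BL_det {k : ℕ} (I : Fin k → Fin M) (J : Fin k → Fin l.e) :
    ((((BL c).submatrix I J).det : LR (qV l.La)) : QS S) = (c.BM.submatrix I J).det := by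
  have h1 := (LR (qV l.La)).subtype.map_det ((BL c).submatrix I J)
  exact h1

/-- VISIBLE DIRECTIONS -/
theorem exists_dir (h : ∀ k (I : Fin k → Fin M) (J : Fin k → Fin l.e), k ≤ M + 1 →
    IsUnit (c.BM.submatrix I J).det ∨ (c.BM.submatrix I J).det = 0) :
    ∃ d : Dir c, d.n ≤ nd1 w ∧ ∀ a, ∃ j, c.BM j (d.J a) ≠ 0 := by
  classical
  obtain ⟨n, I, J, hu, hI, hJ, hB⟩ := rank_lemma (BL c) (fun k I J hk => by
    rcases h k I J hk with h1 | h1
    · left
      obtain ⟨g, hg⟩ := h1.exists_left_inv
      have h2 : Lit (qV l.La) g := by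
        apply lit_inv (f := (c.BM.submatrix I J).det) _ hg
        rw [← BL_det]
        exact ((BL c).submatrix I J).det.2
      exact IsUnit.of_mul_eq_one ⟨g, h2⟩ (by
        apply Subtype.ext
        show (((BL c).submatrix I J).det : QS S) * g = 1
        rw [BL_det, mul_comm]
        exact hg)
    · right
      apply Subtype.ext
      rw [BL_det]
      exact h1)
  have hne : ∀ a, w (I a) = 1 := by
    intro a
    by_contra hc
    rw [Matrix.det_eq_zero_of_row_eq_zero a (fun b => Subtype.ext (c.BM_neg hc (J b)))] at hu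
    exact not_isUnit_zero hu
  refine ⟨{ n := n, J := J, inj := hJ,
            C := fun a m => ((∑ b, ((BL c).submatrix I J)⁻¹ a b * BL c (I b) m : LR (qV l.La)) : QS S)
            lit := fun a m => (∑ b, ((BL c).submatrix I J)⁻¹ a b * BL c (I b) m : LR (qV l.La)).2
            one := fun a b => ?_
            lin := fun j hj m => ?_ }, ?_, fun a => ?_⟩
  · have h1 : (∑ b', ((BL c).submatrix I J)⁻¹ a b' * BL c (I b') (J b) : LR (qV l.La)) =
        (((BL c).submatrix I J)⁻¹ * (BL c).submatrix I J) a b := rfl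
    rw [h1, Matrix.nonsing_inv_mul _ hu]
    by_cases hab : a = b
    · rw [if_pos hab, hab, Matrix.one_apply_eq]
      rfl
    · rw [if_neg hab, Matrix.one_apply_ne hab]
      rfl
  · have h1 := congrArg (fun x : LR (qV l.La) => (x : QS S)) (hB j m)
    beta_reduce at h1
    have e1 : ((BL c j m : LR (qV l.La)) : QS S) = c.bc j m := c.BM_pos hj m
    rw [e1] at h1
    rw [h1]
    have e2 : ((∑ a, BL c j (J a) * ∑ b, ((BL c).submatrix I J)⁻¹ a b * BL c (I b) m : LR (qV l.La)) : QS S) =
        ∑ a, ((BL c j (J a) : LR (qV l.La)) : QS S) *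
          ((∑ b, ((BL c).submatrix I J)⁻¹ a b * BL c (I b) m : LR (qV l.La)) : QS S) := by
      exact map_sum (LR (qV l.La)).subtype _ _
    rw [e2]
    apply Finset.sum_congr rfl
    intro a _
    congr 1
    exact c.BM_pos hj (J a)
  · have h1 : (univ.image I).card = n := by
      rw [Finset.card_image_of_injective _ hI, Finset.card_univ, Fintype.card_fin]
    show n ≤ nd1 w
    rw [← h1]
    unfold nd1
    apply Finset.card_le_card
    intro j hj
    obtain ⟨a, _, ha⟩ := Finset.mem_image.mp hj
    rw [Finset.mem_filter]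
    exact ⟨Finset.mem_univ j, by rw [← ha]; exact hne a⟩
  · by_contra hc
    push Not at hc
    rw [Matrix.det_eq_zero_of_column_eq_zero a (fun b => Subtype.ext (hc (I b)))] at hu
    exact not_isUnit_zero hu

end

end Pool.Agent.Helper50.BLD
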