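import Pool.Agent.Helper50.BLD.Lfl

/-! The chart of a leaf as a family of polynomials over the ring of functions. -/

set_option autoImplicit false

namespace Pool.Agent.Helper50.BLD

open Finset Filter Topology Pool.Agent.Helper69.RK Pool.Agent.Helper31.EC Pool.Agent.Helper31.EC.Sp
open Pool.Agent.Helper31.EC.QS Pool.Agent.Helper40.EL Pool.Agent.Helper84.MT
open Pool.Agent.Helper63.FRT (exps mem_exps exps_deg)
open Pool.Agent.Helper82.TP (Lit)

noncomputable section

namespace PCh

variable {S : Sp} {M : ℕ} {E : ℕ → ℕ} {Q : S.VV M} {l : Leaf S Q E} {w : Fin M → ℝ} (c : PCh l w)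

/-- the chart -/
def Gq (j : Fin M) : MvPolynomial (Fin l.e) (QS S) :=
  ∑ a ∈ exps l.e (D w), MvPolynomial.monomial a (QS.mk (c.co j a))

theorem co_zero' {j : Fin M} {a : Fin l.e →₀ ℕ} (h : a ∉ exps l.e (D w)) : c.co j a = 0 := by
  apply c.co_zero
  have h1 : ¬ ∑ i, a i ≤ D w := fun hc => h (mem_exps hc)
  have h2 : ((D w : ℕ) : ℝ) < ((∑ i, a i : ℕ) : ℝ) := by exact_mod_cast not_le.mp h1
  push_cast at h2
  exact (le_D w j).trans_lt h2

theorem Gq_coeff (j : Fin M) (a : Fin l.e →₀ ℕ) : (c.Gq j).coeff a = QS.mk (c.co j a) := by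
  unfold Gq
  rw [MvPolynomial.coeff_sum]
  by_cases h : a ∈ exps l.e (D w)
  · rw [Finset.sum_eq_single a]
    · rw [MvPolynomial.coeff_monomial, if_pos rfl]
    · intro b _ hb
      rw [MvPolynomial.coeff_monomial, if_neg hb]
    · intro hn
      exact absurd h hn
  · rw [c.co_zero' h, map_zero]
    apply Finset.sum_eq_zero
    intro b hb
    rw [MvPolynomial.coeff_monomial, if_neg]
    intro hc
    rw [hc] at hb
    exact h hb

theorem Gq_eval (j : Fin M) (x : Fin l.e → QS S) : MvPolynomial.eval x (c.Gq j) =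
    ∑ a ∈ exps l.e (D w), QS.mk (c.co j a) * ∏ m, x m ^ a m := by
  unfold Gq
  rw [map_sum]
  apply Finset.sum_congr rfl
  intro a _
  rw [MvPolynomial.eval_monomial, Finsupp.prod_fintype _ _ fun _ => pow_zero _]

/-- the point -/
theorem pt_Gq (j : Fin M) : MvPolynomial.eval (y l) (c.Gq j) = QS.mk (TR.cor Q j) := by
  rw [c.Gq_eval, c.pt_eq j]

theorem single_sum {n : ℕ} (m : Fin n) : ∑ i, (Finsupp.single m 1 : Fin n →₀ ℕ) i = 1 := by
  rw [Finset.sum_eq_single m]
  · rw [Finsupp.single_eq_same]
  · intro i _ hi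
    rw [Finsupp.single_eq_of_ne hi]
  · intro h; exact absurd (Finset.mem_univ m) h

theorem eq_single {n : ℕ} {a : Fin n →₀ ℕ} (h : ∑ i, a i ≤ 1) (h0 : a ≠ 0) : ∃ m, a = Finsupp.single m 1 := by
  obtain ⟨m, hm⟩ := Finsupp.ne_iff.mp h0
  rw [Finsupp.zero_apply] at hm
  refine ⟨m, ?_⟩
  have h1 : ∀ i, a i ≤ ∑ i, a i := fun i =>
    Finset.single_le_sum (f := fun i => a i) (fun i _ => Nat.zero_le _) (Finset.mem_univ i)
  ext i
  by_cases hi : i = m
  · rw [hi, Finsupp.single_eq_same]
    have := h1 m
    omega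
  · rw [Finsupp.single_eq_of_ne hi]
    have h3 : a i + a m ≤ ∑ i, a i := by
      rw [← Finset.add_sum_erase univ a (Finset.mem_univ m), add_comm]
      exact Nat.add_le_add_left (Finset.single_le_sum (f := fun i => a i) (fun i _ => Nat.zero_le _)
        (Finset.mem_erase.mpr ⟨hi, Finset.mem_univ i⟩)) _
    omega

/-- coordinates of weight one are affine -/
theorem Gq_aff {j : Fin M} (hj : w j < 2) (x : Fin l.e → QS S) : MvPolynomial.eval x (c.Gq j) =
    QS.mk (c.co j 0) + ∑ m, QS.mk (c.co j (Finsupp.single m 1)) * x m := by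
  classical
  rw [MvPolynomial.eval_eq']
  have key : ∑ a ∈ (c.Gq j).support, (c.Gq j).coeff a * ∏ i, x i ^ a i =
      ∑ a ∈ insert 0 (univ.image fun m => (Finsupp.single m 1 : Fin l.e →₀ ℕ)), (c.Gq j).coeff a * ∏ i, x i ^ a i := by
    apply Finset.sum_subset
    · intro a ha
      rw [Finset.mem_insert]
      by_cases h0 : a = 0
      · exact Or.inl h0
      · right
        rw [MvPolynomial.mem_support_iff, c.Gq_coeff] at ha
        have h1 : ∑ i, a i ≤ 1 := by
          by_contra hc
          apply ha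
          rw [c.co_zero, map_zero]
          refine hj.trans_le ?_
          have h2 : 2 ≤ ∑ i, a i := by omega
          exact_mod_cast h2
        obtain ⟨m, hm⟩ := eq_single h1 h0
        rw [hm]
        exact Finset.mem_image_of_mem _ (Finset.mem_univ m)
    · intro a _ ha
      rw [MvPolynomial.notMem_support_iff.mp ha, zero_mul]
  rw [key, Finset.sum_insert]
  · rw [Finset.sum_image]
    · congr 1
      · rw [c.Gq_coeff, Finset.prod_eq_one, mul_one]
        intro i _
        rw [Finsupp.zero_apply, pow_zero]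
      · apply Finset.sum_congr rfl
        intro m _
        rw [c.Gq_coeff, Finset.prod_eq_single m]
        · rw [Finsupp.single_eq_same, pow_one]
        · intro i _ hi
          rw [Finsupp.single_eq_of_ne hi, pow_zero]
        · intro h; exact absurd (Finset.mem_univ m) h
    · intro a _ b _ h
      by_contra hab
      have h1 := DFunLike.congr_fun h a
      beta_reduce at h1
      rw [Finsupp.single_eq_same, Finsupp.single_eq_of_ne hab] at h1
      exact one_ne_zero h1
  · intro h
    rw [Finset.mem_image] at h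
    obtain ⟨m, _, hm⟩ := h
    have h1 := DFunLike.congr_fun hm m
    rw [Finsupp.single_eq_same] at h1
    exact one_ne_zero h1

/-- the base-linear coefficient -/
def bc (j : Fin M) (m : Fin l.e) : QS S := QS.mk (c.co j (Finsupp.single m 1))

end PCh

end

end Pool.Agent.Helper50.BLD
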