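import Pool.Agent.Helper50.BLD.Rkm
import Pool.Agent.Helper50.BLD.Gq
import Pool.Agent.Helper50.BLD.Imq
import Pool.Agent.Helper13.AM.Zq
import Pool.Agent.Helper36.AM.St

/-! DICHOTOMY: a function is a unit, or it is small on an event; finitely many polynomial functions of the base-linear
coefficients of the charts are units or zero for some member of a homogeneous class. -/

set_option autoImplicit false

namespace Pool.Agent.Helper50.BLD

open Finset Filter Topology Pool.Agent.Helper69.RK Pool.Agent.Helper31.EC Pool.Agent.Helper31.EC.Sp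
open Pool.Agent.Helper31.EC.QS Pool.Agent.Helper40.EL Pool.Agent.Helper84.MT Pool.Agent.Helper36.AM
open Pool.Agent.Helper13.AM (cQ cQ_mk cQ_eq_zero cT)

noncomputable section

variable {S : Sp}

/-- a function is a unit or small on an event of positive probability -/
theorem unit_or (x : QS S) : IsUnit x ∨ ∃ (A : ∀ k, (S.F k).Ω → Prop) (hA : 0 < ul (S.pr A)) (δ : ℝ), 0 < δ ∧ δ ≤ 1 ∧
    imS (Pj.id S) A hA x ∈ Id (Sp.im (Pj.id S) A) δ := by
  obtain ⟨f, rfl⟩ := mk_surj x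
  by_cases hu : Nd f
  · exact Or.inl (isUnit_mk.mpr hu)
  right
  obtain ⟨δ, hδ, hn⟩ : ∃ δ : ℝ, 0 < δ ∧ ¬ Typ (fun k ω => S.dl δ k ≤ |TR.ev f k ω|) := by
    by_contra hc
    push Not at hc
    exact hu (nd_of_levels hc)
  have hn1 : ¬ Typ (fun k ω => S.dl (min δ 1) k ≤ |TR.ev f k ω|) := fun h =>
    hn (h.mono (Eventually.of_forall fun k ω _ hω => (S.dl_anti (min_le_left δ 1) k).trans hω))
  have hA := (typ_or _).resolve_left hn1
  refine ⟨_, hA, min δ 1, lt_min hδ one_pos, min_le_right _ _, ?_⟩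
  rw [imS_mk, mk_mem_Id (min_le_right _ _)]
  have hev : ∀ᶠ k in UF, 0 < S.pr (fun k ω => ¬ S.dl (min δ 1) k ≤ |TR.ev f k ω|) k :=
    (ul_tendsto (UB_pr _)).eventually (lt_mem_nhds hA)
  refine ⟨fun _ _ => True, fun _ => 1, Typ_true, Sp.Sub_const _ zero_le_one, ?_⟩
  filter_upwards [hev] with k hp ω hω _
  have h1 : ¬ S.dl (min δ 1) k ≤ |TR.ev f k ω| := by
    intro hc
    apply hω
    refine (push_ind _ _ ω).trans ?_
    apply Finset.sum_eq_zero
    intro ω' _
    by_cases h1 : ((Pj.id S).fp k).π ω' = ω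
    · have h2 : (S.F k).restμ (fun ω => ¬ S.dl (min δ 1) k ≤ |TR.ev f k ω|) ω' = 0 := by
        by_contra h3
        have h4 : ω' = ω := h1
        have h5 := ((S.F k).rest_supp _ ω' h3).2 hp.ne'
        rw [h4] at h5
        exact h5 hc
      exact (congrArg (fun x => _ * x) h2).trans (mul_zero _)
    · exact (congrArg (fun x => x * _) (e1_ind_neg h1)).trans (zero_mul _)
  rw [TR.ev_zero, sub_zero, one_mul]
  exact (not_le.mp h1).le

/-! ### charts under events and truncations -/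

namespace PCh

variable {M : ℕ} {E : ℕ → ℕ} {Q : S.VV M} {l : Leaf S Q E} {w : Fin M → ℝ}

/-- the chart on an event -/
def im (c : PCh l w) {T : Sp} (p : Pj T S) (A : ∀ k, (T.F k).Ω → Prop) (hA : 0 < ul (T.pr A)) : PCh (l.im p A hA) w where
  G := c.G
  ev := by
    filter_upwards [c.ev] with k hk ω hω y j
    exact hk ω (FSp.im_supp (p.fp k) (A k) ω hω) y j
  deg := c.deg

theorem im_co (c : PCh l w) {T : Sp} (p : Pj T S) (A : ∀ k, (T.F k).Ω → Prop) (hA : 0 < ul (T.pr A)) (j : Fin M)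
    (a : Fin l.e →₀ ℕ) : QS.mk ((c.im p A hA).co j a) = imS p A hA (QS.mk (c.co j a)) := rfl

/-- the chart of the truncation -/
def trn (c : PCh l w) (e : ℝ) (h0 : 0 < e) (h1 : e ≤ 1) : PCh (l.trn e h0 h1) w where
  G := c.G
  ev := c.ev
  deg := c.deg

theorem trn_co (c : PCh l w) (e : ℝ) (h0 : 0 < e) (h1 : e ≤ 1) (j : Fin M) (a : Fin l.e →₀ ℕ) :
    QS.mk ((c.trn e h0 h1).co j a) = cQ S.tr e h0 h1 (QS.mk (c.co j a)) := rfl

end PCh

/-! ### the base-linear coefficients as one family -/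

section bn

variable {M g r : ℕ} {w : Fin (M + 1) → ℝ}

/-- the base-linear coefficients -/
def bn {s : MSys S (M + 1) (lin g) (Fin r)} (c : ∀ i, PCh (s.lf i) w) (x : Fin r × Fin (M + 1) × ℕ) : QS S :=
  if h : x.2.2 < (s.lf x.1).e then (c x.1).bc x.2.1 ⟨x.2.2, h⟩ else 0

theorem bn_pos {s : MSys S (M + 1) (lin g) (Fin r)} (c : ∀ i, PCh (s.lf i) w) (i : Fin r) (j : Fin (M + 1))
    (m : Fin (s.lf i).e) : bn c (i, j, (m : ℕ)) = (c i).bc j m := dif_pos m.2

theorem bn_im {s : MSys S (M + 1) (lin g) (Fin r)} (c : ∀ i, PCh (s.lf i) w) {T : Sp} (p : Pj T S)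
    (A : ∀ k, (T.F k).Ω → Prop) (hA : 0 < ul (T.pr A)) (x : Fin r × Fin (M + 1) × ℕ) :
    bn (s := s.im p A hA) (fun i => (c i).im p A hA) x = imS p A hA (bn c x) := by
  unfold bn
  by_cases h : x.2.2 < (s.lf x.1).e
  · have h' : x.2.2 < ((s.im p A hA).lf x.1).e := h
    rw [dif_pos h, dif_pos h']
    rfl
  · have h' : ¬ x.2.2 < ((s.im p A hA).lf x.1).e := h
    rw [dif_neg h, dif_neg h', map_zero]

theorem bn_trn {s : MSys S (M + 1) (lin g) (Fin r)} (c : ∀ i, PCh (s.lf i) w) (e : ℝ) (h0 : 0 < e) (h1 : e ≤ 1)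
    (x : Fin r × Fin (M + 1) × ℕ) :
    bn (s := s.trn e h0 h1) (fun i => (c i).trn e h0 h1) x = cQ S.tr e h0 h1 (bn c x) := by
  unfold bn
  by_cases h : x.2.2 < (s.lf x.1).e
  · have h' : x.2.2 < ((s.trn e h0 h1).lf x.1).e := h
    rw [dif_pos h, dif_pos h']
    rfl
  · have h' : ¬ x.2.2 < ((s.trn e h0 h1).lf x.1).e := h
    rw [dif_neg h, dif_neg h', map_zero]

/-- value of an integer polynomial -/
def pv' (f : Fin r × Fin (M + 1) × ℕ → QS S) : MvPolynomial (Fin r × Fin (M + 1) × ℕ) ℤ →+* QS S :=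
  MvPolynomial.eval₂Hom (Int.castRingHom (QS S)) f

theorem pv'_comp {T : Sp} (φ : QS S →+* QS T) (f : Fin r × Fin (M + 1) × ℕ → QS S)
    (P : MvPolynomial (Fin r × Fin (M + 1) × ℕ) ℤ) : pv' (fun x => φ (f x)) P = φ (pv' f P) := by
  have h1 : (pv' fun x => φ (f x)) = φ.comp (pv' f) := by
    apply MvPolynomial.ringHom_ext
    · intro n
      unfold pv'
      rw [RingHom.comp_apply, MvPolynomial.coe_eval₂Hom, MvPolynomial.coe_eval₂Hom, MvPolynomial.eval₂_C,
        MvPolynomial.eval₂_C, eq_intCast, eq_intCast, map_intCast]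
    · intro x
      unfold pv'
      rw [RingHom.comp_apply, MvPolynomial.coe_eval₂Hom, MvPolynomial.coe_eval₂Hom, MvPolynomial.eval₂_X,
        MvPolynomial.eval₂_X]
  rw [h1]
  rfl

variable {Cl : MCl (M + 1)} {ρ : ℝ} {TT : ∀ S : Sp, MSys S (M + 1) (lin g) (Fin r) → Prop}

/-- FINITELY MANY polynomial functions of the base-linear coefficients are units or zero for some member -/
theorem exists_dic (hT : Hom M Cl g r w ρ TT) (Ps : List (MvPolynomial (Fin r × Fin (M + 1) × ℕ) ℤ)) :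
    ∃ (S : Sp) (s : MSys S (M + 1) (lin g) (Fin r)) (c : ∀ i, PCh (s.lf i) w), TT S s ∧
      ∀ P ∈ Ps, IsUnit (pv' (bn c) P) ∨ pv' (bn c) P = 0 := by
  induction Ps with
  | nil =>
    obtain ⟨S, s, hs⟩ := hT.ne
    choose G hG hd using hT.wd S s hs
    exact ⟨S, s, fun i => ⟨G i, hG i, hd i⟩, hs, fun P hP => absurd hP List.not_mem_nil⟩
  | cons P Ps ih =>
    obtain ⟨S, s, c, hs, h⟩ := ih
    rcases unit_or (pv' (bn c) P) with hu | ⟨A, hA, δ, hδ, hδ1, hx⟩
    · refine ⟨S, s, c, hs, fun P' hP' => ?_⟩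
      rcases List.mem_cons.mp hP' with rfl | h1
      · exact Or.inl hu
      · exact h P' h1
    · set φ : QS S →+* QS ((Sp.im (Pj.id S) A).chg (Sp.im (Pj.id S) A).tr δ hδ) :=
        (cQ (Sp.im (Pj.id S) A).tr δ hδ hδ1).comp (imS (Pj.id S) A hA) with hφ
      have hb : bn (s := (s.im (Pj.id S) A hA).trn δ hδ hδ1)
          (fun i => ((c i).im (Pj.id S) A hA).trn δ hδ hδ1) = fun x => φ (bn c x) := by
        funext x
        have h1 := bn_trn (s := s.im (Pj.id S) A hA) (fun i => (c i).im (Pj.id S) A hA) δ hδ hδ1 x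
        refine h1.trans ?_
        rw [bn_im]
        rfl
      refine ⟨_, (s.im (Pj.id S) A hA).trn δ hδ hδ1, fun i => ((c i).im (Pj.id S) A hA).trn δ hδ hδ1,
        hT.trn _ _ (hT.im S s hs S (Pj.id S) A hA) δ hδ hδ1, fun P' hP' => ?_⟩
      rw [hb, pv'_comp]
      rcases List.mem_cons.mp hP' with rfl | h1
      · right
        rw [hφ, RingHom.comp_apply, cQ_eq_zero]
        exact hx
      · rcases h P' h1 with h2 | h2
        · exact Or.inl (h2.map φ)
        · right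
          rw [h2, map_zero]

end bn

end

end Pool.Agent.Helper50.BLD
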