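import Pool.Agent.Helper50.BLD.Hid

/-! VISIBLE DIRECTIONS of a leaf: if the base point is an affine function of linear forms `z` in the parameter, the whole
point is a function of `z`, up to a positive level. -/

set_option autoImplicit false

namespace Pool.Agent.Helper50.BLD

open Finset Filter Topology Pool.Agent.Helper69.RK Pool.Agent.Helper31.EC Pool.Agent.Helper31.EC.Sp
open Pool.Agent.Helper31.EC.QS Pool.Agent.Helper40.EL Pool.Agent.Helper84.MT
open Pool.Agent.Helper82.TP (Lit)
open Pool.Agent.Helper5.HB (cq)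
open Pool.Agent.Helper57.TA (eval_sbs sbs_PK)

noncomputable section

variable {S : Sp} {M : ℕ} {E : ℕ → ℕ} {Q : S.VV M} {l : Leaf S Q E} {w : Fin M → ℝ}

/-- VISIBLE DIRECTIONS: all columns of the base-linear part are combinations of the columns `J a` -/
structure Dir (c : PCh l w) where
  n : ℕ
  J : Fin n → Fin l.e
  inj : Function.Injective J
  C : Fin n → Fin l.e → QS S
  lit : ∀ a m, Lit (qV l.La) (C a m)
  one : ∀ a b, C a (J b) = if a = b then 1 else 0
  lin : ∀ j, w j = 1 → ∀ m, c.bc j m = ∑ a, c.bc j (J a) * C a m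

namespace Dir

variable {c : PCh l w} (d : Dir c)

/-- the visible parameter -/
def z (a : Fin d.n) : QS S := ∑ m, d.C a m * PCh.y l m

/-- the other directions -/
def σ : Type := {m : Fin l.e // m ∉ Set.range d.J}

instance : Fintype d.σ := by
  classical
  unfold σ
  infer_instance

/-- all directions -/
def eq : Fin d.n ⊕ d.σ ≃ Fin l.e := by
  classical
  exact ((Equiv.ofInjective d.J d.inj).sumCongr (Equiv.refl _)).trans (Equiv.Set.sumCompl (Set.range d.J))

theorem eq_inl (a : Fin d.n) : d.eq (Sum.inl a) = d.J a := rfl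

theorem eq_inr (m : d.σ) : d.eq (Sum.inr m) = m.1 := rfl

theorem card_σ : (Fintype.card d.σ : ℝ) = l.e - d.n := by
  have h1 := Fintype.card_congr d.eq
  rw [Fintype.card_sum, Fintype.card_fin, Fintype.card_fin] at h1
  have h2 : ((d.n + Fintype.card d.σ : ℕ) : ℝ) = l.e := by exact_mod_cast h1
  push_cast at h2
  linarith

/-- the parameter with `y = z` in the visible directions, `0` in the others -/
def zb (m : Fin l.e) : QS S := Sum.elim d.z (fun _ => 0) (d.eq.symm m)

theorem zb_J (a : Fin d.n) : d.zb (d.J a) = d.z a := by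
  unfold zb
  rw [← d.eq_inl, Equiv.symm_apply_apply]
  rfl

theorem zb_σ (m : d.σ) : d.zb m.1 = 0 := by
  unfold zb
  rw [← d.eq_inr, Equiv.symm_apply_apply]
  rfl

theorem z_eq (a : Fin d.n) : d.z a = PCh.y l (d.J a) + ∑ m : d.σ, d.C a m.1 * PCh.y l m.1 := by
  unfold z
  rw [← Equiv.sum_comp d.eq, Fintype.sum_sum_type]
  congr 1
  rw [Finset.sum_eq_single a]
  · rw [d.eq_inl, d.one, if_pos rfl, one_mul]
  · intro b _ hb
    rw [d.eq_inl, d.one, if_neg (Ne.symm hb), zero_mul]
  · intro h; exact absurd (Finset.mem_univ a) h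

/-- the base point -/
theorem base_eq {j : Fin M} (hj : w j = 1) : QS.mk (TR.cor Q j) = QS.mk (c.co j 0) + ∑ a, c.bc j (d.J a) * d.z a := by
  rw [← c.pt_Gq, c.Gq_aff (by rw [hj]; norm_num)]
  congr 1
  have h1 : ∀ m, QS.mk (c.co j (Finsupp.single m 1)) * PCh.y l m = ∑ a, c.bc j (d.J a) * (d.C a m * PCh.y l m) := by
    intro m
    have h2 := d.lin j hj m
    unfold PCh.bc at h2 ⊢
    rw [h2, Finset.sum_mul]
    apply Finset.sum_congr rfl
    intro a _
    ring
  rw [Finset.sum_congr rfl fun m _ => h1 m, Finset.sum_comm]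
  apply Finset.sum_congr rfl
  intro a _
  unfold z
  rw [Finset.mul_sum]

/-- the value of the chart at `zb`, coordinates of weight one -/
theorem base_zb {j : Fin M} (hj : w j = 1) : MvPolynomial.eval d.zb (c.Gq j) = QS.mk (TR.cor Q j) := by
  rw [d.base_eq hj, c.Gq_aff (by rw [hj]; norm_num)]
  congr 1
  rw [← Equiv.sum_comp d.eq, Fintype.sum_sum_type]
  have h1 : ∑ m : d.σ, QS.mk (c.co j (Finsupp.single (d.eq (Sum.inr m)) 1)) * d.zb (d.eq (Sum.inr m)) = 0 := by
    apply Finset.sum_eq_zero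
    intro m _
    rw [d.eq_inr, d.zb_σ, mul_zero]
  rw [h1, add_zero]
  apply Finset.sum_congr rfl
  intro a _
  rw [d.eq_inl, d.zb_J]
  rfl

/-! ### over the leaf -/

/-- the ring of functions over the leaf -/
abbrev T (l : Leaf S Q E) : Sp := S.chg l.La 1 one_pos

theorem kap_vd (l : Leaf S Q E) {ι : Type} [Fintype ι] (f : ι → QS S) {r : ℝ} (hr : r ≤ 1) :
    vd (fun i => kap l.La (f i)) r = chgL l.La 1 one_pos (vd f r) := by
  have h1 := Pool.Agent.Helper13.AM.cQ_vd l.La 1 one_pos le_rfl f hr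
  rw [one_mul] at h1
  exact h1

theorem C_kap (a : Fin d.n) (m : Fin l.e) (A : (T l).L) {r : ℝ} (hr : r ≤ 1) : kap l.La (d.C a m) ∈ Kn (T l) r hr A := by
  have h1 : dg (kap l.La (d.C a m)) 1 = ⊥ := lit_kap l.La (d.lit a m)
  show dg _ r ≤ A
  refine (dg_mono _ hr).trans ?_
  rw [h1]
  exact _root_.bot_le

theorem co_qV (c : PCh l w) (j : Fin M) (b : Fin l.e →₀ ℕ) : Lit (qV l.La) (QS.mk (c.co j b)) := by
  refine ⟨c.co j b, rfl, ?_⟩
  filter_upwards [c.fn] with k hk ω ω' p q z v
  show (c.G k ω j).coeff b = (c.G k ω' j).coeff b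
  rw [hk ω ω' p q z (Quotient.exact v)]

theorem co_kap (c : PCh l w) (j : Fin M) (b : Fin l.e →₀ ℕ) (A : (T l).L) :
    dg (kap l.La (QS.mk (c.co j b))) 1 ≤ A := by
  rw [lit_kap l.La (co_qV c j b)]
  exact _root_.bot_le

/-- the other directions are real over the visible parameter -/
theorem rl_σ : Rl (fun m : d.σ => kap l.La (PCh.y l m.1)) (vd (fun a => kap l.La (d.z a)) 1) := by
  apply Rl.of_ge
  set A := vd (fun a => kap l.La (d.z a)) 1 with hA
  set B := vd (fun m : d.σ => kap l.La (PCh.y l m.1)) 1 with hB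
  have h1 : vd (fun m => kap l.La (PCh.y l m)) 1 ≤ A ⊔ B := by
    rw [vd_le]
    intro m
    obtain ⟨x, rfl⟩ := d.eq.surjective m
    rcases x with a | m
    · rw [d.eq_inl]
      have e1 : PCh.y l (d.J a) = d.z a - ∑ m : d.σ, d.C a m.1 * PCh.y l m.1 := by rw [d.z_eq]; ring
      rw [e1, map_sub, map_sum]
      apply (Kn (T l) 1 le_rfl (A ⊔ B)).sub_mem
      · exact (dg_le_vd (fun a => kap l.La (d.z a)) 1 a).trans le_sup_left
      · apply (Kn (T l) 1 le_rfl (A ⊔ B)).sum_mem
        intro m _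
        rw [map_mul]
        apply (Kn (T l) 1 le_rfl (A ⊔ B)).mul_mem (d.C_kap a m.1 _ le_rfl)
        exact (dg_le_vd (fun m : d.σ => kap l.La (PCh.y l m.1)) 1 m).trans le_sup_right
    · rw [d.eq_inr]
      exact (dg_le_vd (fun m : d.σ => kap l.La (PCh.y l m.1)) 1 m).trans le_sup_right
  have h2 : h (vd (fun m => kap l.La (PCh.y l m)) 1) ⊥ = l.e := by
    have := PCh.rl_kap l
    unfold Rl at this
    rwa [Fintype.card_fin] at this
  have h3 : h (vd (fun m => kap l.La (PCh.y l m)) 1) ⊥ ≤ h (A ⊔ B) ⊥ := h_mono h1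
  rw [h_chain, sup_bot_eq] at h3
  have h4 : h A ⊥ ≤ d.n := by
    have := h_sd_le (fun a => kap l.La (d.z a)) Finset.univ ⊥
    rwa [Finset.card_univ, Fintype.card_fin] at this
  rw [d.card_σ]
  linarith

/-- THE POINT IS A FUNCTION OF THE VISIBLE PARAMETER up to the level `lam - cc` -/
theorem hid {K : S.L} {cc lam : ℝ} (h0 : 0 ≤ cc) (hc : cc < lam) (h1 : lam ≤ 1) (hK : KP (l.win cc) K)
    (hd : ∀ j, dg (cq Q j) lam ≤ K ⊔ (univ.filter fun j => w j = 1).sup fun i => dg (cq Q i) 1) (j : Fin M) :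
    cq Q j - MvPolynomial.eval d.zb (c.Gq j) ∈ Id S (lam - cc) := by
  have hcc : cc ≤ 1 := hc.le.trans h1
  set A := vd (fun a => kap l.La (d.z a)) 1 with hA
  set φ : Fin l.e → MvPolynomial d.σ (QS (T l)) := fun m => Sum.elim
    (fun a => MvPolynomial.C (kap l.La (d.z a)) - ∑ m : d.σ, MvPolynomial.C (kap l.La (d.C a m.1)) * MvPolynomial.X m)
    (fun m => MvPolynomial.X m) (d.eq.symm m) with hφ
  have eφ : ∀ x : d.σ → QS (T l), ∀ m, MvPolynomial.eval x (φ m) = Sum.elim
      (fun a => kap l.La (d.z a) - ∑ m : d.σ, kap l.La (d.C a m.1) * x m) x (d.eq.symm m) := by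
    intro x m
    rw [hφ]
    beta_reduce
    obtain ⟨b, rfl⟩ := d.eq.surjective m
    rw [Equiv.symm_apply_apply]
    rcases b with a | m
    · show MvPolynomial.eval x (MvPolynomial.C (kap l.La (d.z a)) -
        ∑ m : d.σ, MvPolynomial.C (kap l.La (d.C a m.1)) * MvPolynomial.X m) = _
      rw [map_sub, map_sum, MvPolynomial.eval_C]
      show _ = kap l.La (d.z a) - ∑ m : d.σ, kap l.La (d.C a m.1) * x m
      congr 1
      apply Finset.sum_congr rfl
      intro m _
      rw [map_mul, MvPolynomial.eval_C, MvPolynomial.eval_X]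
    · show MvPolynomial.eval x (MvPolynomial.X m) = x m
      rw [MvPolynomial.eval_X]
  have kφ : ∀ m, φ m ∈ PK A := by
    intro m
    rw [hφ]
    beta_reduce
    obtain ⟨b, rfl⟩ := d.eq.surjective m
    rw [Equiv.symm_apply_apply]
    rcases b with a | m
    · apply (PK A).sub_mem (C_mem (dg_le_vd (fun a => kap l.La (d.z a)) 1 a))
      apply (PK A).sum_mem
      intro m _
      exact (PK A).mul_mem (C_mem (d.C_kap a m.1 A le_rfl)) (X_mem _ _)
    · exact X_mem _ _
  set P := MvPolynomial.aeval φ (MvPolynomial.map (kap l.La) (c.Gq j)) with hP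
  have kP : P ∈ PK A := by
    apply sbs_PK _ kφ
    intro b
    rw [MvPolynomial.coeff_map, c.Gq_coeff]
    exact co_kap c j b A
  have e1 : MvPolynomial.eval (fun m : d.σ => kap l.La (PCh.y l m.1)) P = kap l.La (cq Q j) := by
    rw [hP, eval_sbs]
    have e2 : (fun m => MvPolynomial.eval (fun m : d.σ => kap l.La (PCh.y l m.1)) (φ m)) =
        fun m => kap l.La (PCh.y l m) := by
      funext m
      rw [eφ]
      obtain ⟨b, rfl⟩ := d.eq.surjective m
      rw [Equiv.symm_apply_apply]
      rcases b with a | m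
      · show kap l.La (d.z a) - ∑ m : d.σ, kap l.La (d.C a m.1) * kap l.La (PCh.y l m.1) = kap l.La (PCh.y l (d.J a))
        rw [d.z_eq, map_add, map_sum]
        have e3 : ∑ m : d.σ, kap l.La (d.C a m.1 * PCh.y l m.1) =
            ∑ m : d.σ, kap l.La (d.C a m.1) * kap l.La (PCh.y l m.1) := Finset.sum_congr rfl fun m _ => map_mul _ _ _
        rw [e3, add_sub_cancel_right]
      · rfl
    rw [e2]
    have e4 : cq Q j = MvPolynomial.eval (PCh.y l) (c.Gq j) := (c.pt_Gq j).symm
    rw [e4, MvPolynomial.eval_map]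
    exact (MvPolynomial.eval₂_comp (kap l.La) (PCh.y l) (c.Gq j)).symm
  have e5 : MvPolynomial.eval (fun _ => 0) P = kap l.La (MvPolynomial.eval d.zb (c.Gq j)) := by
    rw [hP, eval_sbs]
    have e2 : (fun m => MvPolynomial.eval (fun _ => 0) (φ m)) = fun m => kap l.La (d.zb m) := by
      funext m
      rw [eφ]
      obtain ⟨b, rfl⟩ := d.eq.surjective m
      rw [Equiv.symm_apply_apply]
      unfold zb
      rw [Equiv.symm_apply_apply]
      rcases b with a | m
      · show kap l.La (d.z a) - ∑ m : d.σ, kap l.La (d.C a m.1) * 0 = kap l.La (d.z a)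
        rw [Finset.sum_eq_zero fun m _ => mul_zero _, sub_zero]
      · show (0 : QS (T l)) = kap l.La 0
        rw [map_zero]
    rw [e2, MvPolynomial.eval_map]
    exact (MvPolynomial.eval₂_comp (kap l.La) d.zb (c.Gq j)).symm
  have hR : dg (MvPolynomial.eval (fun m : d.σ => kap l.La (PCh.y l m.1)) P) lam ≤
      A ⊔ vd (fun m : d.σ => kap l.La (PCh.y l m.1)) cc := by
    rw [e1, kap_dg l.La _ h1]
    refine (chgL_mono l.La 1 one_pos (hd j)).trans ?_
    rw [chgL_sup]
    apply sup_le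
    · refine (PCh.win_kap l hcc hK).trans ?_
      rw [vd_le]
      intro m
      obtain ⟨x, rfl⟩ := d.eq.surjective m
      set B := A ⊔ vd (fun m : d.σ => kap l.La (PCh.y l m.1)) cc with hB
      rcases x with a | m
      · rw [d.eq_inl]
        have e6 : PCh.y l (d.J a) = d.z a - ∑ m : d.σ, d.C a m.1 * PCh.y l m.1 := by rw [d.z_eq]; ring
        rw [e6, map_sub, map_sum]
        apply (Kn (T l) cc hcc B).sub_mem
        · exact ((dg_mono _ hcc).trans (dg_le_vd (fun a => kap l.La (d.z a)) 1 a)).trans le_sup_left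
        · apply (Kn (T l) cc hcc B).sum_mem
          intro m _
          rw [map_mul]
          apply (Kn (T l) cc hcc B).mul_mem (d.C_kap a m.1 _ hcc)
          exact (dg_le_vd (fun m : d.σ => kap l.La (PCh.y l m.1)) cc m).trans le_sup_right
      · rw [d.eq_inr]
        exact (dg_le_vd (fun m : d.σ => kap l.La (PCh.y l m.1)) cc m).trans le_sup_right
    · refine le_trans ?_ le_sup_left
      have e7 := Pool.Agent.Helper13.AM.chgL_finsup l.La 1 one_pos (univ.filter fun j => w j = 1) fun i => dg (cq Q i) 1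
      rw [e7]
      apply Finset.sup_le
      intro i hi
      have hi' : w i = 1 := (Finset.mem_filter.mp hi).2
      rw [← kap_dg l.La _ le_rfl]
      have e8 : cq Q i = QS.mk (c.co i 0) + ∑ a, c.bc i (d.J a) * d.z a := d.base_eq hi'
      rw [e8, map_add, map_sum]
      apply (Kn (T l) 1 le_rfl A).add_mem (co_kap c i 0 A)
      apply (Kn (T l) 1 le_rfl A).sum_mem
      intro a _
      rw [map_mul]
      exact (Kn (T l) 1 le_rfl A).mul_mem (co_kap c i _ A) (dg_le_vd (fun a => kap l.La (d.z a)) 1 a)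
  have h2 := inv_core d.rl_σ kP h0 hc h1 hR
  rw [e1, e5, ← map_sub] at h2
  exact (kap_mem l.La (by linarith)).mp h2

end Dir

end

end Pool.Agent.Helper50.BLD
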