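import Pool.Agent.Helper50.BLD.Gv
import Pool.Agent.Helper71.BLD.Vis

/-! ST_G: a member with good types. -/

set_option autoImplicit false

namespace Pool.Agent.Helper50.BLD

theorem st_G (M : ℕ) : ST_G M := st_G_of fun _ _ _ _ _ _ d =>
  ⟨Pool.Agent.Helper71.BLD.full_z d, fun _ ht => Pool.Agent.Helper71.BLD.win_z d ht, fun _ h0 ht _ hX hw =>
    Pool.Agent.Helper71.BLD.src_z d h0 ht hX hw⟩

end Pool.Agent.Helper50.BLD
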