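import Pool.Agent.Helper50.BLD.Lc
import Pool.Agent.Helper10.BLD.St

/-! GOOD TYPES of a member of a homogeneous class (definition): leaves with polynomial charts of weighted degree at most
`w`, one base coordinate (replaced by a real combination of the base coordinates) has velocities of size one in all
directions; windows between the windows of the types of the member and what is common to them and to the point. -/

set_option autoImplicit false

namespace Pool.Agent.Helper50.BLD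

open Finset Filter Topology Pool.Agent.Helper69.RK Pool.Agent.Helper31.EC Pool.Agent.Helper31.EC.Sp
open Pool.Agent.Helper31.EC.QS Pool.Agent.Helper40.EL Pool.Agent.Helper84.MT Pool.Agent.Helper36.AM
open Pool.Agent.Helper57.TA (rcst)
open Pool.Agent.Helper10.BLD (IsTop)

noncomputable section

/-- GOOD TYPES of the system `s` -/
structure GT {S : Sp} {M g r : ℕ} (s : MSys S (M + 1) (lin g) (Fin r)) (w : Fin (M + 1) → ℝ) where
  /-- the combination of the base coordinates -/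
  θ : Fin (M + 1) → ℝ
  θ0 : θ 0 = 1
  θw : ∀ j, w j ≠ 1 → θ j = 0
  /-- number of good types, their points (the same functions) -/
  n : ℕ
  E : ℕ → ℕ
  Q : Fin n → S.VV (M + 1)
  q0 : ∀ i, QS.mk (TR.cor (Q i) 0) = ∑ j, rcst S (θ j) * QS.mk (TR.cor s.Q j)
  qj : ∀ i j, j ≠ 0 → QS.mk (TR.cor (Q i) j) = QS.mk (TR.cor s.Q j)
  lf : ∀ i, Leaf S (Q i) E
  ch : ∀ i, PCh (lf i) w
  pos : ∀ i, 0 < (lf i).e
  dim : ∀ i, (lf i).e ≤ nd1 w
  unit : ∀ i m, IsUnit (QS.mk ((ch i).co 0 (Finsupp.single m 1)))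
  /-- the type of `s` from which a good type comes -/
  ty : Fin n → Fin r
  win : ∀ i c, 0 ≤ c → c ≤ 1 → PLe ((lf i).win c) ((s.lf (ty i)).win c)
  src : ∀ i c, 0 ≤ c → c ≤ 1 → ∀ X : Part S, PLe X (pcd s.Q) → PLe X ((s.lf (ty i)).win c) → PLe X ((lf i).win c)
  top : ∀ i j (a : Fin (lf i).e →₀ ℕ), ((a.degree : ℕ) : ℝ) = w j → ∃ (n : ℕ) (f : Fin n → TR S) (t : Fin n → Fin r),
    (∀ b, IsTop w s (t b) (f b)) ∧ ∀ x : ℝ, x ≤ 1 → QS.dg (QS.mk ((ch i).co j a)) x ≤ (TR.vec f).dg x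
  cov : ∀ i0, PLe (pcd s.Q) (fun k => fc ((s.lf i0).La k)) ∨ ∃ i, ty i = i0

/-- [G] a member with good types -/
def ST_G (M : ℕ) : Prop := ∀ (Cl : MCl (M + 1)) (g r : ℕ) (w : Fin (M + 1) → ℝ) (ρ : ℝ) TT, Hom M Cl g r w ρ TT →
  1 < w (Fin.last M) → ∃ (S : Sp) (s : MSys S (M + 1) (lin g) (Fin r)), TT S s ∧ Nonempty (GT s w)

end

end Pool.Agent.Helper50.BLD
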