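import Pool.Agent.Helper50.BLD.Dic
import Pool.Agent.Helper50.BLD.Dir

/-! GOOD MEMBERS: all minors of the base-linear parts are units or zero, a real combination of the base coordinates has
velocities of size one in all directions in which the base point moves. -/

set_option autoImplicit false

namespace Pool.Agent.Helper50.BLD

open Finset Filter Topology Pool.Agent.Helper69.RK Pool.Agent.Helper31.EC Pool.Agent.Helper31.EC.Sp
open Pool.Agent.Helper31.EC.QS Pool.Agent.Helper40.EL Pool.Agent.Helper84.MT Pool.Agent.Helper36.AM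
open Pool.Agent.Helper57.TA (rcst)
open Pool.Agent.Helper82.TP (Lit)

noncomputable section

variable {S : Sp}

theorem rcst_int (n : ℤ) : rcst S (n : ℝ) = (n : QS S) := map_intCast (rcst S) n

/-- the base-linear part of a chart -/
def PCh.BM {M : ℕ} {E : ℕ → ℕ} {Q : S.VV M} {l : Leaf S Q E} {w : Fin M → ℝ} (c : PCh l w) :
    Matrix (Fin M) (Fin l.e) (QS S) := by
  classical exact Matrix.of fun j m => if w j = 1 then c.bc j m else 0

section

variable {M : ℕ} {E : ℕ → ℕ} {Q : S.VV M} {l : Leaf S Q E} {w : Fin M → ℝ} (c : PCh l w)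

theorem PCh.BM_pos {j : Fin M} (h : w j = 1) (m : Fin l.e) : c.BM j m = c.bc j m := if_pos h

theorem PCh.BM_neg {j : Fin M} (h : w j ≠ 1) (m : Fin l.e) : c.BM j m = 0 := if_neg h

end

section hom

variable {M g r : ℕ} {w : Fin (M + 1) → ℝ} {Cl : MCl (M + 1)} {ρ : ℝ}
  {TT : ∀ S : Sp, MSys S (M + 1) (lin g) (Fin r) → Prop}

/-- the minors as polynomials -/
def mnr (w : Fin (M + 1) → ℝ) (r g : ℕ) (x : Fin r × (Σ k : Fin (M + 3), (Fin k → Fin (M + 1)) × (Fin k → Fin g))) :
    MvPolynomial (Fin r × Fin (M + 1) × ℕ) ℤ := by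
  classical exact (Matrix.of fun a b => if w (x.2.2.1 a) = 1 then
    MvPolynomial.X (x.1, x.2.2.1 a, ((x.2.2.2 b : Fin g) : ℕ)) else 0).det

/-- the combinations of the rows as polynomials -/
def cmb (w : Fin (M + 1) → ℝ) (r g L : ℕ) (x : Fin (L + 1) × Fin r × Fin g) :
    MvPolynomial (Fin r × Fin (M + 1) × ℕ) ℤ := by
  classical exact ∑ j, if w j = 1 then
    MvPolynomial.C (((x.1 : ℕ) : ℤ) ^ (j : ℕ)) * MvPolynomial.X (x.2.1, j, (x.2.2 : ℕ)) else 0

/-- GOOD MEMBERS -/
theorem exists_good (hT : Hom M Cl g r w ρ TT) :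
    ∃ (S : Sp) (s : MSys S (M + 1) (lin g) (Fin r)) (c : ∀ i, PCh (s.lf i) w), TT S s ∧
      (∀ i k (I : Fin k → Fin (M + 1)) (J : Fin k → Fin (s.lf i).e), k ≤ M + 2 →
        IsUnit ((c i).BM.submatrix I J).det ∨ ((c i).BM.submatrix I J).det = 0) ∧
      ∃ θ : Fin (M + 1) → ℝ, θ 0 = 1 ∧ (∀ j, w j ≠ 1 → θ j = 0) ∧
        ∀ i m, (∃ j, (c i).BM j m ≠ 0) → IsUnit (∑ j, rcst S (θ j) * (c i).bc j m) := by
  classical
  set L := r * g * (M + 1) with hL
  obtain ⟨S, s, c, hs, h⟩ := exists_dic hT ((univ : Finset (Fin r × (Σ k : Fin (M + 3),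
    (Fin k → Fin (M + 1)) × (Fin k → Fin g)))).toList.map (mnr w r g) ++
    (univ : Finset (Fin (L + 1) × Fin r × Fin g)).toList.map (cmb w r g L))
  have he : ∀ i, (s.lf i).e ≤ g := fun i => by
    have h1 := (s.lf i).he
    unfold lin at h1
    rwa [zero_add, mul_one] at h1
  refine ⟨S, s, c, hs, fun i k I J hk => ?_, ?_⟩
  · set x : Fin r × (Σ k : Fin (M + 3), (Fin k → Fin (M + 1)) × (Fin k → Fin g)) :=
      (i, ⟨⟨k, by omega⟩, (I, fun b => ⟨J b, (J b).2.trans_le (he i)⟩)⟩) with hx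
    have h1 := h (mnr w r g x) (List.mem_append_left _ (List.mem_map.mpr ⟨x, Finset.mem_toList.mpr (Finset.mem_univ x), rfl⟩))
    have h2 : pv' (bn c) (mnr w r g x) = ((c i).BM.submatrix I J).det := by
      unfold mnr
      rw [RingHom.map_det]
      congr 1
      ext a b
      rw [RingHom.mapMatrix_apply, Matrix.map_apply, Matrix.of_apply, Matrix.submatrix_apply]
      by_cases hw : w (I a) = 1
      · have hw' : w (x.2.2.1 a) = 1 := hw
        rw [if_pos hw', (c i).BM_pos hw]
        have h3 : pv' (bn c) (MvPolynomial.X (x.1, x.2.2.1 a, ((x.2.2.2 b : Fin g) : ℕ))) =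
            bn c (i, I a, ((J b : Fin (s.lf i).e) : ℕ)) := by
          unfold pv'
          rw [MvPolynomial.coe_eval₂Hom, MvPolynomial.eval₂_X]
        rw [h3, bn_pos]
      · have hw' : ¬ w (x.2.2.1 a) = 1 := hw
        rw [if_neg hw', (c i).BM_neg hw, map_zero]
    rwa [h2] at h1
  · obtain ⟨a, ha, hb⟩ := exists_comb (rcst S) (κ := Σ i : Fin r, Fin (s.lf i).e) fun x j => (c x.1).BM j x.2
    have hκ : Fintype.card (Σ i : Fin r, Fin (s.lf i).e) ≤ r * g := by
      rw [Fintype.card_sigma]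
      refine (Finset.sum_le_sum fun i _ => ?_).trans (b := ∑ _i : Fin r, g) ?_
      · rw [Fintype.card_fin]
        exact he i
      · rw [Finset.sum_const, Finset.card_univ, Fintype.card_fin, smul_eq_mul]
    have ha' : a < L + 1 := Nat.lt_succ_of_le (ha.trans (Nat.mul_le_mul_right _ hκ))
    refine ⟨fun j => if w j = 1 then (a : ℝ) ^ (j : ℕ) else 0, ?_, fun j hj => if_neg hj, fun i m hm => ?_⟩
    · beta_reduce
      rw [if_pos hT.one, Fin.val_zero, pow_zero]
    · have h1 : ∑ j, rcst S (if w j = 1 then (a : ℝ) ^ (j : ℕ) else 0) * (c i).bc j m =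
          ∑ j : Fin (M + 1), rcst S ((a : ℝ) ^ (j : ℕ)) * (c i).BM j m := by
        apply Finset.sum_congr rfl
        intro j _
        by_cases hj : w j = 1
        · rw [if_pos hj, (c i).BM_pos hj]
        · rw [if_neg hj, (c i).BM_neg hj, map_zero, zero_mul, mul_zero]
      have h2 : ∑ j : Fin (M + 1), rcst S ((a : ℝ) ^ (j : ℕ)) * (c i).BM j m ≠ 0 := by
        apply hb ⟨i, m⟩
        obtain ⟨j, hj⟩ := hm
        intro hc
        exact hj (congrFun hc j)
      set x : Fin (L + 1) × Fin r × Fin g := (⟨a, ha'⟩, i, ⟨m, m.2.trans_le (he i)⟩) with hx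
      have h3 := h (cmb w r g L x) (List.mem_append_right _ (List.mem_map.mpr ⟨x, Finset.mem_toList.mpr (Finset.mem_univ x), rfl⟩))
      have h4 : pv' (bn c) (cmb w r g L x) = ∑ j : Fin (M + 1), rcst S ((a : ℝ) ^ (j : ℕ)) * (c i).BM j m := by
        unfold cmb
        rw [map_sum]
        apply Finset.sum_congr rfl
        intro j _
        by_cases hj : w j = 1
        · rw [if_pos hj, (c i).BM_pos hj, map_mul]
          have e1 : pv' (bn c) (MvPolynomial.X (x.2.1, j, (x.2.2 : ℕ))) = (c i).bc j m := by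
            rw [← bn_pos c i j m]
            unfold pv'
            rw [MvPolynomial.coe_eval₂Hom, MvPolynomial.eval₂_X]
          have e2 : pv' (bn c) (MvPolynomial.C (((x.1 : ℕ) : ℤ) ^ (j : ℕ))) = rcst S ((a : ℝ) ^ (j : ℕ)) := by
            unfold pv'
            rw [MvPolynomial.coe_eval₂Hom, MvPolynomial.eval₂_C, map_pow, map_pow, map_natCast, map_natCast]
          rw [e1, e2]
        · rw [if_neg hj, (c i).BM_neg hj, map_zero, mul_zero]
      rw [h4] at h3
      beta_reduce
      rw [h1]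
      exact h3.resolve_right h2

end hom

end

end Pool.Agent.Helper50.BLD
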