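import Pool.Agent.Helper50.BLD.Nl

/-! GOOD TYPES: assembly. -/

set_option autoImplicit false

namespace Pool.Agent.Helper50.BLD

open Finset Filter Topology Pool.Agent.Helper69.RK Pool.Agent.Helper31.EC Pool.Agent.Helper31.EC.Sp
open Pool.Agent.Helper31.EC.QS Pool.Agent.Helper40.EL Pool.Agent.Helper84.MT Pool.Agent.Helper36.AM
open Pool.Agent.Helper57.TA (rcst dg_rcst)
open Pool.Agent.Helper5.HB (cq)

noncomputable section

/-- the visible parameter: full, between the windows, common part with the point -/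
def VisP (M g : ℕ) : Prop := ∀ (S : Sp) (Q : S.VV (M + 1)) (l : Leaf S Q (lin g)) (w : Fin (M + 1) → ℝ) (c : PCh l w)
  (d : Dir c), Tendsto (fun k => h (fc (Setoid.ker (d.Yz.cellv 1 k))) (fc (l.La k)) / (S.F k).n) UF (𝓝 (d.n : ℝ)) ∧
    (∀ t, t ≤ 1 → PLe (d.wz t) (l.win t)) ∧
    ∀ t, 0 ≤ t → t ≤ 1 → ∀ X : Part S, PLe X (d.wz 1) → PLe X (l.win t) → PLe X (d.wz t)

section hom

variable {M g r : ℕ} {w : Fin (M + 1) → ℝ} {Cl : MCl (M + 1)} {ρ : ℝ}
  {TT : ∀ S : Sp, MSys S (M + 1) (lin g) (Fin r) → Prop}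

/-- A MEMBER WITH GOOD TYPES -/
theorem exists_GT (hV : VisP M g) (hT : Hom M Cl g r w ρ TT) (hl : 1 < w (Fin.last M)) :
    ∃ (S : Sp) (s : MSys S (M + 1) (lin g) (Fin r)), TT S s ∧ Nonempty (GT s w) := by
  classical
  obtain ⟨S, s, c, θ, d, hs, h0, hw, hd, hu, hf⟩ := exists_flat hT hl
  refine ⟨S, s, hs, ⟨?_⟩⟩
  set ι := {i : Fin r // 0 < (d i).n} with hι
  set q : Fin (Fintype.card ι) ≃ ι := (Fintype.equivFin ι).symm with hq
  set g' : ℕ := PCh.D w + nd1 w + 1 with hg'
  have a1 : 1 ≤ g' := by omega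
  have a2 : ∀ i, (d i).n ≤ g' := fun i => by
    have := hd i
    omega
  have a3 : PCh.D w ≤ g' := by omega
  have F := fun i => (hV S s.Q (s.lf i) w (c i) (d i)).1
  exact
    { θ := θ
      θ0 := h0
      θw := hw
      n := Fintype.card ι
      E := lin g'
      Q := fun i => (d (q i).1).Q' θ
      q0 := fun i => (d (q i).1).Q'_zero θ (hf (q i).1)
      qj := fun i j hj => (d (q i).1).Q'_ne θ (hf (q i).1) hj
      lf := fun i => (d (q i).1).nl θ hT.one hw g' a1 (a2 (q i).1) a3 (F (q i).1)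
      ch := fun i => (d (q i).1).nch hT.one hw a1 (a2 (q i).1) a3 (F (q i).1)
      pos := fun i => (q i).2
      dim := fun i => hd (q i).1
      unit := fun i m => (d (q i).1).nch_unit hT.one hw a1 (a2 (q i).1) a3 (F (q i).1) (hu (q i).1) m
      ty := fun i => (q i).1
      win := fun i t _ ht => (hV S s.Q (s.lf (q i).1) w (c (q i).1) (d (q i).1)).2.1 t ht
      src := fun i t h0 ht X hX hw => (hV S s.Q (s.lf (q i).1) w (c (q i).1) (d (q i).1)).2.2 t h0 ht X
        (hX.trans ((d (q i).1).pt_wz (hf (q i).1))) hw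
      top := fun i j a ha => by
        obtain ⟨n, f, t, h1, h2⟩ := top_nl (d (q i).1) hT.one hw j a ha
        refine ⟨n, f, t, h1, fun x hx => ?_⟩
        have h3 := congrArg QS.mk ((d (q i).1).nch_co hT.one hw a1 (a2 (q i).1) a3 (F (q i).1) j a)
        have h4 := h2 x hx
        rw [← h3] at h4
        exact h4
      cov := fun i0 => by
        by_cases h : (d i0).n = 0
        · exact Or.inl ((d i0).pt_zero (hf i0) h)
        · right
          refine ⟨q.symm ⟨i0, Nat.pos_of_ne_zero h⟩, ?_⟩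
          rw [Equiv.apply_symm_apply] }

end hom

theorem st_G_of {M : ℕ} (hV : ∀ g, VisP M g) : ST_G M := fun _ g _ _ _ _ hT hl => exists_GT (hV g) hT hl

end

end Pool.Agent.Helper50.BLD
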