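import Pool.Agent.Helper57.TA.Clo

/-! INVISIBLE DIRECTIONS: a polynomial in real variables whose digits of level `lam` are known to the digits of level
`c < lam` of the variables has small derivatives. -/

set_option autoImplicit false

namespace Pool.Agent.Helper50.BLD

open Finset Filter Topology Pool.Agent.Helper69.RK Pool.Agent.Helper31.EC Pool.Agent.Helper31.EC.Sp
open Pool.Agent.Helper31.EC.QS Pool.Agent.Helper57.TA

noncomputable section

variable {T : Sp}

theorem dg_sc_mul_le (v : QS T) {u : ℝ} (h0 : 0 ≤ u) (h1 : u ≤ 1) : dg (sc T u * v) 1 ≤ dg v (1 - u) := by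
  obtain ⟨w, hw, hv⟩ := exists_round v (sub_nonneg.mpr h1) (by linarith : 1 - u ≤ 1)
  have e1 : sc T u * v = sc T u * w := by
    rw [← sub_eq_zero, ← mul_sub, ← mem_Id_one]
    have h2 := sc_mul_mem h0 hv
    rwa [show u + (1 - u) = 1 by ring] at h2
  rw [e1]
  refine le_trans ?_ hw
  apply (Kn T 1 le_rfl (dg w 1)).mul_mem _ (mem_Kn.mpr le_rfl)
  show dg _ _ ≤ _
  rw [dg_sc]
  exact bot_le

/-- POLYNOMIALS WHICH MOVE TOO LITTLE have small derivatives -/
theorem der_small {σ : Type} [Fintype σ] {y : σ → QS T} {A : T.L} (hy : Rl y A) {P : MvPolynomial σ (QS T)}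
    (hP : P ∈ PK A) {c lam : ℝ} (h0 : 0 ≤ c) (hc : c < lam) (h1 : lam ≤ 1)
    (hR : dg (MvPolynomial.eval y P) lam ≤ A ⊔ vd y c) (l : σ) :
    MvPolynomial.eval y (MvPolynomial.pderiv l P) ∈ Id T (lam - c) := by
  classical
  have hc1 : c < 1 := hc.trans_le h1
  choose yr hyr hyd using fun a => exists_round (y a) h0 hc1.le
  obtain ⟨Rr, hRr, hRd⟩ := exists_round (MvPolynomial.eval y P) (h0.trans hc.le) h1
  let f : P.support ⊕ σ ⊕ Unit → QS T := Sum.elim (fun m => P.coeff m.1) (Sum.elim yr fun _ => Rr)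
  have hf : vd f 1 ≤ A ⊔ vd y c := by
    rw [vd_le]
    intro i
    rcases i with m | a | _
    · exact (hP m.1).trans le_sup_left
    · exact ((hyr a).trans (dg_le_vd y c a)).trans le_sup_right
    · exact hRr.trans hR
  obtain ⟨C⟩ := exists_CQ f 1
  have ey : ∀ a, (C.p 1).qs (y a) - (C.p 0).qs (y a) ∈ Id C.W c := by
    intro a
    have h2 := ((C.p 1).qs_mem_Id hc1.le).mpr (hyd a)
    have h3 := ((C.p 0).qs_mem_Id hc1.le).mpr (hyd a)
    rw [map_sub] at h2 h3
    have h4 : (C.p 1).qs (yr a) = (C.p 0).qs (yr a) := C.com 1 0 (Sum.inr (Sum.inl a))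
    rw [h4] at h2
    have h5 := (Id C.W c).sub_mem h2 h3
    rwa [sub_sub_sub_cancel_right] at h5
  have eR : (C.p 1).qs (MvPolynomial.eval y P) - (C.p 0).qs (MvPolynomial.eval y P) ∈ Id C.W lam := by
    have h2 := ((C.p 1).qs_mem_Id h1).mpr hRd
    have h3 := ((C.p 0).qs_mem_Id h1).mpr hRd
    rw [map_sub] at h2 h3
    have h4 : (C.p 1).qs Rr = (C.p 0).qs Rr := C.com 1 0 (Sum.inr (Sum.inr ()))
    rw [h4] at h2
    have h5 := (Id C.W lam).sub_mem h2 h3
    rwa [sub_sub_sub_cancel_right] at h5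
  have eP : MvPolynomial.map (C.p 1).qs P = MvPolynomial.map (C.p 0).qs P := by
    ext m
    rw [MvPolynomial.coeff_map, MvPolynomial.coeff_map]
    by_cases hm : m ∈ P.support
    · exact C.com 1 0 (Sum.inl ⟨m, hm⟩)
    · rw [MvPolynomial.notMem_support_iff.mp hm, map_zero, map_zero]
  choose v hv hvd using fun a => exists_div h0 hc1.le (ey a)
  -- the displacement is full over the first copy
  set B : C.W.L := (C.p 0).map (A ⊔ vd y 1) with hB
  have fl : Rt (1 - c) v B := by
    apply Rt.of_ge (sub_nonneg.mpr hc1.le)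
    have k1 : (Fintype.card σ : ℝ) * (1 - c) ≤ h (vd y 1) (vd f 1) := by
      have k2 : h (vd y 1) (A ⊔ vd y c) ≤ h (vd y 1) (vd f 1) := h_anti hf
      have k3 := h_triangle (vd y 1) (vd y c) A
      have k4 := h_vd_le y h0 A
      have k5 : h (vd y 1) A = Fintype.card σ := hy
      rw [sup_comm (vd y c)] at k3
      nlinarith
    have k2 : h ((C.p 1).map (vd y 1)) B = h ((C.p 1).map (vd y 1)) (B ⊔ C.v) ⊔ h ((C.p 1).map (vd y 1)) B := by
      rw [sup_of_le_right (h_anti le_sup_left)]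
    have k3 : h ((C.p 1).map (vd y 1)) (B ⊔ C.v) = h (vd y 1) (vd f 1) := by
      have i1 := C.I_two (i := 1) (j := 0) (by decide) (vd y 1) (A ⊔ vd y 1)
      rw [I_zero_iff_h] at i1
      rw [← C.h_map_v 1 (vd y 1)]
      exact i1
    have k4 : h ((C.p 1).map (vd y 1)) B ≤ h (vd v (1 - c)) B := by
      have k5 : (C.p 1).map (vd y 1) ≤ B ⊔ vd v (1 - c) := by
        rw [← (C.p 1).qs_vd, vd_le]
        intro a
        have e1 : (C.p 1).qs (y a) = (C.p 0).qs (y a) + sc C.W c * v a := by rw [← hv a]; ring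
        rw [e1]
        apply (Kn C.W 1 le_rfl (B ⊔ vd v (1 - c))).add_mem
        · show dg _ _ ≤ _
          rw [Pj.qs_dg]
          exact ((C.p 0).map_mono ((dg_le_vd y 1 a).trans le_sup_right)).trans le_sup_left
        · exact ((dg_sc_mul_le (v a) h0 hc1.le).trans (dg_le_vd v (1 - c) a)).trans le_sup_right
      have k6 := h_mono (B := B) k5
      rwa [sup_comm B, h_sup_right_of_le le_rfl] at k6
    have k5 : h ((C.p 1).map (vd y 1)) (B ⊔ C.v) ≤ h ((C.p 1).map (vd y 1)) B := h_anti le_sup_left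
    linarith
  -- the polynomial of the displacement
  set P0 := MvPolynomial.map (C.p 0).qs P with hP0
  have hP0k : P0 ∈ PK B := PK_mono ((C.p 0).map_mono le_sup_left) (map_PK (C.p 0) hP)
  set φ : σ → MvPolynomial σ (QS C.W) := fun a => MvPolynomial.C ((C.p 0).qs (y a)) + MvPolynomial.X a with hφ
  have hφk : ∀ a, φ a ∈ PK B := by
    intro a
    apply (PK B).add_mem (C_mem _) (X_mem _ _)
    rw [Pj.qs_dg]
    exact (C.p 0).map_mono ((dg_le_vd y 1 a).trans le_sup_right)
  set G := MvPolynomial.aeval φ P0 - MvPolynomial.C (MvPolynomial.eval (fun a => (C.p 0).qs (y a)) P0) with hG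
  have hGk : G ∈ PK B := by
    apply (PK B).sub_mem (sbs_PK hP0k hφk)
    apply C_mem
    exact eval_mem hP0k _ le_rfl fun a => by
      rw [Pj.qs_dg]
      exact (C.p 0).map_mono ((dg_le_vd y 1 a).trans le_sup_right)
  have hev : MvPolynomial.eval (fun a => sc C.W (1 * c) * v a) G ∈ Id C.W lam := by
    rw [hG, map_sub, MvPolynomial.eval_C, eval_sbs]
    have e1 : (fun a => MvPolynomial.eval (fun a => sc C.W (1 * c) * v a) (φ a)) = fun a => (C.p 1).qs (y a) := by
      funext a
      rw [hφ]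
      beta_reduce
      rw [map_add, MvPolynomial.eval_C, MvPolynomial.eval_X, one_mul, ← hv a]
      ring
    rw [e1]
    rw [qs_eval (C.p 1) P y, qs_eval (C.p 0) P y, eP] at eR
    exact eR
  have h2 := small_raw (wt := fun _ : σ => (1 : ℝ)) (fun _ => zero_le_one) h0 (sub_pos.mpr hc1) (by linarith) fl h1 le_rfl
    (PKr_of_PK le_rfl hGk) hev (Finsupp.single l 1)
  have e3 : wgt (fun _ : σ => (1 : ℝ)) (Finsupp.single l 1) = 1 := wgt_single _ _
  rw [e3, one_mul] at h2
  rw [← (C.p 0).qs_mem_Id (by linarith : lam - c ≤ 1), qs_eval]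
  have e4 : G.coeff (Finsupp.single l 1) =
      MvPolynomial.eval (fun a => (C.p 0).qs (y a)) (MvPolynomial.map (C.p 0).qs (MvPolynomial.pderiv l P)) := by
    rw [coeff_single_eq, hG, map_sub, MvPolynomial.pderiv_C, sub_zero, pderiv_sbs φ l l (fun a => ?_), coeff_zero_eval,
      eval_sbs, hP0, MvPolynomial.pderiv_map]
    · congr 2
      funext a
      rw [hφ]
      beta_reduce
      rw [map_add, MvPolynomial.eval_C, MvPolynomial.eval_X, add_zero]
    · rw [hφ]
      beta_reduce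
      rw [map_add, MvPolynomial.pderiv_C, zero_add, MvPolynomial.pderiv_X]
      by_cases ha : a = l
      · subst ha
        rw [Pi.single_eq_same, if_pos rfl]
      · rw [Pi.single_eq_of_ne ha, if_neg ha]
  rw [← e4]
  exact h2

/-- INVISIBLE DIRECTIONS -/
theorem inv_core {σ : Type} [Fintype σ] {y : σ → QS T} {A : T.L} (hy : Rl y A) {P : MvPolynomial σ (QS T)}
    (hP : P ∈ PK A) {c lam : ℝ} (h0 : 0 ≤ c) (hc : c < lam) (h1 : lam ≤ 1)
    (hR : dg (MvPolynomial.eval y P) lam ≤ A ⊔ vd y c) :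
    MvPolynomial.eval y P - MvPolynomial.eval (fun _ => 0) P ∈ Id T (lam - c) :=
  const_of_pderiv one_pos le_rfl (Rl_iff_Rt.mp hy) (by linarith) hP (fun l => der_small hy hP h0 hc h1 hR l) _

end

end Pool.Agent.Helper50.BLD
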