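import Pool.Agent.Helper50.BLD.Chl
import Pool.Agent.Helper50.BLD.Gq
import Pool.Agent.Helper50.BLD.Inv
import Pool.Agent.Helper91.BOX.Box

/-! INVISIBLE DIRECTIONS OF A LEAF: directions which fix the coordinates of weight one. If the base point is an affine
function of `z` (linear forms in the parameter), all coordinates are functions of `z` up to a positive level. -/

set_option autoImplicit false

namespace Pool.Agent.Helper50.BLD

open Finset Filter Topology Pool.Agent.Helper69.RK Pool.Agent.Helper31.EC Pool.Agent.Helper31.EC.Sp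
open Pool.Agent.Helper31.EC.QS Pool.Agent.Helper40.EL Pool.Agent.Helper84.MT Pool.Agent.Helper36.AM
open Pool.Agent.Helper82.TP (Lit)
open Pool.Agent.Helper13.AM (cQ cQ_dg cQ_mem cQ_vd)
open Pool.Agent.Helper91.BOX (fu fu_Id rcT rcT_dg rcT_zero puT cq_eq fP fu_dg bL exists_box hom_one_le hom_le_last)
open Pool.Agent.Helper5.HB (cq)
open Pool.Agent.Helper57.TA (eval_sbs sbs_PK)

noncomputable section

variable {S : Sp}

/-! ### frames -/

section frame

variable {M : ℕ} {Q : S.VV M} {Z : ∀ k, Setoid (S.F k).Ω} {La : Fin M → ℝ}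

/-- digits of level `lam` of all coordinates are known to the box and the coordinates of lower level -/
theorem frame_dg (f : Frm Q (Lab.ofZ Z) La) (D : ℕ) (hL : ∀ i, 0 ≤ La i) (hL1 : ∀ i, La i ≤ 1) (hm : Monotone La)
    (hD : ∀ k ω j, ∀ b ∈ (fP f k ω j).support, ∑ i, b i ≤ D) {lam : ℝ} (h1 : lam ≤ 1) {B : S.L} (hB : bL f D ≤ B)
    (hb : ∀ i, La i < lam → dg (cq Q i) 1 ≤ B) (j : Fin M) : dg (cq Q j) lam ≤ B := by
  classical
  have hfu : ∀ i, dg (fu f hL i) lam ≤ B := by
    intro i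
    by_cases hi : La i < lam
    · refine (dg_mono _ h1).trans ((fu_dg f D hL hD i).trans (sup_le ?_ hB))
      apply Finset.sup_le
      intro i' hi'
      exact hb i' ((hm (Finset.mem_filter.mp hi').2).trans_lt hi)
    · have h2 : fu f hL i ∈ Id S lam := Id_anti (not_lt.mp hi) (fu_Id f hL i (hL1 i))
      rw [dg_of_mem_Id h2 le_rfl h1]
      exact _root_.bot_le
  rw [cq_eq f D hL hD j]
  apply (Kn S lam h1 B).add_mem _ (hfu j)
  unfold puT
  rw [map_sum]
  refine Subring.sum_mem _ fun a _ => ?_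
  rw [map_mul, map_prod]
  apply Subring.mul_mem
  · rw [mem_Kn, dg_mk _ h1]
    exact (rcT_dg f D j a lam).trans hB
  · refine Subring.prod_mem _ fun i _ => ?_
    rw [map_pow]
    exact Subring.pow_mem _ (hfu i) _

end frame

section hom

variable {M : ℕ} {Cl : MCl (M + 1)} {g r : ℕ} {w : Fin (M + 1) → ℝ} {ρ : ℝ}
  {TT : ∀ S : Sp, MSys S (M + 1) (lin g) (Fin r) → Prop}

/-- THE BOX of scale `c`: digits of level `w1 c` of all coordinates are known to the base point and an information which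
is known to all windows `c` -/
theorem box_dg (hT : Hom M Cl g r w ρ TT) {s : MSys S (M + 1) (lin g) (Fin r)} (hs : TT S s) {w1 : ℝ}
    (hw : ∀ j, w j = 1 ∨ w1 ≤ w j) {c : ℝ} (h0 : 0 ≤ c) (h1 : w (Fin.last M) * c < 1)
    (hw1 : w1 ≤ w (Fin.last M)) :
    ∃ K : S.L, (∀ i, KP ((s.lf i).win c) K) ∧
      ∀ j, dg (cq s.Q j) (w1 * c) ≤ K ⊔ (univ.filter fun j => w j = 1).sup fun i => dg (cq s.Q i) 1 := by
  classical
  obtain ⟨α, V, f, hV, hK, hfV, ⟨D, hD⟩, -, -⟩ := exists_box hT hs h0 h1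
  have hL : ∀ i, 0 ≤ w i * c := fun i => mul_nonneg (zero_le_one.trans (hom_one_le hT i)) h0
  have hL1 : ∀ i, w i * c ≤ 1 := fun i => (mul_le_mul_of_nonneg_right (hom_le_last hT i) h0).trans h1.le
  have hm : Monotone fun i => w i * c := fun i j hij => mul_le_mul_of_nonneg_right (hT.mono hij) h0
  have hD' : ∀ k ω j, ∀ b ∈ (fP f k ω j).support, ∑ i, b i ≤ D := fun k ω j b hb =>
    Pool.Agent.Helper63.FRT.deg_of_support (hD k ω j) hb
  refine ⟨io V, fun i => ?_, fun j => ?_⟩
  · have h2 := (Lab.ofZ_DMf _).mp hK.1 (some i)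
    unfold KP
    rw [io_eq hV]
    exact (rp_rpI _).1.trans h2
  · have hlam : w1 * c ≤ 1 := (mul_le_mul_of_nonneg_right hw1 h0).trans h1.le
    apply frame_dg f D hL hL1 hm hD' hlam
    · refine le_trans ?_ le_sup_left
      unfold bL
      apply io_le_of_fun hV
      refine Eventually.of_forall fun k ω ω' _ _ _ h => ?_
      have h2 := (hfV k ω ω').mpr h
      show Pool.Agent.Helper91.BOX.rd D (S.dl 1 k) (fP f k ω) = Pool.Agent.Helper91.BOX.rd D (S.dl 1 k) (fP f k ω')
      rw [h2]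
    · intro i hi
      rcases hw i with h2 | h2
      · exact (Finset.le_sup (f := fun i => dg (cq s.Q i) 1) (Finset.mem_filter.mpr ⟨Finset.mem_univ i, h2⟩)).trans le_sup_right
      · exact absurd hi (not_lt.mpr (mul_le_mul_of_nonneg_right h2 h0))

end hom

end

end Pool.Agent.Helper50.BLD
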