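import Pool.Agent.Helper50.BLD.Lt

/-! THE TYPE OF A CORNER given by a line of a leaf with polynomial chart: the height is an affine function of the
parameter with velocity of size one. -/

set_option autoImplicit false

namespace Pool.Agent.Helper50.BLD

open Finset Filter Topology Pool.Agent.Helper69.RK Pool.Agent.Helper31.EC Pool.Agent.Helper31.EC.Sp
open Pool.Agent.Helper31.EC.QS Pool.Agent.Helper40.EL Pool.Agent.Helper84.MT
open Pool.Agent.Helper63.FRT (exps mem_exps exps_deg)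
open Pool.Agent.Helper82.TP (Lit)

noncomputable section

section aff

open Polynomial

variable {S : Sp} {β : ℕ → Type} {V : ∀ k, (S.F k).Ω → β k}

/-- the reparametrised height -/
theorem rpm_self {p : Polynomial (LR V)} (hp : p.natDegree ≤ 1) {g : LR V} (hg : g * p.coeff 1 = 1) :
    rpm p (p.coeff 0) g = X := by
  unfold rpm
  have h1 : p = C (p.coeff 1) * X + C (p.coeff 0) := eq_X_add_C_of_natDegree_le_one hp
  have h2 : p.comp (C g * (X - C (p.coeff 0))) = C (p.coeff 1) * (C g * (X - C (p.coeff 0))) + C (p.coeff 0) := by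
    generalize p.coeff 1 = b at h1 ⊢
    generalize p.coeff 0 = a at h1 ⊢
    rw [h1, add_comp, mul_comp, C_comp, X_comp, C_comp]
  rw [h2, ← mul_assoc, ← C_mul, mul_comm (p.coeff 1), hg, C_1, one_mul, sub_add_cancel]

end aff

namespace PCh

variable {S : Sp} {M : ℕ} {E : ℕ → ℕ} {Q : S.VV M} {l : Leaf S Q E} {w : Fin M → ℝ} (c : PCh l w)

/-- the velocity of a coordinate of weight one along the line is the coefficient of the chart -/
theorem pl_coeff_one (i₀ : Fin l.e) {j : Fin M} (hj : w j < 2) :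
    (((c.pl i₀ j).coeff 1 : LR (V l i₀)) : QS S) = QS.mk (c.co j (Finsupp.single i₀ 1)) := by
  classical
  unfold pl
  rw [Polynomial.finsetSum_coeff]
  rw [Finset.sum_eq_single (Finsupp.single i₀ 1)]
  · rw [Polynomial.coeff_C_mul, Polynomial.coeff_X_pow, Finsupp.single_eq_same, if_pos rfl, mul_one]
    show QS.mk (c.co j (Finsupp.single i₀ 1)) * ∏ m ∈ univ.erase i₀, y l m ^ (Finsupp.single i₀ 1 : Fin l.e →₀ ℕ) m = _
    rw [Finset.prod_eq_one, mul_one]
    intro m hm
    rw [Finsupp.single_eq_of_ne (Finset.ne_of_mem_erase hm), pow_zero]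
  · intro a _ ha
    rw [Polynomial.coeff_C_mul, Polynomial.coeff_X_pow]
    by_cases h1 : 1 = a i₀
    · rw [if_pos h1, mul_one]
      apply Subtype.ext
      show QS.mk (c.co j a) * _ = 0
      rw [c.co_zero, map_zero, zero_mul]
      refine hj.trans_le ?_
      have h2 : ∃ m, m ≠ i₀ ∧ a m ≠ 0 := by
        by_contra hc
        push Not at hc
        apply ha
        ext m
        by_cases hm : m = i₀
        · rw [hm, Finsupp.single_eq_same, h1]
        · rw [Finsupp.single_eq_of_ne hm, hc m hm]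
      obtain ⟨m, hm, hm0⟩ := h2
      have h3 : a m + a i₀ ≤ ∑ i, a i := by
        rw [← Finset.add_sum_erase univ a (Finset.mem_univ i₀), add_comm]
        exact Nat.add_le_add_left (Finset.single_le_sum (f := fun i => a i) (fun i _ => Nat.zero_le _)
          (Finset.mem_erase.mpr ⟨hm, Finset.mem_univ m⟩)) _
      have h4 : 2 ≤ ∑ i, a i := by omega
      exact_mod_cast h4
    · rw [if_neg h1, mul_zero]
  · intro hn
    have h1 : ∑ i, (Finsupp.single i₀ 1 : Fin l.e →₀ ℕ) i = 1 := by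
      rw [Finset.sum_eq_single i₀]
      · rw [Finsupp.single_eq_same]
      · intro m _ hm
        rw [Finsupp.single_eq_of_ne hm]
      · intro h; exact absurd (Finset.mem_univ i₀) h
    have h2 : ¬ (1 ≤ D w) := by
      intro hc
      exact hn (mem_exps (by rw [h1]; exact hc))
    have h3 : w j < ∑ i, (((Finsupp.single i₀ 1 : Fin l.e →₀ ℕ) i : ℕ) : ℝ) := by
      have h4 := le_D w j
      have h5 : ((D w : ℕ) : ℝ) = 0 := by
        have : D w = 0 := by omega
        rw [this, Nat.cast_zero]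
      have h6 : ((∑ i, (Finsupp.single i₀ 1 : Fin l.e →₀ ℕ) i : ℕ) : ℝ) = 1 := by rw [h1, Nat.cast_one]
      rw [Nat.cast_sum] at h6
      rw [h6]
      linarith
    have h7 : c.fz i₀ j (Finsupp.single i₀ 1) = 0 := by
      apply Subtype.ext
      show QS.mk (c.co j (Finsupp.single i₀ 1)) * _ = 0
      rw [c.co_zero h3, map_zero, zero_mul]
    rw [h7, map_zero, zero_mul, Polynomial.coeff_zero]

variable {d N g : ℕ}

/-- THE TYPE given by the line in the direction `i₀`; the velocity of the height is a unit -/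
def lt (i₀ : Fin l.e) (φ : Fin (d + 1) → Fin M) (ψ : Fin N → Fin M) (hφ : ∀ j, w (φ j) < 2)
    (hψ : ∀ j, w (ψ j) < g + 1) (hu : IsUnit (QS.mk (c.co (φ 0) (Finsupp.single i₀ 1)))) :
    LT S d N g (fun j => QS.mk (TR.cor Q (φ j))) (fun j => QS.mk (TR.cor Q (ψ j))) :=
  have hv : IsUnit (((c.pl i₀ (φ 0)).coeff 1 : LR (V l i₀)) : QS S) := by
    rw [c.pl_coeff_one i₀ (hφ 0)]
    exact hu
  have hm : (↑(hv.unit⁻¹) : QS S) * (((c.pl i₀ (φ 0)).coeff 1 : LR (V l i₀)) : QS S) = 1 := hv.val_inv_mul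
  have hd : ∀ j, (c.pl i₀ (φ j)).natDegree ≤ 1 := fun j => c.pl_deg i₀ (φ j) (by
    have := hφ j
    norm_num
    linarith)
  let gi : LR (V l i₀) := ⟨↑(hv.unit⁻¹), lit_inv ((c.pl i₀ (φ 0)).coeff 1).2 hm⟩
  have hg : gi * (c.pl i₀ (φ 0)).coeff 1 = 1 := Subtype.ext hm
  have ht : QS.mk (TR.cor Q (φ 0)) = ((c.pl i₀ (φ 0)).coeff 0 : QS S) +
      ((c.pl i₀ (φ 0)).coeff 1 : QS S) * y l i₀ := by
    rw [← c.pl_eval i₀ (φ 0), Polynomial.eval_eq_sum_range' (lt_of_le_of_lt
      (Polynomial.natDegree_map_le.trans (hd 0)) (by norm_num : 1 < 2)), Finset.sum_range_succ, Finset.sum_range_succ,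
      Finset.sum_range_zero, zero_add, pow_zero, mul_one, pow_one, Polynomial.coeff_map, Polynomial.coeff_map]
    rfl
  have he : y l i₀ = (gi : QS S) * (QS.mk (TR.cor Q (φ 0)) - ((c.pl i₀ (φ 0)).coeff 0 : QS S)) := by
    rw [ht, add_sub_cancel_left, ← mul_assoc]
    show y l i₀ = (↑(hv.unit⁻¹) : QS S) * (((c.pl i₀ (φ 0)).coeff 1 : LR (V l i₀)) : QS S) * y l i₀
    rw [hm, one_mul]
  { β := _
    V := V l i₀
    a := fun j => cfl (c.pl i₀ (φ j)) ((c.pl i₀ (φ 0)).coeff 0) gi 0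
    u := fun j => cfl (c.pl i₀ (φ j)) ((c.pl i₀ (φ 0)).coeff 0) gi 1
    cf := fun j n => cfl (c.pl i₀ (ψ j)) ((c.pl i₀ (φ 0)).coeff 0) gi n
    la := fun j => cfl_lit _ _ _ _
    lu := fun j => cfl_lit _ _ _ _
    lc := fun j n => cfl_lit _ _ _ _
    a0 := by
      unfold cfl
      rw [rpm_self (hd 0) hg, Polynomial.coeff_X_zero]
      rfl
    u0 := by
      unfold cfl
      rw [rpm_self (hd 0) hg, Polynomial.coeff_X_one]
      rfl
    line := by
      intro j
      have h1 := pe_cfl (c.pl i₀ (φ j)) ((c.pl i₀ (φ 0)).coeff 0) gi (hd j) he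
      rw [c.pl_eval i₀ (φ j)] at h1
      rw [← h1]
      unfold pe
      rw [Fin.sum_univ_two, Fin.val_zero, Fin.val_one, pow_zero, mul_one, pow_one]
      beta_reduce
      rw [Fin.val_zero, Fin.val_one, mul_comm (QS.mk (TR.cor Q (φ 0)))]
    curve := by
      intro j
      have h1 := pe_cfl (c.pl i₀ (ψ j)) ((c.pl i₀ (φ 0)).coeff 0) gi (c.pl_deg i₀ (ψ j) (hψ j)) he
      rw [c.pl_eval i₀ (ψ j)] at h1
      exact h1.symm
    rv := (RV_y l i₀).chg ((c.pl i₀ (φ 0)).coeff 0).2 gi.2 he }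

end PCh

end

end Pool.Agent.Helper50.BLD
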