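import Pool.Agent.Helper50.BLD.Pcf
import Pool.Agent.Helper63.FRT.Cof

/-! LINES OF A LEAF: a leaf with a polynomial chart; all coordinates of the parameter except one are frozen to the
resolution; the coordinates of the point are polynomials in the remaining one, the coefficients are literal functions of
the leaf and of the frozen coordinates. -/

set_option autoImplicit false

namespace Pool.Agent.Helper50.BLD

open Finset Filter Topology Pool.Agent.Helper69.RK Pool.Agent.Helper31.EC Pool.Agent.Helper31.EC.Sp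
open Pool.Agent.Helper31.EC.QS Pool.Agent.Helper40.EL Pool.Agent.Helper84.MT
open Pool.Agent.Helper63.FRT (exps mem_exps coeff_zero_of_deg eval_exps exists_coef_bd rcp rcp_eval rcp_deg)
open Pool.Agent.Helper82.TP (Lit)

noncomputable section

variable {S : Sp} {M : ℕ} {E : ℕ → ℕ} {Q : S.VV M}

/-- POLYNOMIAL CHART of a leaf, the degree of the coordinate `j` is at most `w j` -/
structure PCh (l : Leaf S Q E) (w : Fin M → ℝ) where
  G : ∀ k, (S.F k).Ω → Fin M → MvPolynomial (Fin l.e) ℝ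
  ev : ∀ᶠ k in UF, ∀ ω, (S.F k).μ ω ≠ 0 → ∀ y j, l.F k ω y j = MvPolynomial.eval y (G k ω j)
  deg : ∀ k ω j, ((G k ω j).totalDegree : ℝ) ≤ w j

namespace PCh

variable {l : Leaf S Q E} {w : Fin M → ℝ} (c : PCh l w)

theorem fn : ∀ᶠ k in UF, ∀ ω ω', (S.F k).μ ω ≠ 0 → (S.F k).μ ω' ≠ 0 → (S.F k).Z ω ω' → l.La k ω ω' →
    c.G k ω = c.G k ω' := by
  filter_upwards [c.ev, l.fn] with k h1 h2 ω ω' a b z la
  funext j
  apply MvPolynomial.funext
  intro y
  rw [← h1 ω a y j, ← h1 ω' b y j, h2 ω ω' a b z la]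

/-- degree bound of the chart -/
def D (w : Fin M → ℝ) : ℕ := ∑ j, ⌈w j⌉₊

theorem le_D (w : Fin M → ℝ) (j : Fin M) : w j ≤ D w := by
  have h1 : ⌈w j⌉₊ ≤ D w := Finset.single_le_sum (f := fun j => ⌈w j⌉₊) (fun _ _ => Nat.zero_le _) (Finset.mem_univ j)
  exact (Nat.le_ceil (w j)).trans (by exact_mod_cast h1)

theorem deg_D (k : ℕ) (ω : (S.F k).Ω) (j : Fin M) : (c.G k ω j).totalDegree ≤ D w := by
  have h1 := (c.deg k ω j).trans (le_D w j)
  exact_mod_cast h1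

/-- the coefficients are tame -/
theorem bd : ∃ K : ℕ → ℝ, S.Sub K ∧ ∀ᶠ k in UF, ∀ ω, (S.F k).μ ω ≠ 0 → ∀ j a, |(c.G k ω j).coeff a| ≤ K k := by
  obtain ⟨B, hB1, hB⟩ := exists_coef_bd l.e (D w)
  obtain ⟨K, hK, hb⟩ := l.bd
  obtain ⟨L, hL, hY⟩ := l.Y.bd
  have p1 : S.Sub (fun k => B * (((D w : ℝ) + 1) ^ l.e * (B * K k * (L k + 1) ^ D w))) := by
    have h0 : (0 : ℝ) ≤ ((D w : ℝ) + 1) ^ l.e := by positivity
    exact (S.Sub_const (by linarith)).mul ((S.Sub_const h0).mul (((S.Sub_const (by linarith)).mul hK).mul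
      (Pool.Agent.Helper89.LX.Sub_pow' (hL.add (S.Sub_const zero_le_one)) _)))
  refine ⟨_, p1, ?_⟩
  filter_upwards [c.ev, hb, hY, hK.1, hL.1] with k h1 h2 h3 hK0 hL0 ω hω j
  set P := c.G k ω j with hP
  have dP : P.totalDegree ≤ D w := c.deg_D k ω j
  set R := rcp (l.Y.v k ω) (fun _ => 1) P with hR
  have dR : R.totalDegree ≤ D w := (rcp_deg _ _ _).trans dP
  have bR : ∀ a, |R.coeff a| ≤ B * K k := by
    apply hB R dR (K k)
    intro y hy
    rw [hR, rcp_eval]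
    have e1 := h1 ω hω (fun i => l.Y.v k ω i + 1 * y i) j
    rw [← e1]
    apply h2 ω hω
    intro i
    rw [one_mul, add_sub_cancel_left, abs_of_nonneg (hy i).1]
    exact (hy i).2.le
  apply hB P dP
  intro z hz
  have e2 : MvPolynomial.eval z P = MvPolynomial.eval (fun i => z i - l.Y.v k ω i) R := by
    rw [hR, rcp_eval]
    congr 2
    funext i
    ring
  rw [e2]
  apply eval_le_of_coeff R dR (B * K k) (L k + 1) (mul_nonneg (by linarith) hK0) (by linarith) bR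
  intro i
  have h4 := h3 ω hω i
  have h5 := hz i
  rw [abs_le] at h4 ⊢
  constructor <;> linarith [h4.1, h4.2, h5.1, h5.2]

/-- the coefficients as tame functions -/
def co (j : Fin M) (a : Fin l.e →₀ ℕ) : TR S := ⟨fun k ω => (c.G k ω j).coeff a, by
  obtain ⟨K, hK, h⟩ := c.bd
  exact ⟨K, hK, h.mono fun k hk ω hω => hk ω hω j a⟩⟩

theorem co_zero {j : Fin M} {a : Fin l.e →₀ ℕ} (h : w j < ∑ i, (a i : ℝ)) : c.co j a = 0 := by
  apply Subtype.ext
  funext k ω
  show (c.G k ω j).coeff a = 0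
  apply coeff_zero_of_deg le_rfl
  intro hc
  have h1 : ((∑ i, a i : ℕ) : ℝ) ≤ ((c.G k ω j).totalDegree : ℝ) := by exact_mod_cast hc
  have h2 := c.deg k ω j
  push_cast at h1
  linarith

/-- the parameter -/
def y (l : Leaf S Q E) (m : Fin l.e) : QS S := QS.mk (TR.cor l.Y m)

/-- the point is the value of the chart at the parameter -/
theorem pt_eq (j : Fin M) : QS.mk (TR.cor Q j) = ∑ a ∈ exps l.e (D w), QS.mk (c.co j a) * ∏ m, y l m ^ a m := by
  have e1 : ∑ a ∈ exps l.e (D w), QS.mk (c.co j a) * ∏ m, y l m ^ a m =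
      QS.mk (∑ a ∈ exps l.e (D w), c.co j a * ∏ m, TR.cor l.Y m ^ a m) := by
    rw [map_sum]
    apply Finset.sum_congr rfl
    intro a _
    rw [map_mul, map_prod]
    congr 1
  rw [e1, mk_eq]
  obtain ⟨K, hK, h⟩ := l.pt
  refine ⟨fun _ _ => True, K, Typ_true, hK, ?_⟩
  filter_upwards [h, c.ev] with k hk he ω hω _
  have e2 : TR.ev (∑ a ∈ exps l.e (D w), c.co j a * ∏ m, TR.cor l.Y m ^ a m) k ω = l.F k ω (l.Y.v k ω) j := by
    rw [he ω hω, eval_exps _ (c.deg_D k ω j), ← TR.evh_apply, map_sum]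
    apply Finset.sum_congr rfl
    intro a _
    rw [map_mul, map_prod]
    congr 1
  rw [e2]
  exact hk ω hω j

/-! ### the line -/

/-- the frozen coordinates -/
def yo (l : Leaf S Q E) (i₀ : Fin l.e) : S.VV l.e := TR.vec fun m => if m = i₀ then 0 else TR.cor l.Y m

/-- literal variable of the line: leaf and frozen coordinates -/
def V (l : Leaf S Q E) (i₀ : Fin l.e) : ∀ k, (S.F k).Ω → Quotient (l.La k) × (Fin l.e → ℤ) :=
  fun k ω => (Quotient.mk (l.La k) ω, (yo l i₀).cellv 1 k ω)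

theorem V_eq {l : Leaf S Q E} {i₀ : Fin l.e} {k : ℕ} {ω ω' : (S.F k).Ω} (h : V l i₀ k ω = V l i₀ k ω') :
    l.La k ω ω' ∧ ∀ m, m ≠ i₀ → l.Y.cellv 1 k ω m = l.Y.cellv 1 k ω' m := by
  refine ⟨Quotient.exact (Prod.mk.inj h).1, fun m hm => ?_⟩
  have h1 := congrFun (Prod.mk.inj h).2 m
  have h2 : ∀ ω, (yo l i₀).cellv 1 k ω m = l.Y.cellv 1 k ω m := by
    intro ω
    show cell _ _ _ = cell _ _ _
    unfold cell
    show ⌊TR.ev (if m = i₀ then 0 else TR.cor l.Y m) k ω / _⌋ = _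
    rw [if_neg hm]
    rfl
  rw [h2, h2] at h1
  exact h1

theorem co_lit (i₀ : Fin l.e) (j : Fin M) (a : Fin l.e →₀ ℕ) : Lit (V l i₀) (QS.mk (c.co j a)) := by
  refine ⟨c.co j a, rfl, ?_⟩
  filter_upwards [c.fn] with k hk ω ω' p q z v
  show (c.G k ω j).coeff a = (c.G k ω' j).coeff a
  rw [hk ω ω' p q z (V_eq v).1]

theorem y_lit (l : Leaf S Q E) {i₀ m : Fin l.e} (hm : m ≠ i₀) : Lit (V l i₀) (y l m) := by
  refine ⟨grd (TR.cor l.Y m), mk_grd _, Eventually.of_forall fun k ω ω' _ _ _ v => ?_⟩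
  have h1 := (V_eq v).2 m hm
  show S.dl 1 k * (⌊TR.ev (TR.cor l.Y m) k ω / S.dl 1 k⌋ : ℤ) = S.dl 1 k * (⌊TR.ev (TR.cor l.Y m) k ω' / S.dl 1 k⌋ : ℤ)
  have h2 : ⌊TR.ev (TR.cor l.Y m) k ω / S.dl 1 k⌋ = ⌊TR.ev (TR.cor l.Y m) k ω' / S.dl 1 k⌋ := h1
  rw [h2]

/-- coefficient of a monomial with the frozen coordinates inserted -/
def fz (i₀ : Fin l.e) (j : Fin M) (a : Fin l.e →₀ ℕ) : LR (V l i₀) :=
  ⟨QS.mk (c.co j a) * ∏ m ∈ univ.erase i₀, y l m ^ a m, (LR (V l i₀)).mul_mem (c.co_lit i₀ j a)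
    ((LR (V l i₀)).prod_mem fun _ hm => (LR (V l i₀)).pow_mem (y_lit l (Finset.ne_of_mem_erase hm)) _)⟩

/-- the coordinate `j` along the line, as a polynomial in the parameter `y i₀` -/
def pl (i₀ : Fin l.e) (j : Fin M) : Polynomial (LR (V l i₀)) :=
  ∑ a ∈ exps l.e (D w), Polynomial.C (c.fz i₀ j a) * Polynomial.X ^ a i₀

theorem pl_eval (i₀ : Fin l.e) (j : Fin M) : ((c.pl i₀ j).map (LR (V l i₀)).subtype).eval (y l i₀) = QS.mk (TR.cor Q j) := by
  rw [c.pt_eq j]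
  unfold pl
  rw [Polynomial.map_sum, Polynomial.eval_finsetSum]
  apply Finset.sum_congr rfl
  intro a _
  rw [Polynomial.map_mul, Polynomial.map_pow, Polynomial.map_C, Polynomial.map_X, Polynomial.eval_mul,
    Polynomial.eval_C, Polynomial.eval_pow, Polynomial.eval_X]
  show QS.mk (c.co j a) * (∏ m ∈ univ.erase i₀, y l m ^ a m) * y l i₀ ^ a i₀ = _
  rw [mul_assoc, Finset.prod_erase_mul _ _ (Finset.mem_univ i₀)]

theorem pl_deg (i₀ : Fin l.e) (j : Fin M) {n : ℕ} (hn : w j < n + 1) : (c.pl i₀ j).natDegree ≤ n := by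
  unfold pl
  apply Polynomial.natDegree_sum_le_of_forall_le
  intro a _
  by_cases ha : a i₀ ≤ n
  · refine (Polynomial.natDegree_C_mul_le _ _).trans ?_
    refine (Polynomial.natDegree_X_pow_le _).trans ha
  · have h1 : c.fz i₀ j a = 0 := by
      apply Subtype.ext
      show QS.mk (c.co j a) * _ = 0
      rw [c.co_zero, map_zero, zero_mul]
      have h2 : ((n + 1 : ℕ) : ℝ) ≤ a i₀ := by
        exact_mod_cast (not_le.mp ha)
      have h3 : ((a i₀ : ℕ) : ℝ) ≤ ∑ i, (a i : ℝ) :=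
        Finset.single_le_sum (f := fun i => (a i : ℝ)) (fun i _ => Nat.cast_nonneg _) (Finset.mem_univ i₀)
      push_cast at h2
      linarith
    rw [h1, map_zero, zero_mul, Polynomial.natDegree_zero]
    exact Nat.zero_le _

end PCh

end

end Pool.Agent.Helper50.BLD
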