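import Pool.Agent.Helper50.BLD.Lfl

/-! LINES OF A LEAF, informations: the parameter of a line is real over the leaf and the frozen coordinates; the windows
of the leaf with some coordinates frozen; what is known to several of them is known to the smallest one. -/

set_option autoImplicit false

namespace Pool.Agent.Helper50.BLD

open Finset Filter Topology Pool.Agent.Helper69.RK Pool.Agent.Helper31.EC Pool.Agent.Helper31.EC.Sp
open Pool.Agent.Helper31.EC.QS Pool.Agent.Helper40.EL Pool.Agent.Helper84.MT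
open Pool.Agent.Helper82.TP (Lit)

noncomputable section

/-- leak at a common part of two conditions -/
theorem leak_inter {L : Type*} [PM L] {v t a b c : L} (hca : c ≤ a) (hcb : c ≤ b) (ha : a ≤ t) :
    I v t c ≤ I v t a + I v t b + I a b c := by
  have e1 : I v t c = I v a c + I v t (a ⊔ c) := by
    have h1 : I v t c = I v (a ⊔ t) c := by rw [sup_of_le_right ha]
    rw [h1, I_chain_right]
  have e2 : a ⊔ c = a := sup_of_le_left hca
  rw [e2] at e1
  have h2 : I v a c ≤ I (b ⊔ v) a c := I_mono_left (le_sup_right.trans le_sup_left)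
  rw [I_chain] at h2
  have e3 : b ⊔ c = b := sup_of_le_left hcb
  rw [e3] at h2
  have h3 : I v a b ≤ I v t b := I_mono_right (ha.trans le_sup_left)
  rw [I_comm b a c] at h2
  linarith

theorem h_inter {L : Type*} [PM L] {x a b c : L} (hca : c ≤ a) (hcb : c ≤ b) : h x c ≤ h x a + h x b + I a b c := by
  have h1 := leak_inter (v := x) (t := a ⊔ x) hca hcb le_sup_left
  have e : ∀ z : L, I x (a ⊔ x) z = h x z := by
    intro z
    rw [I_eq, h_zero ((le_sup_right : x ≤ a ⊔ x).trans le_sup_left), sub_zero]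
  rw [e, e, e] at h1
  exact h1

namespace PCh

variable {S : Sp} {M : ℕ} {E : ℕ → ℕ} {Q : S.VV M} (l : Leaf S Q E)

/-- the parameter with the coordinates outside `A` erased -/
def ym (A : Finset (Fin l.e)) : S.VV l.e := TR.vec fun m => if m ∈ A then TR.cor l.Y m else 0

theorem ym_pos (A : Finset (Fin l.e)) {m : Fin l.e} (hm : m ∈ A) (k : ℕ) (ω : (S.F k).Ω) (r : ℝ) :
    (ym l A).cellv r k ω m = l.Y.cellv r k ω m := by
  show cell _ _ _ = cell _ _ _
  unfold cell
  show ⌊TR.ev (if m ∈ A then TR.cor l.Y m else 0) k ω / _⌋ = _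
  rw [if_pos hm]
  rfl

theorem ym_neg (A : Finset (Fin l.e)) {m : Fin l.e} (hm : m ∉ A) (k : ℕ) (ω : (S.F k).Ω) (r : ℝ) :
    (ym l A).cellv r k ω m = 0 := by
  show cell _ _ _ = _
  unfold cell
  show ⌊TR.ev (if m ∈ A then TR.cor l.Y m else 0) k ω / _⌋ = _
  rw [if_neg hm, TR.ev_zero, zero_div, Int.floor_zero]

/-- cells of level `r` of the coordinates in `A` -/
def cm (A : Finset (Fin l.e)) (r : ℝ) : Part S := fun k => fc (Setoid.ker ((ym l A).cellv r k))

theorem cm_mono {A B : Finset (Fin l.e)} (h : A ⊆ B) (r : ℝ) (k : ℕ) : cm l A r k ≤ cm l B r k := by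
  apply fc_mono
  intro ω ω' e
  show (ym l A).cellv r k ω = (ym l A).cellv r k ω'
  have e' : (ym l B).cellv r k ω = (ym l B).cellv r k ω' := e
  funext m
  by_cases hm : m ∈ A
  · rw [ym_pos l A hm, ym_pos l A hm, ← ym_pos l B (h hm), ← ym_pos l B (h hm), e']
  · rw [ym_neg l A hm, ym_neg l A hm]

theorem cm_union (A B : Finset (Fin l.e)) (r : ℝ) (k : ℕ) : cm l (A ∪ B) r k = cm l A r k ⊔ cm l B r k := by
  apply le_antisymm
  · unfold cm
    rw [← fc_inf]
    apply fc_mono
    intro ω ω' e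
    have e1 : (ym l A).cellv r k ω = (ym l A).cellv r k ω' := e.1
    have e2 : (ym l B).cellv r k ω = (ym l B).cellv r k ω' := e.2
    show (ym l (A ∪ B)).cellv r k ω = (ym l (A ∪ B)).cellv r k ω'
    funext m
    by_cases hm : m ∈ A ∪ B
    · rw [ym_pos l _ hm, ym_pos l _ hm]
      rcases Finset.mem_union.mp hm with ha | hb
      · rw [← ym_pos l A ha, ← ym_pos l A ha, e1]
      · rw [← ym_pos l B hb, ← ym_pos l B hb, e2]
    · rw [ym_neg l _ hm, ym_neg l _ hm]
  · exact sup_le (cm_mono l Finset.subset_union_left r k) (cm_mono l Finset.subset_union_right r k)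

theorem cm_univ (r : ℝ) (k : ℕ) : cm l univ r k = fc (Setoid.ker (l.Y.cellv r k)) := by
  have e : (ym l univ).cellv r k = l.Y.cellv r k := by
    funext ω m
    exact ym_pos l univ (Finset.mem_univ m) k ω r
  unfold cm
  rw [e]

/-- digits of level `r` of the coordinates in `A` -/
def sr (A : Finset (Fin l.e)) (r : ℝ) : S.L := A.sup fun m => dg (y l m) r

theorem ym_dg (A : Finset (Fin l.e)) {r : ℝ} (hr : r ≤ 1) : (ym l A).dg r = sr l A r := by
  classical
  unfold ym sr
  rw [TR.vec_dg_eq]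
  apply le_antisymm
  · apply Finset.sup_le
    intro m _
    by_cases hm : m ∈ A
    · rw [if_pos hm, ← dg_mk _ hr]
      exact Finset.le_sup (f := fun m => dg (y l m) r) hm
    · rw [if_neg hm, ← dg_mk _ hr, map_zero]
      exact ((Kn S r hr ⊥).zero_mem : dg (0 : QS S) r ≤ ⊥).trans _root_.bot_le
  · apply Finset.sup_le
    intro m hm
    have h1 := Finset.le_sup (f := fun m => TR.dg (if m ∈ A then TR.cor l.Y m else 0) r) (Finset.mem_univ m)
    beta_reduce at h1
    rw [if_pos hm, ← dg_mk _ hr] at h1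
    exact h1

theorem cm_rp (A : Finset (Fin l.e)) {r : ℝ} (hr : r ≤ 1) : PLe (cm l A r) (rp (sr l A r)) ∧ PLe (rp (sr l A r)) (cm l A r) := by
  have e : sr l A r = Sp.cl ((ym l A).bdd r).toInf := by
    rw [← ym_dg l A hr]
    exact io_eq _
  rw [e]
  exact ⟨(rp_rpI _).2, (rp_rpI _).1⟩

theorem cm_Bd (A : Finset (Fin l.e)) (r : ℝ) : (cm l A r).Bd := rpI_Bd ((ym l A).bdd r).toInf

/-- THE WINDOW of level `s` with the coordinates in `A` frozen to the resolution -/
def TA (A : Finset (Fin l.e)) (s : ℝ) : Part S := fun k => fc (l.La k) ⊔ (cm l univ s k ⊔ cm l A 1 k)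

theorem TA_mono {A B : Finset (Fin l.e)} (h : A ⊆ B) (s : ℝ) (k : ℕ) : TA l A s k ≤ TA l B s k :=
  sup_le_sup_left (sup_le_sup_left (cm_mono l h 1 k) _) _

theorem TA_empty (s : ℝ) (k : ℕ) : TA l ∅ s k = l.win s k := by
  have e1 : cm l ∅ 1 k = ⊥ := by
    apply le_antisymm _ _root_.bot_le
    have e2 : cm l ∅ 1 k = fc ⊤ := by
      unfold cm
      congr 1
      ext ω ω'
      constructor
      · intro _; trivial
      · intro _
        show (ym l ∅).cellv 1 k ω = (ym l ∅).cellv 1 k ω'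
        funext m
        rw [ym_neg l ∅ (Finset.notMem_empty m), ym_neg l ∅ (Finset.notMem_empty m)]
    rw [e2, fc_top]
  unfold TA
  rw [e1, sup_bot_eq, cm_univ, ← fc_inf]
  rfl

/-- upper bound of new digits -/
theorem h_sr_le (A B : Finset (Fin l.e)) {s : ℝ} (hs : s ≤ 1) :
    h (sr l B 1) (sr l univ s ⊔ sr l A 1) ≤ ((B \ A).card : ℝ) * (1 - s) := by
  classical
  have h1 : sr l B 1 ≤ sr l (B \ A) 1 ⊔ sr l A 1 := by
    unfold sr
    rw [← Finset.sup_union]
    apply Finset.sup_mono
    intro m hm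
    by_cases ha : m ∈ A
    · exact Finset.mem_union_right _ ha
    · exact Finset.mem_union_left _ (Finset.mem_sdiff.mpr ⟨hm, ha⟩)
  have h2 : h (sr l B 1) (sr l univ s ⊔ sr l A 1) ≤ h (sr l (B \ A) 1 ⊔ sr l A 1) (sr l univ s ⊔ sr l A 1) := h_mono h1
  rw [h_sup_right_of_le le_sup_right] at h2
  refine h2.trans ?_
  unfold sr
  refine (h_finsup_le _ _ _).trans ?_
  calc ∑ m ∈ B \ A, h (dg (y l m) 1) _ ≤ ∑ _m ∈ B \ A, (1 - s) := by
        apply Finset.sum_le_sum
        intro m _
        refine (h_anti ?_).trans (h_dg_dg (y l m) hs)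
        exact (Finset.le_sup (f := fun m => dg (y l m) s) (Finset.mem_univ m)).trans le_sup_left
    _ = ((B \ A).card : ℝ) * (1 - s) := by rw [Finset.sum_const, nsmul_eq_mul]

theorem H_sr_le (A : Finset (Fin l.e)) {s : ℝ} (h0 : 0 ≤ s) (hs : s ≤ 1) :
    H (sr l univ s ⊔ sr l A 1) ≤ l.e * s + A.card * (1 - s) := by
  classical
  have h1 : H (sr l univ s) ≤ l.e * s := by
    have h2 := h_finsup_le univ (fun m => dg (y l m) s) ⊥
    rw [h_bot] at h2
    refine h2.trans ?_
    calc ∑ m, h (dg (y l m) s) ⊥ ≤ ∑ _m : Fin l.e, s := Finset.sum_le_sum fun m _ => by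
          rw [h_bot]; exact H_dg_le _ h0
      _ = l.e * s := by rw [Finset.sum_const, nsmul_eq_mul, Finset.card_univ, Fintype.card_fin]
  have h3 := h_sr_le l ∅ A hs
  have e1 : sr l ∅ 1 = ⊥ := Finset.sup_empty
  rw [e1, sup_bot_eq, Finset.sdiff_empty] at h3
  have h4 := h_chain (sr l univ s) (sr l A 1) ⊥
  rw [h_bot, h_bot, sup_bot_eq] at h4
  linarith

theorem TA_rp (A : Finset (Fin l.e)) {s : ℝ} (hs : s ≤ 1) : KP (TA l A s) (sr l univ s ⊔ sr l A 1) := by
  apply KP.sup
  · exact (cm_rp l univ hs).2.trans (PLe_of_le fun k => le_sup_left.trans le_sup_right)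
  · exact (cm_rp l A le_rfl).2.trans (PLe_of_le fun k => le_sup_right.trans le_sup_right)

theorem hr_cm_le (A B : Finset (Fin l.e)) {s : ℝ} (hs : s ≤ 1) : hr (cm l B 1) (TA l A s) ≤ ((B \ A).card : ℝ) * (1 - s) := by
  refine (hr_mono (cm_Bd l B 1) (rp_Bd _) (cm_rp l B le_rfl).1).trans ?_
  refine (hr_anti (rp_Bd _) (TA_rp l A hs)).trans ?_
  rw [hr_rp]
  exact h_sr_le l A B hs

/-- lower bound: the parameter is full -/
theorem le_hr_cm (A B : Finset (Fin l.e)) {s : ℝ} (h0 : 0 ≤ s) (hs : s ≤ 1) :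
    ((B.card : ℝ) - A.card) * (1 - s) ≤ hr (cm l B 1) (TA l A s) := by
  classical
  have b1 : hr (cm l univ 1) (fun k => fc (l.La k)) = l.e := by
    apply ul_eq
    have h1 := l.full
    have e1 : (fun k => h (cm l univ 1 k) (fc (l.La k)) / (S.F k).n) =
        fun k => h (fc (Setoid.ker (l.Y.cellv 1 k))) (fc (l.La k)) / (S.F k).n := by
      funext k
      rw [cm_univ]
    rw [e1]
    exact h1
  have b2 := hr_cm_le l B univ hs
  have b3 : hr (fun k => cm l univ s k ⊔ cm l A 1 k) (fun k => fc (l.La k)) ≤ l.e * s + A.card * (1 - s) := by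
    have c1 : Part.Bd (S := S) (fun k => cm l univ s k ⊔ cm l A 1 k) :=
      rpI_Bd (Sp.Inf.sup ((ym l univ).bdd s).toInf ((ym l A).bdd 1).toInf)
    have c2 : PLe (fun k => cm l univ s k ⊔ cm l A 1 k) (rp (sr l univ s ⊔ sr l A 1)) :=
      PLe.sup_le ((cm_rp l univ hs).1.trans (rp_mono le_sup_left)) ((cm_rp l A le_rfl).1.trans (rp_mono le_sup_right))
    refine (hr_mono c1 (rp_Bd _) c2).trans ?_
    refine (hr_anti (rp_Bd _) (KP.bot _)).trans ?_
    rw [hr_rp, h_bot]
    exact H_sr_le l A h0 hs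
  have b4 : hr (cm l univ 1) (fun k => fc (l.La k)) ≤
      hr (fun k => cm l univ s k ⊔ cm l A 1 k) (fun k => fc (l.La k)) + hr (cm l B 1) (TA l A s) +
        hr (cm l univ 1) (TA l B s) := by
    have c1 : Part.Bd (S := S) (fun k => cm l univ s k ⊔ cm l A 1 k) :=
      rpI_Bd (Sp.Inf.sup ((ym l univ).bdd s).toInf ((ym l A).bdd 1).toInf)
    have t1 := (cm_Bd l univ 1).tendsto (fun k => fc (l.La k))
    have t2 := ((c1.tendsto (fun k => fc (l.La k))).add ((cm_Bd l B 1).tendsto (TA l A s))).add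
      ((cm_Bd l univ 1).tendsto (TA l B s))
    refine le_of_tendsto_of_tendsto t1 t2 (Eventually.of_forall fun k => ?_)
    beta_reduce
    rw [← add_div, ← add_div]
    apply div_le_div_of_nonneg_right _ (S.F k).pos.le
    have d1 := h_triangle (cm l univ 1 k) (cm l univ s k ⊔ cm l A 1 k) (fc (l.La k))
    have d2 := h_triangle (cm l univ 1 k) (cm l B 1 k) (TA l A s k)
    have d3 : (cm l univ s k ⊔ cm l A 1 k) ⊔ fc (l.La k) = TA l A s k := sup_comm _ _
    have d4 : TA l B s k ≤ cm l B 1 k ⊔ TA l A s k := by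
      apply sup_le
      · exact le_sup_left.trans le_sup_right
      · exact sup_le ((le_sup_left.trans le_sup_right).trans le_sup_right) le_sup_left
    have d5 : h (cm l univ 1 k) (cm l B 1 k ⊔ TA l A s k) ≤ h (cm l univ 1 k) (TA l B s k) := h_anti d4
    rw [d3] at d1
    linarith
  have e1 : (((univ : Finset (Fin l.e)) \ B).card : ℝ) = l.e - B.card := by
    rw [← Finset.compl_eq_univ_sdiff, Finset.card_compl, Fintype.card_fin, Nat.cast_sub]
    have := Finset.card_le_univ B
    rwa [Fintype.card_fin] at this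
  rw [e1] at b2
  rw [b1] at b4
  nlinarith

/-- the windows with frozen coordinates are independent over the common window -/
theorem I_TA (A B : Finset (Fin l.e)) {s : ℝ} (h0 : 0 ≤ s) (hs : s ≤ 1) :
    Nul S (fun k => I (TA l A s k) (TA l B s k) (TA l (A ∩ B) s k)) := by
  have t1 := ((cm_Bd l A 1).tendsto (TA l (A ∩ B) s)).sub ((cm_Bd l (A ∪ B) 1).tendsto (TA l B s))
  have c1 := hr_cm_le l (A ∩ B) A hs
  have c2 := le_hr_cm l B (A ∪ B) h0 hs
  have e1 : ((A \ (A ∩ B)).card : ℝ) = ((A ∪ B).card : ℝ) - B.card := by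
    have h1 : A \ (A ∩ B) = (A ∪ B) \ B := by
      ext m
      simp only [Finset.mem_sdiff, Finset.mem_inter, Finset.mem_union]
      tauto
    rw [h1, Finset.card_sdiff_of_subset Finset.subset_union_right, Nat.cast_sub (Finset.card_le_card Finset.subset_union_right)]
  rw [e1] at c1
  have e2 : hr (cm l A 1) (TA l (A ∩ B) s) - hr (cm l (A ∪ B) 1) (TA l B s) ≤ 0 := by linarith
  have t2 : Tendsto (fun k => I (TA l A s k) (TA l B s k) (TA l (A ∩ B) s k) / (S.F k).n) UF
      (𝓝 (hr (cm l A 1) (TA l (A ∩ B) s) - hr (cm l (A ∪ B) 1) (TA l B s))) := by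
    refine t1.congr fun k => ?_
    rw [← sub_div]
    congr 1
    rw [I_eq]
    have d1 : TA l A s k = TA l (A ∩ B) s k ⊔ cm l A 1 k := by
      apply le_antisymm
      · apply sup_le (le_sup_left.trans le_sup_left)
        exact sup_le ((le_sup_left.trans le_sup_right).trans le_sup_left) le_sup_right
      · exact sup_le (TA_mono l Finset.inter_subset_left s k) (le_sup_right.trans le_sup_right)
    have d2 : TA l B s k ⊔ TA l (A ∩ B) s k = TA l B s k := sup_of_le_left (TA_mono l Finset.inter_subset_right s k)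
    have d3 : h (TA l A s k) (TA l (A ∩ B) s k) = h (cm l A 1 k) (TA l (A ∩ B) s k) := by
      rw [d1, sup_comm, h_sup_right_of_le le_rfl]
    have d4 : h (TA l A s k) (TA l B s k) = h (cm l (A ∪ B) 1 k) (TA l B s k) := by
      have d5 : cm l B 1 k ≤ TA l B s k := le_sup_right.trans le_sup_right
      rw [cm_union, h_sup_right_of_le d5, d1, sup_comm (TA l (A ∩ B) s k),
        h_sup_right_of_le (TA_mono l Finset.inter_subset_right s k)]
    rw [d2, d3, d4]
  have e3 : 0 ≤ hr (cm l A 1) (TA l (A ∩ B) s) - hr (cm l (A ∪ B) 1) (TA l B s) :=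
    ge_of_tendsto t2 (Eventually.of_forall fun k => div_nonneg (I_nonneg _ _ _) (S.F k).pos.le)
  rw [le_antisymm e2 e3] at t2
  exact t2

/-- what is known to two windows with frozen coordinates is known to the common one -/
theorem PLe_inter {A B : Finset (Fin l.e)} {s : ℝ} (h0 : 0 ≤ s) (hs : s ≤ 1) {X : Part S}
    (hA : PLe X (TA l A s)) (hB : PLe X (TA l B s)) : PLe X (TA l (A ∩ B) s) := by
  refine ((hA.add hB).add (I_TA l A B h0 hs)).of_le (Eventually.of_forall fun _ => h_nonneg _ _)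
    (Eventually.of_forall fun k => ?_)
  exact h_inter (TA_mono l Finset.inter_subset_left s k) (TA_mono l Finset.inter_subset_right s k)

/-- a label without leak at two windows with frozen coordinates has no leak at the common one -/
theorem leak_inter_TA {A B : Finset (Fin l.e)} {s : ℝ} (h0 : 0 ≤ s) (hs : s ≤ 1) {y : Lab S}
    (hA : Nul S fun k => (y k).leak (TA l A s k)) (hB : Nul S fun k => (y k).leak (TA l B s k)) :
    Nul S fun k => (y k).leak (TA l (A ∩ B) s k) := by
  refine ((hA.add hB).add (I_TA l A B h0 hs)).of_le (Eventually.of_forall fun k => (y k).leak_nonneg _)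
    (Eventually.of_forall fun k => ?_)
  have h1 := leak_inter (v := (y k).v) (t := (y k).p.top) (a := (y k).p.map (TA l A s k))
    (b := (y k).p.map (TA l B s k)) (c := (y k).p.map (TA l (A ∩ B) s k))
    ((y k).p.map_mono (TA_mono l Finset.inter_subset_left s k))
    ((y k).p.map_mono (TA_mono l Finset.inter_subset_right s k)) ((y k).p.map_le_top _)
  rw [(y k).p.I_map] at h1
  exact h1

/-! ### the line in the direction `i₀` -/

theorem pv_eq (i₀ : Fin l.e) (k : ℕ) : pv (V l i₀) k = fc (l.La k) ⊔ cm l (univ.erase i₀) 1 k := by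
  classical
  unfold pv cm
  rw [← fc_inf]
  have e1 : ∀ ω : (S.F k).Ω, (yo l i₀).cellv 1 k ω = (ym l (univ.erase i₀)).cellv 1 k ω := by
    intro ω
    funext m
    show cell _ _ _ = cell _ _ _
    unfold cell
    show ⌊TR.ev (if m = i₀ then 0 else TR.cor l.Y m) k ω / _⌋ = ⌊TR.ev (if m ∈ univ.erase i₀ then TR.cor l.Y m else 0) k ω / _⌋
    by_cases hm : m = i₀
    · rw [if_pos hm, if_neg (fun hc => (Finset.ne_of_mem_erase hc) hm)]
    · rw [if_neg hm, if_pos (Finset.mem_erase.mpr ⟨hm, Finset.mem_univ m⟩)]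
  congr 1
  ext ω ω'
  constructor
  · intro h
    have h1 : V l i₀ k ω = V l i₀ k ω' := h
    refine ⟨(V_eq h1).1, ?_⟩
    show (ym l (univ.erase i₀)).cellv 1 k ω = (ym l (univ.erase i₀)).cellv 1 k ω'
    rw [← e1, ← e1]
    exact (Prod.mk.inj h1).2
  · intro h
    have h2 : (ym l (univ.erase i₀)).cellv 1 k ω = (ym l (univ.erase i₀)).cellv 1 k ω' := h.2
    show V l i₀ k ω = V l i₀ k ω'
    unfold V
    rw [Prod.mk.injEq]
    exact ⟨Quotient.sound h.1, by rw [e1, e1, h2]⟩

/-- the window of the line is the window with all other coordinates frozen -/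
theorem lw_le_TA (i₀ : Fin l.e) {s : ℝ} (hs : s ≤ 1) : PLe (lw (V l i₀) (y l i₀) s) (TA l (univ.erase i₀) s) := by
  apply lw_le
  · apply PLe_of_le
    intro k
    rw [pv_eq]
    exact sup_le le_sup_left (le_sup_right.trans le_sup_right)
  · refine KP.mono (TA_rp l (univ.erase i₀) hs) ?_
    exact (Finset.le_sup (f := fun m => dg (y l m) s) (Finset.mem_univ i₀)).trans le_sup_left

theorem TA_le_lw (i₀ : Fin l.e) {s : ℝ} (hs : s ≤ 1) : PLe (TA l (univ.erase i₀) s) (lw (V l i₀) (y l i₀) s) := by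
  have h1 : PLe (cm l univ s) (lw (V l i₀) (y l i₀) s) := by
    refine (cm_rp l univ hs).1.trans ?_
    apply KP.finsup
    intro m _
    by_cases hm : m = i₀
    · rw [hm]; exact dg_lw _ _ _
    · exact (lit_kp (y_lit l hm) hs).trans (pv_lw _ _ _)
  have h2 : PLe (fun k => fc (l.La k) ⊔ cm l (univ.erase i₀) 1 k) (lw (V l i₀) (y l i₀) s) := by
    have h3 := pv_lw (V l i₀) (y l i₀) s
    have h4 : pv (V l i₀) = fun k => fc (l.La k) ⊔ cm l (univ.erase i₀) 1 k := funext fun k => pv_eq l i₀ k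
    rwa [h4] at h3
  refine PLe.trans (PLe_of_le fun k => ?_) (PLe.sup_le h1 h2)
  exact sup_le (le_sup_left.trans le_sup_right) (sup_le le_sup_left (le_sup_right.trans le_sup_right))

/-- the parameter of the line is real over the line -/
theorem RV_y (i₀ : Fin l.e) : RV (V l i₀) (y l i₀) := by
  classical
  unfold RV
  have h1 := le_hr_cm l (univ.erase i₀) univ le_rfl zero_le_one
  have e1 : (((univ : Finset (Fin l.e)).card : ℝ) - ((univ : Finset (Fin l.e)).erase i₀).card) * (1 - 0) = 1 := by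
    have h2 := Finset.card_erase_add_one (Finset.mem_univ i₀)
    have h3 : (((univ : Finset (Fin l.e)).erase i₀).card : ℝ) + 1 = (univ : Finset (Fin l.e)).card := by exact_mod_cast h2
    rw [← h3]
    ring
  rw [e1] at h1
  refine h1.trans ?_
  have h2 : PLe (pv (V l i₀)) (TA l (univ.erase i₀) 0) := by
    apply PLe_of_le
    intro k
    rw [pv_eq]
    exact sup_le le_sup_left (le_sup_right.trans le_sup_right)
  refine (hr_anti (cm_Bd l univ 1) h2).trans ?_
  -- all cells of level one are known to the line and to the parameter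
  have h3 : PLe (cm l univ 1) (fun k => rp (dg (y l i₀) 1) k ⊔ pv (V l i₀) k) := by
    have h4 := (TA_le_lw l i₀ le_rfl)
    refine PLe.trans (PLe_of_le fun k => ?_) (h4.trans (PLe_of_le fun k => ?_))
    · exact le_sup_left.trans le_sup_right
    · exact (sup_comm _ _).le
  refine hr_le (cm_Bd l univ 1) (rp_Bd _) h3 (Eventually.of_forall fun k => ?_)
  have h5 := h_triangle (cm l univ 1 k) (rp (dg (y l i₀) 1) k) (pv (V l i₀) k)
  linarith

end PCh

end

end Pool.Agent.Helper50.BLD
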