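import Pool.Agent.Helper50.BLD.Lfw
import Pool.Agent.Helper13.AM.Cor

/-! TYPES OF A CORNER FROM LINES OF LEAVES: the data of one type, the axioms `Ln` of a corner with such types. -/

set_option autoImplicit false

namespace Pool.Agent.Helper50.BLD

open Finset Filter Topology Pool.Agent.Helper69.RK Pool.Agent.Helper31.EC Pool.Agent.Helper31.EC.Sp
open Pool.Agent.Helper31.EC.QS Pool.Agent.Helper40.EL Pool.Agent.Helper84.MT
open Pool.Agent.Helper82.TP (Lit)
open Pool.Agent.Helper13.AM (CD)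

noncomputable section

/-- DATA OF ONE TYPE of a corner: `q = a + t u`, `R = Σ cf t ^ k`, all coefficients are literal functions of the variable
`V`, the height is real over `V` -/
structure LT (S : Sp) (d N g : ℕ) (q : Fin (d + 1) → QS S) (R : Fin N → QS S) where
  β : ℕ → Type
  V : ∀ k, (S.F k).Ω → β k
  a : Fin (d + 1) → QS S
  u : Fin (d + 1) → QS S
  cf : Fin N → Fin (g + 1) → QS S
  la : ∀ j, Lit V (a j)
  lu : ∀ j, Lit V (u j)
  lc : ∀ j n, Lit V (cf j n)
  a0 : a 0 = 0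
  u0 : u 0 = 1
  line : ∀ j, q j = a j + q 0 * u j
  curve : ∀ j, R j = pe (cf j) (q 0)
  rv : RV V (q 0)

variable {S : Sp} {d N g : ℕ} {q : Fin (d + 1) → QS S} {R : Fin N → QS S}

namespace LT

variable (T : LT S d N g q R)

/-- foot and direction as one family -/
def au : Fin ((d + 1) + (d + 1)) → QS S := Fin.append T.a T.u

theorem vd_au (r : ℝ) : vd T.au r = vd T.a r ⊔ vd T.u r := by
  apply le_antisymm
  · rw [vd_le]
    intro i
    unfold au
    induction i using Fin.addCases with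
    | left i => rw [Fin.append_left]; exact (dg_le_vd T.a r i).trans le_sup_left
    | right i => rw [Fin.append_right]; exact (dg_le_vd T.u r i).trans le_sup_right
  · apply sup_le
    · rw [vd_le]
      intro i
      have h1 := dg_le_vd T.au r (Fin.castAdd (d + 1) i)
      unfold au at h1
      rwa [Fin.append_left] at h1
    · rw [vd_le]
      intro i
      have h1 := dg_le_vd T.au r (Fin.natAdd (d + 1) i)
      unfold au at h1
      rwa [Fin.append_right] at h1

/-- literal variable of the base line -/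
def bV : ∀ k, (S.F k).Ω → (Fin ((d + 1) + (d + 1)) → ℤ) := lv T.au

theorem bV_bdd : Bdd (α := fun _ => Fin ((d + 1) + (d + 1)) → ℤ) T.bV := lv_bdd _

theorem bV_io : io (α := fun _ => Fin ((d + 1) + (d + 1)) → ℤ) T.bV = vd T.a 1 ⊔ vd T.u 1 := by
  unfold bV
  rw [lv_io, vd_au]

theorem bV_lit (j : Fin (d + 1)) : Lit (β := fun _ => Fin ((d + 1) + (d + 1)) → ℤ) T.bV (T.a j) ∧
    Lit (β := fun _ => Fin ((d + 1) + (d + 1)) → ℤ) T.bV (T.u j) := by
  constructor
  · have h1 := lv_lit T.au (Fin.castAdd (d + 1) j)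
    unfold au at h1
    rwa [Fin.append_left] at h1
  · have h1 := lv_lit T.au (Fin.natAdd (d + 1) j)
    unfold au at h1
    rwa [Fin.append_right] at h1

/-- the information of the curve -/
def xi : S.L := (vd T.a 1 ⊔ vd T.u 1) ⊔ vd (fun x : Fin N × Fin (g + 1) => T.cf x.1 x.2) 1

theorem xi_kp : KP (pv T.V) T.xi :=
  ((KP.vd fun j => lit_kp (T.la j) le_rfl).sup (KP.vd fun j => lit_kp (T.lu j) le_rfl)).sup
    (KP.vd fun x => lit_kp (T.lc x.1 x.2) le_rfl)

theorem time : h (dg (q 0) 1) T.xi = 1 := T.rv.time T.xi_kp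

/-- what is known to the curve and to the digits of level `s` of the height is known to the window of the line -/
theorem win_kp {s : ℝ} {X : S.L} (hX : X ≤ T.xi ⊔ dg (q 0) s) : KP (lw T.V (q 0) s) X :=
  ((T.xi_kp.trans (pv_lw _ _ _)).sup (dg_lw _ _ _)).mono hX

theorem P_le : vd q 1 ≤ T.xi ⊔ dg (q 0) 1 := by
  rw [vd_le]
  intro j
  rw [T.line j]
  have h1 : dg (T.a j) 1 ≤ T.xi ⊔ dg (q 0) 1 := (((dg_le_vd T.a 1 j).trans le_sup_left).trans le_sup_left).trans le_sup_left
  have h2 : dg (T.u j) 1 ≤ T.xi ⊔ dg (q 0) 1 := (((dg_le_vd T.u 1 j).trans le_sup_right).trans le_sup_left).trans le_sup_left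
  have h3 : q 0 ∈ Kn S 1 le_rfl (T.xi ⊔ dg (q 0) 1) := mem_Kn.mpr le_sup_right
  exact (Kn S 1 le_rfl (T.xi ⊔ dg (q 0) 1)).add_mem h1 ((Kn S 1 le_rfl (T.xi ⊔ dg (q 0) 1)).mul_mem h3 h2)

/-- what is known to the window of level `s` is independent of the base point, given the curve and the cell of the
height -/
theorem indep {s : ℝ} (h0 : 0 ≤ s) (h1 : s ≤ 1) {X : S.L} (hX : KP (lw T.V (q 0) s) X) :
    I X (vd q 1) (T.xi ⊔ dg (q 0) s) = 0 := T.rv.indep h0 h1 T.xi_kp hX T.P_le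

end LT

/-- a corner with the given types -/
def cdOf {r : ℕ} (T : Fin r → LT S d N g q R) (kb : ℝ → ℕ → Type) (VK : ∀ s k, (S.F k).Ω → kb s k) (m : ℝ → ℕ)
    (G : ∀ s, Fin (m s) → QS S) (q0 : ℝ → Fin (d + 1) → QS S) (F : ℝ → Fin N → MvPolynomial (Fin (d + 1) ⊕ Fin N) (QS S))
    (γ : ℝ → Fin N → QS S) : CD S d N r where
  q := q
  R := R
  al := fun _ _ => Fin ((d + 1) + (d + 1)) → ℤ
  bV := fun i => (T i).bV
  a := fun i => (T i).a
  u := fun i => (T i).u
  g := g
  cf := fun i => (T i).cf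
  kb := kb
  VK := VK
  m := m
  G := G
  q0 := q0
  F := F
  γ := γ

section

variable {r : ℕ} (T : Fin r → LT S d N g q R) (kb : ℝ → ℕ → Type) (VK : ∀ s k, (S.F k).Ω → kb s k) (m : ℝ → ℕ)
  (G : ∀ s, Fin (m s) → QS S) (q0 : ℝ → Fin (d + 1) → QS S) (F : ℝ → Fin N → MvPolynomial (Fin (d + 1) ⊕ Fin N) (QS S))
  (γ : ℝ → Fin N → QS S)

theorem cdOf_b (i : Fin r) : (cdOf T kb VK m G q0 F γ).b i = vd (T i).a 1 ⊔ vd (T i).u 1 := (T i).bV_io

theorem cdOf_xi (i : Fin r) : (cdOf T kb VK m G q0 F γ).xi i = (T i).xi := by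
  unfold CD.xi LT.xi
  rw [cdOf_b]
  rfl

/-- THE AXIOMS `Ln` of a corner with types from lines -/
theorem cdOf_ln (real : Rl q ⊥) (r1 : I (univ.sup fun i => vd (T i).u 1) (vd q 1 ⊔ vd R 1) ⊥ = 0) :
    (cdOf T kb VK m G q0 F γ).Ln where
  real := real
  bdd := fun i => (T i).bV_bdd
  lit := fun i j => (T i).bV_lit j
  gen := fun i => (T i).bV_io
  a0 := fun i => (T i).a0
  u0 := fun i => (T i).u0
  line := fun i => (T i).line
  curve := fun i => (T i).curve
  time := fun i => by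
    rw [cdOf_xi]
    exact (T i).time
  r1 := r1

end

end

end Pool.Agent.Helper50.BLD
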