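import Pool.Agent.Helper50.BLD.Lv
import Pool.Agent.Helper84.MT.Leaf0

/-! Exact entropy calculus: informations known to an (unbounded) PARTITION, rings of LITERAL functions of an unbounded
variable, a variable which is REAL over an unbounded variable, reparametrisation of curves with literal coefficients. -/

set_option autoImplicit false

namespace Pool.Agent.Helper50.BLD

open Finset Filter Topology Pool.Agent.Helper69.RK Pool.Agent.Helper31.EC Pool.Agent.Helper31.EC.Sp
open Pool.Agent.Helper31.EC.QS Pool.Agent.Helper40.EL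
open Pool.Agent.Helper82.TP (Lit)

noncomputable section

variable {S : Sp}

theorem ple_ev {A B : Part S} (h : ∀ᶠ k in UF, A k ≤ B k) : PLe A B := by
  refine (Nul_zero S).of_le (Eventually.of_forall fun _ => h_nonneg _ _) ?_
  filter_upwards [h] with k hk
  exact (h_zero hk).le

/-! ### informations known to a partition -/

/-- `x` is known to the part `B` -/
def KP (B : Part S) (x : S.L) : Prop := PLe (rp x) B

namespace KP

variable {B : Part S} {x y : S.L}

theorem mono (h : KP B y) (hxy : x ≤ y) : KP B x := (rp_mono hxy).trans h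

theorem trans {C : Part S} (h : KP B x) (hBC : PLe B C) : KP C x := PLe.trans h hBC

theorem sup (hx : KP B x) (hy : KP B y) : KP B (x ⊔ y) := (rp_sup x y).1.trans (PLe.sup_le hx hy)

theorem bot (B : Part S) : KP B ⊥ := by
  have h1 : PLe (rp (Sp.cl (Sp.Inf.bot : S.Inf))) (rpI Sp.Inf.bot) := (rp_rpI _).1
  rw [Sp.cl_bot] at h1
  exact h1.trans (PLe_of_le fun k => _root_.bot_le)

theorem finsup {ι : Type*} (s : Finset ι) (f : ι → S.L) (h : ∀ i ∈ s, KP B (f i)) : KP B (s.sup f) := by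
  classical
  induction s using Finset.induction_on with
  | empty => rw [Finset.sup_empty]; exact KP.bot B
  | insert a s ha ih =>
    rw [Finset.sup_insert]
    exact (h a (Finset.mem_insert_self a s)).sup (ih fun i hi => h i (Finset.mem_insert_of_mem hi))

theorem vd {ι : Type} [Fintype ι] {f : ι → QS S} {r : ℝ} (h : ∀ i, KP B (dg (f i) r)) : KP B (QS.vd f r) :=
  finsup _ _ fun i _ => h i

theorem self (x : S.L) : KP (rp x) x := PLe.refl _

end KP

/-- the ring of functions whose digits of level `r` are known to the part `B` -/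
def KB (B : Part S) (r : ℝ) (hr : r ≤ 1) : Subring (QS S) where
  carrier := {f | KP B (dg f r)}
  mul_mem' := fun {f g} hf hg => (hf.sup hg).mono
    ((Kn S r hr (dg f r ⊔ dg g r)).mul_mem (mem_Kn.mpr le_sup_left) (mem_Kn.mpr le_sup_right))
  one_mem' := (KP.bot B).mono ((Kn S r hr ⊥).one_mem)
  add_mem' := fun {f g} hf hg => (hf.sup hg).mono
    ((Kn S r hr (dg f r ⊔ dg g r)).add_mem (mem_Kn.mpr le_sup_left) (mem_Kn.mpr le_sup_right))
  zero_mem' := (KP.bot B).mono ((Kn S r hr ⊥).zero_mem)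
  neg_mem' := fun {f} hf => KP.mono hf ((Kn S r hr (dg f r)).neg_mem (mem_Kn.mpr le_rfl))

/-! ### literal functions -/

variable {β : ℕ → Type}

/-- the ring of literal functions of `V` -/
def LR (V : ∀ k, (S.F k).Ω → β k) : Subring (QS S) where
  carrier := {f | Lit V f}
  mul_mem' := fun hf hg => Lit.mul hf hg
  one_mem' := ⟨1, map_one _, Eventually.of_forall fun _ _ _ _ _ _ _ => rfl⟩
  add_mem' := fun hf hg => Lit.add hf hg
  zero_mem' := ⟨0, map_zero _, Eventually.of_forall fun _ _ _ _ _ _ _ => rfl⟩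
  neg_mem' := fun hf => Lit.neg hf

theorem mem_LR {V : ∀ k, (S.F k).Ω → β k} {f : QS S} : f ∈ LR V ↔ Lit V f := Iff.rfl

/-- inverses of literal functions are literal functions -/
theorem lit_inv {V : ∀ k, (S.F k).Ω → β k} {f g : QS S} (hf : Lit V f) (h : g * f = 1) : Lit V g := by
  obtain ⟨f, rfl, h1⟩ := hf
  have hu : IsUnit (mk f) := IsUnit.of_mul_eq_one g (by rw [mul_comm]; exact h)
  obtain ⟨K, hK, hT⟩ := isUnit_mk.mp hu
  have e1 : mk (TR.rinv f K hK) * mk f = 1 := by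
    rw [← map_mul, ← map_one QS.mk]
    exact mk_eq.mpr ((TR.rinv_mul f K hK hT).ag 1)
  have e2 : g = mk (TR.rinv f K hK) := by
    calc g = g * (mk (TR.rinv f K hK) * mk f) := by rw [e1, mul_one]
      _ = mk (TR.rinv f K hK) * (g * mk f) := by ring
      _ = mk (TR.rinv f K hK) := by rw [h, mul_one]
  rw [e2]
  refine ⟨TR.rinv f K hK, rfl, ?_⟩
  filter_upwards [h1] with k a ω ω' c d e v
  show (if 1 ≤ K k * |TR.ev f k ω| then (TR.ev f k ω)⁻¹ else 0) = (if 1 ≤ K k * |TR.ev f k ω'| then (TR.ev f k ω')⁻¹ else 0)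
  rw [a ω ω' c d e v]

/-- the part of a variable -/
def pv (V : ∀ k, (S.F k).Ω → β k) : Part S := fun k => fc (Setoid.ker (V k))

theorem lit_kp {V : ∀ k, (S.F k).Ω → β k} {f : QS S} (hf : Lit V f) {r : ℝ} (hr : r ≤ 1) : KP (pv V) (dg f r) := by
  obtain ⟨f, rfl, h1⟩ := hf
  have e1 : dg (mk f) r = Sp.cl ((TR.vec (fun _ : Fin 1 => f)).bdd r).toInf := by
    rw [dg_mk _ hr]
    exact io_eq _
  unfold KP
  rw [e1]
  refine (rp_rpI _).1.trans (ple_ev ?_)
  filter_upwards [h1] with k hk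
  apply fc_le
  intro ω ω' a b c d
  show cell _ _ = cell _ _
  unfold cell
  funext i
  show ⌊TR.ev f k ω / _⌋ = ⌊TR.ev f k ω' / _⌋
  rw [hk ω ω' a b c d]

theorem lit_kb {V : ∀ k, (S.F k).Ω → β k} {f : QS S} (hf : Lit V f) {r : ℝ} (hr : r ≤ 1) : f ∈ KB (pv V) r hr :=
  lit_kp hf hr

/-- a bounded variable which is a function of `V` is known to `V` -/
theorem io_kp {γ : ℕ → Type} {V : ∀ k, (S.F k).Ω → β k} {W : ∀ k, (S.F k).Ω → γ k} (hW : Bdd W)
    (h : ∀ᶠ k in UF, ∀ ω ω', (S.F k).μ ω ≠ 0 → (S.F k).μ ω' ≠ 0 → (S.F k).Z ω ω' → V k ω = V k ω' → W k ω = W k ω') :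
    KP (pv V) (io W) := by
  unfold KP
  rw [io_eq hW]
  refine (rp_rpI _).1.trans (ple_ev ?_)
  filter_upwards [h] with k hk
  apply fc_le
  intro ω ω' a b c d
  exact hk ω ω' a b c d

/-! ### windows of a line -/

/-- the window of level `s` of the parameter `y` over the variable `V` -/
def lw (V : ∀ k, (S.F k).Ω → β k) (y : QS S) (s : ℝ) : Part S := fun k => fc (Setoid.ker (V k)) ⊔ rp (dg y s) k

theorem pv_lw (V : ∀ k, (S.F k).Ω → β k) (y : QS S) (s : ℝ) : PLe (pv V) (lw V y s) := PLe_of_le fun _ => le_sup_left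

theorem dg_lw (V : ∀ k, (S.F k).Ω → β k) (y : QS S) (s : ℝ) : KP (lw V y s) (dg y s) := PLe_of_le fun _ => le_sup_right

theorem lw_le {V : ∀ k, (S.F k).Ω → β k} {y : QS S} {s : ℝ} {B : Part S} (h1 : PLe (pv V) B) (h2 : KP B (dg y s)) :
    PLe (lw V y s) B := PLe.sup_le h1 h2

theorem lw_mono (V : ∀ k, (S.F k).Ω → β k) (y : QS S) {s s' : ℝ} (h : s ≤ s') : PLe (lw V y s) (lw V y s') :=
  lw_le (pv_lw V y s') ((dg_lw V y s').mono (dg_mono y h))

/-- `y` is real over `V` -/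
def RV (V : ∀ k, (S.F k).Ω → β k) (y : QS S) : Prop := 1 ≤ hr (rp (dg y 1)) (pv V)

theorem RV.lev {V : ∀ k, (S.F k).Ω → β k} {y : QS S} (h : RV V y) {s : ℝ} (h0 : 0 ≤ s) :
    1 - s ≤ hr (rp (dg y 1)) (lw V y s) := by
  have b1 := rp_Bd (dg y 1)
  have b2 := rp_Bd (dg y s)
  have h1 : hr (rp (dg y 1)) (pv V) ≤ hr (rp (dg y s)) (pv V) + hr (rp (dg y 1)) (lw V y s) := by
    have t1 := b1.tendsto (pv V)
    have t2 := (b2.tendsto (pv V)).add (b1.tendsto (lw V y s))
    refine le_of_tendsto_of_tendsto t1 t2 (Eventually.of_forall fun k => ?_)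
    beta_reduce
    rw [← add_div]
    apply div_le_div_of_nonneg_right _ (S.F k).pos.le
    have h3 := h_triangle (rp (dg y 1) k) (rp (dg y s) k) (pv V k)
    rw [sup_comm] at h3
    have h4 : lw V y s k = pv V k ⊔ rp (dg y s) k := rfl
    rw [h4]
    linarith
  have h2 : hr (rp (dg y s)) (pv V) ≤ s := by
    have h3 : hr (rp (dg y s)) (pv V) ≤ hr (rp (dg y s)) (rp ⊥) := hr_anti b2 (KP.bot (pv V))
    rw [hr_rp, h_bot] at h3
    exact h3.trans (H_dg_le y h0)
  unfold RV at h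
  linarith

/-- change of the parameter -/
theorem RV.chg {V : ∀ k, (S.F k).Ω → β k} {y t : QS S} (h : RV V y) {c v : QS S} (hc : Lit V c) (hv : Lit V v)
    (e : y = v * (t - c)) : RV V t := by
  unfold RV at h ⊢
  refine h.trans ?_
  have b1 := rp_Bd (dg y 1)
  have b2 := rp_Bd (dg t 1)
  have k1 : y ∈ KB (lw V t 1) 1 le_rfl := by
    rw [e]
    refine (KB _ _ _).mul_mem ?_ ((KB _ _ _).sub_mem (dg_lw V t 1) ?_)
    · exact (lit_kp hv le_rfl).trans (pv_lw V t 1)
    · exact (lit_kp hc le_rfl).trans (pv_lw V t 1)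
  have k2 : PLe (rp (dg y 1)) (lw V t 1) := k1
  refine hr_le b1 b2 k2 (Eventually.of_forall fun k => ?_)
  have h3 := h_triangle (rp (dg y 1) k) (rp (dg t 1) k) (pv V k)
  rw [sup_comm] at h3
  have h4 : lw V t 1 k = pv V k ⊔ rp (dg t 1) k := rfl
  rw [h4]
  linarith

theorem lw_chg {V : ∀ k, (S.F k).Ω → β k} {y t : QS S} {c v : QS S} (hc : Lit V c) (hv : Lit V v)
    (e : y = v * (t - c)) {s : ℝ} (hs : s ≤ 1) : PLe (lw V y s) (lw V t s) := by
  apply lw_le (pv_lw V t s)
  have k1 : y ∈ KB (lw V t s) s hs := by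
    rw [e]
    refine (KB _ _ _).mul_mem ?_ ((KB _ _ _).sub_mem (dg_lw V t s) ?_)
    · exact (lit_kp hv hs).trans (pv_lw V t s)
    · exact (lit_kp hc hs).trans (pv_lw V t s)
  exact k1

/-- a real parameter is real over every information known to `V` -/
theorem RV.time {V : ∀ k, (S.F k).Ω → β k} {t : QS S} (h : RV V t) {x : S.L} (hx : KP (pv V) x) :
    Pool.Agent.Helper31.EC.h (dg t 1) x = 1 := by
  apply le_antisymm (h_dg_le_one _ _)
  rw [← hr_rp]
  exact h.trans (hr_anti (rp_Bd _) hx)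

theorem RV.time_lev {V : ∀ k, (S.F k).Ω → β k} {t : QS S} (h : RV V t) {s : ℝ} (h0 : 0 ≤ s) (h1 : s ≤ 1) {x : S.L}
    (hx : KP (lw V t s) x) : Pool.Agent.Helper31.EC.h (dg t 1) (dg t s ⊔ x) = 1 - s := by
  apply le_antisymm
  · refine (h_anti le_sup_left).trans (h_dg_dg t h1)
  · rw [← hr_rp]
    exact (h.lev h0).trans (hr_anti (rp_Bd _) ((dg_lw V t s).sup hx))

/-- everything known to the window of level `s` is independent of the point of the line -/
theorem RV.indep {V : ∀ k, (S.F k).Ω → β k} {t : QS S} (h : RV V t) {s : ℝ} (h0 : 0 ≤ s) (h1 : s ≤ 1) {x X p : S.L}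
    (hx : KP (pv V) x) (hX : KP (lw V t s) X) (hp : p ≤ x ⊔ dg t 1) : I X p (x ⊔ dg t s) = 0 := by
  apply le_antisymm _ (I_nonneg _ _ _)
  have hxw : KP (lw V t s) x := hx.trans (pv_lw V t s)
  have e1 := h.time_lev h0 h1 hxw
  have e2 := h.time_lev h0 h1 (hxw.sup hX)
  have h2 : I X p (x ⊔ dg t s) ≤ I X (dg t 1) (x ⊔ dg t s) := I_mono_right (by
    refine hp.trans (sup_le (le_sup_left.trans le_sup_right) le_sup_left))
  have h3 : I X (dg t 1) (x ⊔ dg t s) = 0 := by
    rw [I_eq']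
    have a1 : x ⊔ dg t s = dg t s ⊔ x := sup_comm _ _
    have a2 : X ⊔ (x ⊔ dg t s) = dg t s ⊔ (x ⊔ X) := by
      rw [sup_comm X, sup_comm x (dg t s), sup_assoc]
    rw [a2, a1, e1, e2, sub_self]
  linarith

end

end Pool.Agent.Helper50.BLD
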