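import Pool.Agent.Helper50.BLD.Dir

/-! The visible parameter as a vector variable. -/

set_option autoImplicit false

namespace Pool.Agent.Helper50.BLD

open Finset Filter Topology Pool.Agent.Helper69.RK Pool.Agent.Helper31.EC Pool.Agent.Helper31.EC.Sp
open Pool.Agent.Helper31.EC.QS Pool.Agent.Helper40.EL Pool.Agent.Helper84.MT
open Pool.Agent.Helper82.TP (Lit)

noncomputable section

namespace Dir

variable {S : Sp} {M : ℕ} {E : ℕ → ℕ} {Q : S.VV M} {l : Leaf S Q E} {w : Fin M → ℝ} {c : PCh l w} (d : Dir c)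

/-- the visible parameter -/
def Yz : S.VV d.n := TR.vec fun a => rep (d.z a)

theorem cor_Yz (a : Fin d.n) : QS.mk (TR.cor d.Yz a) = d.z a := mk_rep (d.z a)

/-- the window of the visible parameter -/
def wz (t : ℝ) : Part S := fun k => fc (l.La k ⊓ Setoid.ker (d.Yz.cellv t k))

end Dir

/-! TARGETS (helper71):
 full_z : Tendsto (fun k => h (fc (Setoid.ker (d.Yz.cellv 1 k))) (fc (l.La k)) / (S.F k).n) UF (𝓝 (d.n : ℝ))
 win_z (h1 : t ≤ 1) : PLe (d.wz t) (l.win t)
 src_z (h0 : 0 ≤ t) (h1 : t ≤ 1) {X : Part S} (hp : PLe X (d.wz 1)) (hw : PLe X (l.win t)) : PLe X (d.wz t) -/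

end

end Pool.Agent.Helper50.BLD
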