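import Pool.Agent.Helper50.BLD.Trd
import Pool.Agent.Helper50.BLD.Yz
import Pool.Agent.Helper50.BLD.Gt

/-! THE LEAF OF VISIBLE DIRECTIONS: the leaf, the visible parameter, the chart restricted to the visible directions, the
first coordinate replaced by a real combination of the base coordinates. -/

set_option autoImplicit false

namespace Pool.Agent.Helper50.BLD

open Finset Filter Topology Pool.Agent.Helper69.RK Pool.Agent.Helper31.EC Pool.Agent.Helper31.EC.Sp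
open Pool.Agent.Helper31.EC.QS Pool.Agent.Helper40.EL Pool.Agent.Helper84.MT Pool.Agent.Helper36.AM
open Pool.Agent.Helper63.FRT (exps mem_exps exps_deg coeff_zero_of_deg eval_exps)
open Pool.Agent.Helper57.TA (rcst dg_rcst)
open Pool.Agent.Helper82.TP (Lit)
open Pool.Agent.Helper5.HB (cq)
open Pool.Agent.Helper10.BLD (IsTop)

noncomputable section

variable {S : Sp}

/-- constants as tame functions -/
def tc (x : ℝ) : TR S := ⟨fun _ _ => x, fun _ => |x|, S.Sub_const (abs_nonneg x), Eventually.of_forall fun _ _ _ => le_rfl⟩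

theorem mk_tc (x : ℝ) : QS.mk (tc (S := S) x) = rcst S x := rfl

/-- degree from the coefficients -/
theorem td_le {n : ℕ} (P : MvPolynomial (Fin n) ℝ) {W : ℝ} (h : ∀ b, P.coeff b ≠ 0 → ((b.degree : ℕ) : ℝ) ≤ W)
    (h0 : 0 ≤ W) : (P.totalDegree : ℝ) ≤ W := by
  have h1 : P.totalDegree ≤ ⌊W⌋₊ := by
    unfold MvPolynomial.totalDegree
    apply Finset.sup_le
    intro b hb
    apply Nat.le_floor
    exact h b (MvPolynomial.mem_support_iff.mp hb)
  exact (Nat.le_floor_iff h0).mp h1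

theorem deg_le_td {n : ℕ} (P : MvPolynomial (Fin n) ℝ) {b : Fin n →₀ ℕ} (h : P.coeff b ≠ 0) : b.degree ≤ P.totalDegree :=
  MvPolynomial.le_totalDegree (MvPolynomial.mem_support_iff.mpr h)

namespace Dir

variable {M : ℕ} {E : ℕ → ℕ} {Q : S.VV (M + 1)} {l : Leaf S Q E} {w : Fin (M + 1) → ℝ} {c : PCh l w} (d : Dir c)
  (θ : Fin (M + 1) → ℝ)

/-- the restricted chart -/
def rG (k : ℕ) (ω : (S.F k).Ω) (j : Fin (M + 1)) : MvPolynomial (Fin d.n) ℝ :=
  if j = 0 then ∑ i, MvPolynomial.C (θ i) * MvPolynomial.killCompl d.inj (c.G k ω i)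
  else MvPolynomial.killCompl d.inj (c.G k ω j)

theorem rG_zero (k : ℕ) (ω : (S.F k).Ω) (b : Fin d.n →₀ ℕ) :
    (d.rG θ k ω 0).coeff b = ∑ i, θ i * (c.G k ω i).coeff (b.mapDomain d.J) := by
  unfold rG
  rw [if_pos rfl, MvPolynomial.coeff_sum]
  apply Finset.sum_congr rfl
  intro i _
  rw [MvPolynomial.coeff_C_mul, MvPolynomial.coeff_killCompl]

theorem rG_ne {j : Fin (M + 1)} (hj : j ≠ 0) (k : ℕ) (ω : (S.F k).Ω) (b : Fin d.n →₀ ℕ) :
    (d.rG θ k ω j).coeff b = (c.G k ω j).coeff (b.mapDomain d.J) := by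
  unfold rG
  rw [if_neg hj, MvPolynomial.coeff_killCompl]

theorem rG_deg (h0 : w 0 = 1) (hw : ∀ j, w j ≠ 1 → θ j = 0) (k : ℕ) (ω : (S.F k).Ω) (j : Fin (M + 1)) :
    ((d.rG θ k ω j).totalDegree : ℝ) ≤ w j := by
  by_cases hj : j = 0
  · rw [hj, h0]
    apply td_le _ _ zero_le_one
    intro b hb
    rw [d.rG_zero θ] at hb
    obtain ⟨i, _, hi⟩ := Finset.exists_ne_zero_of_sum_ne_zero hb
    have h1 : θ i ≠ 0 := fun hc => hi (by rw [hc, zero_mul])
    have h2 : (c.G k ω i).coeff (b.mapDomain d.J) ≠ 0 := fun hc => hi (by rw [hc, mul_zero])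
    have h3 : w i = 1 := by
      by_contra hc
      exact h1 (hw i hc)
    have h4 := deg_le_td _ h2
    rw [Finsupp.degree_mapDomain] at h4
    have h5 := c.deg k ω i
    rw [h3] at h5
    have h6 : ((b.degree : ℕ) : ℝ) ≤ ((c.G k ω i).totalDegree : ℝ) := by exact_mod_cast h4
    linarith
  · apply td_le
    · intro b hb
      rw [d.rG_ne θ hj] at hb
      have h4 := deg_le_td _ hb
      rw [Finsupp.degree_mapDomain] at h4
      have h6 : ((b.degree : ℕ) : ℝ) ≤ ((c.G k ω j).totalDegree : ℝ) := by exact_mod_cast h4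
      exact h6.trans (c.deg k ω j)
    · exact (Nat.cast_nonneg _).trans (c.deg k ω j)

/-- the coefficients as tame functions -/
def cf' (j : Fin (M + 1)) (b : Fin d.n →₀ ℕ) : TR S :=
  if j = 0 then ∑ i, tc (θ i) * c.co i (b.mapDomain d.J) else c.co j (b.mapDomain d.J)

theorem cf'_ev (j : Fin (M + 1)) (b : Fin d.n →₀ ℕ) (k : ℕ) (ω : (S.F k).Ω) :
    TR.ev (d.cf' θ j b) k ω = (d.rG θ k ω j).coeff b := by
  unfold cf'
  by_cases hj : j = 0
  · rw [if_pos hj, hj, d.rG_zero θ, ← TR.evh_apply, map_sum]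
    apply Finset.sum_congr rfl
    intro i _
    rw [map_mul]
    rfl
  · rw [if_neg hj, d.rG_ne θ hj]
    rfl

theorem mk_cf'_zero (b : Fin d.n →₀ ℕ) :
    QS.mk (d.cf' θ 0 b) = ∑ i, rcst S (θ i) * QS.mk (c.co i (b.mapDomain d.J)) := by
  unfold cf'
  rw [if_pos rfl, map_sum]
  apply Finset.sum_congr rfl
  intro i _
  rw [map_mul, mk_tc]

theorem mk_cf'_ne {j : Fin (M + 1)} (hj : j ≠ 0) (b : Fin d.n →₀ ℕ) :
    QS.mk (d.cf' θ j b) = QS.mk (c.co j (b.mapDomain d.J)) := by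
  unfold cf'
  rw [if_neg hj]

/-- the point of the leaf -/
def Q' : S.VV (M + 1) := TR.vec fun j =>
  ∑ b ∈ exps d.n (PCh.D w), d.cf' θ j b * ∏ a, TR.cor d.Yz a ^ b a

theorem Q'_mk (j : Fin (M + 1)) : QS.mk (TR.cor (d.Q' θ) j) =
    ∑ b ∈ exps d.n (PCh.D w), QS.mk (d.cf' θ j b) * ∏ a, d.z a ^ b a := by
  have h1 : TR.cor (d.Q' θ) j = ∑ b ∈ exps d.n (PCh.D w), d.cf' θ j b * ∏ a, TR.cor d.Yz a ^ b a := rfl
  rw [h1, map_sum]
  apply Finset.sum_congr rfl
  intro b _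
  rw [map_mul, map_prod]
  congr 1
  apply Finset.prod_congr rfl
  intro a _
  rw [map_pow, d.cor_Yz]

/-- values of restricted polynomials -/
theorem eval_kc (P : MvPolynomial (Fin l.e) (QS S)) :
    MvPolynomial.eval d.z (MvPolynomial.killCompl d.inj P) = MvPolynomial.eval d.zb P := by
  induction P using MvPolynomial.induction_on with
  | C r => rw [MvPolynomial.killCompl_C, MvPolynomial.eval_C, MvPolynomial.eval_C]
  | add p q hp hq => rw [map_add, map_add, map_add, hp, hq]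
  | mul_X p m hp =>
    rw [map_mul, map_mul, map_mul, hp, MvPolynomial.eval_X]
    congr 1
    obtain ⟨x, rfl⟩ := d.eq.surjective m
    rcases x with a | m
    · rw [d.eq_inl, d.zb_J]
      have h1 : (MvPolynomial.X (d.J a) : MvPolynomial (Fin l.e) (QS S)) = MvPolynomial.rename d.J (MvPolynomial.X a) := by
        rw [MvPolynomial.rename_X]
      rw [h1, MvPolynomial.killCompl_rename_app, MvPolynomial.eval_X]
    · rw [d.eq_inr, d.zb_σ]
      unfold MvPolynomial.killCompl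
      rw [MvPolynomial.aeval_X, dif_neg m.2, map_zero]

theorem eval_zb (j : Fin (M + 1)) : MvPolynomial.eval d.zb (c.Gq j) =
    ∑ b ∈ exps d.n (PCh.D w), QS.mk (c.co j (b.mapDomain d.J)) * ∏ a, d.z a ^ b a := by
  rw [← d.eval_kc, MvPolynomial.eval_eq']
  have h1 : ∀ b, (MvPolynomial.killCompl d.inj (c.Gq j)).coeff b = QS.mk (c.co j (b.mapDomain d.J)) := by
    intro b
    rw [MvPolynomial.coeff_killCompl, c.Gq_coeff]
  have h2 : ∑ b ∈ (MvPolynomial.killCompl d.inj (c.Gq j)).support,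
      (MvPolynomial.killCompl d.inj (c.Gq j)).coeff b * ∏ a, d.z a ^ b a =
      ∑ b ∈ exps d.n (PCh.D w), (MvPolynomial.killCompl d.inj (c.Gq j)).coeff b * ∏ a, d.z a ^ b a := by
    apply Finset.sum_subset
    · intro b hb
      apply mem_exps
      rw [MvPolynomial.mem_support_iff, h1] at hb
      by_contra hc
      apply hb
      rw [c.co_zero, map_zero]
      have h3 : ∑ i, (b.mapDomain d.J) i = ∑ i, b i := by
        have h4 := Finsupp.degree_mapDomain d.J b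
        rwa [Finsupp.degree_eq_sum, Finsupp.degree_eq_sum] at h4
      have h5 : ((PCh.D w : ℕ) : ℝ) < ((∑ i, (b.mapDomain d.J) i : ℕ) : ℝ) := by
        rw [h3]
        exact_mod_cast not_le.mp hc
      push_cast at h5
      exact (PCh.le_D w j).trans_lt h5
    · intro b _ hb
      rw [MvPolynomial.notMem_support_iff.mp hb, zero_mul]
  rw [h2]
  apply Finset.sum_congr rfl
  intro b _
  rw [h1]

theorem Q'_ne (hf : ∀ j, MvPolynomial.eval d.zb (c.Gq j) = cq Q j) {j : Fin (M + 1)} (hj : j ≠ 0) :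
    QS.mk (TR.cor (d.Q' θ) j) = QS.mk (TR.cor Q j) := by
  rw [d.Q'_mk]
  have h1 := hf j
  rw [d.eval_zb] at h1
  refine Eq.trans ?_ h1
  apply Finset.sum_congr rfl
  intro b _
  rw [d.mk_cf'_ne θ hj]

theorem Q'_zero (hf : ∀ j, MvPolynomial.eval d.zb (c.Gq j) = cq Q j) :
    QS.mk (TR.cor (d.Q' θ) 0) = ∑ j, rcst S (θ j) * QS.mk (TR.cor Q j) := by
  rw [d.Q'_mk]
  have h1 : ∀ j, rcst S (θ j) * QS.mk (TR.cor Q j) =
      ∑ b ∈ exps d.n (PCh.D w), rcst S (θ j) * (QS.mk (c.co j (b.mapDomain d.J)) * ∏ a, d.z a ^ b a) := by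
    intro j
    rw [← Finset.mul_sum, ← d.eval_zb, hf j]
    rfl
  rw [Finset.sum_congr rfl fun j _ => h1 j, Finset.sum_comm]
  apply Finset.sum_congr rfl
  intro b _
  rw [d.mk_cf'_zero, Finset.sum_mul]
  apply Finset.sum_congr rfl
  intro j _
  rw [mul_assoc]

/-! ### the leaf -/

theorem rG_fn : ∀ᶠ k in UF, ∀ ω ω', (S.F k).μ ω ≠ 0 → (S.F k).μ ω' ≠ 0 → (S.F k).Z ω ω' → l.La k ω ω' →
    d.rG θ k ω = d.rG θ k ω' := by
  filter_upwards [c.fn] with k hk ω ω' a b z v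
  funext j
  unfold rG
  rw [hk ω ω' a b z v]

theorem rG_bd : ∃ K : ℕ → ℝ, S.Sub K ∧ ∀ᶠ k in UF, ∀ ω, (S.F k).μ ω ≠ 0 → ∀ j b, |(d.rG θ k ω j).coeff b| ≤ K k := by
  obtain ⟨K, hK, hb⟩ := c.bd
  have hs : (0 : ℝ) ≤ 1 + ∑ i, |θ i| := by
    have : 0 ≤ ∑ i, |θ i| := Finset.sum_nonneg fun i _ => abs_nonneg _
    linarith
  refine ⟨fun k => (1 + ∑ i, |θ i|) * K k, (S.Sub_const hs).mul hK, ?_⟩
  filter_upwards [hb, hK.1] with k h1 hK0 ω hω j b
  have hs1 : 0 ≤ ∑ i, |θ i| := Finset.sum_nonneg fun i _ => abs_nonneg _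
  by_cases hj : j = 0
  · rw [hj, d.rG_zero θ]
    refine (Finset.abs_sum_le_sum_abs _ _).trans ?_
    have h2 : ∑ i, |θ i * (c.G k ω i).coeff (b.mapDomain d.J)| ≤ (∑ i, |θ i|) * K k := by
      rw [Finset.sum_mul]
      apply Finset.sum_le_sum
      intro i _
      rw [abs_mul]
      exact mul_le_mul_of_nonneg_left (h1 ω hω i _) (abs_nonneg _)
    refine h2.trans ?_
    nlinarith
  · rw [d.rG_ne θ hj]
    refine (h1 ω hω j _).trans ?_
    nlinarith

theorem Q'_pt (h0 : w 0 = 1) (hw : ∀ j, w j ≠ 1 → θ j = 0) (k : ℕ) (ω : (S.F k).Ω) (j : Fin (M + 1)) :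
    (d.Q' θ).v k ω j = MvPolynomial.eval (d.Yz.v k ω) (d.rG θ k ω j) := by
  have h1 : (d.rG θ k ω j).totalDegree ≤ PCh.D w := by
    have := (d.rG_deg θ h0 hw k ω j).trans (PCh.le_D w j)
    exact_mod_cast this
  rw [eval_exps _ h1]
  show TR.ev (∑ b ∈ exps d.n (PCh.D w), d.cf' θ j b * ∏ a, TR.cor d.Yz a ^ b a) k ω = _
  rw [← TR.evh_apply, map_sum]
  apply Finset.sum_congr rfl
  intro b _
  rw [map_mul, map_prod, TR.evh_apply, d.cf'_ev]
  congr 1

/-- THE LEAF OF VISIBLE DIRECTIONS -/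
def nl (h0 : w 0 = 1) (hw : ∀ j, w j ≠ 1 → θ j = 0) (g' : ℕ) (hg : 1 ≤ g') (hn : d.n ≤ g') (hD : PCh.D w ≤ g')
    (full : Tendsto (fun k => h (fc (Setoid.ker (d.Yz.cellv 1 k))) (fc (l.La k)) / (S.F k).n) UF (𝓝 (d.n : ℝ))) :
    Leaf S (d.Q' θ) (Pool.Agent.Helper84.MT.lin g') :=
  Leaf.ofPoly g' hg d.n hn l.La d.Yz (d.rG θ) (fun k ω j => by
    have h1 : ((d.rG θ k ω j).totalDegree : ℝ) ≤ (PCh.D w : ℝ) := (d.rG_deg θ h0 hw k ω j).trans (PCh.le_D w j)
    have h2 : (d.rG θ k ω j).totalDegree ≤ PCh.D w := by exact_mod_cast h1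
    exact h2.trans hD) (d.rG_fn θ) (d.rG_bd θ)
    ⟨fun _ => 0, S.Sub_const le_rfl, Eventually.of_forall fun k ω _ j => by
      rw [d.Q'_pt θ h0 hw, sub_self, abs_zero, zero_mul]⟩ full

section nl

variable {θ} (h0 : w 0 = 1) (hw : ∀ j, w j ≠ 1 → θ j = 0) {g' : ℕ} (hg : 1 ≤ g') (hn : d.n ≤ g')
  (hD : PCh.D w ≤ g')
  (full : Tendsto (fun k => h (fc (Setoid.ker (d.Yz.cellv 1 k))) (fc (l.La k)) / (S.F k).n) UF (𝓝 (d.n : ℝ)))

theorem nl_e : (d.nl θ h0 hw g' hg hn hD full).e = d.n := rfl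

theorem nl_win (t : ℝ) : (d.nl θ h0 hw g' hg hn hD full).win t = d.wz t := rfl

/-- its chart -/
def nch : PCh (d.nl θ h0 hw g' hg hn hD full) w where
  G := d.rG θ
  ev := Eventually.of_forall fun _ _ _ _ _ => rfl
  deg := d.rG_deg θ h0 hw

theorem nch_co (j : Fin (M + 1)) (b : Fin d.n →₀ ℕ) :
    (d.nch h0 hw hg hn hD full).co j b = d.cf' θ j b := by
  apply Subtype.ext
  funext k ω
  exact (d.cf'_ev θ j b k ω).symm

theorem nch_unit (hu : ∀ a, IsUnit (∑ j, rcst S (θ j) * c.bc j (d.J a))) (a : Fin d.n) :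
    IsUnit (QS.mk ((d.nch h0 hw hg hn hD full).co 0 (Finsupp.single a 1))) := by
  have h1 := congrArg QS.mk (d.nch_co h0 hw hg hn hD full 0 (Finsupp.single a 1))
  have h2 : QS.mk (d.cf' θ 0 (Finsupp.single a 1)) = ∑ j, rcst S (θ j) * c.bc j (d.J a) := by
    rw [d.mk_cf'_zero]
    apply Finset.sum_congr rfl
    intro i _
    rw [Finsupp.mapDomain_single]
    rfl
  rw [h2] at h1
  exact Eq.mpr (congrArg IsUnit h1) (hu a)

end nl

/-! ### the point -/

theorem wz_eq (t : ℝ) (k : ℕ) : d.wz t k = fc (l.La k) ⊔ fc (Setoid.ker (d.Yz.cellv t k)) := fc_inf _ _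

theorem wz_La (t : ℝ) : PLe (fun k => fc (l.La k)) (d.wz t) := PLe_of_le fun k => by
  rw [d.wz_eq]
  exact le_sup_left

theorem wz_z {t : ℝ} (ht : t ≤ 1) (a : Fin d.n) : KP (d.wz t) (dg (d.z a) t) := by
  have h1 : dg (d.z a) t ≤ d.Yz.dg t := by
    unfold Yz
    rw [TR.vec_dg_eq]
    refine le_trans ?_ (Finset.le_sup (f := fun a => TR.dg (rep (d.z a)) t) (Finset.mem_univ a))
    rw [← dg_mk _ ht, mk_rep]
  have h2 : KP (d.wz t) (d.Yz.dg t) := by
    unfold KP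
    have e : d.Yz.dg t = Sp.cl (d.Yz.bdd t).toInf := io_eq _
    rw [e]
    refine (rp_rpI _).1.trans (PLe_of_le fun k => ?_)
    rw [d.wz_eq]
    exact le_sup_right
  exact h2.mono h1

theorem co_wz {t : ℝ} (ht : t ≤ 1) (j : Fin (M + 1)) (b : Fin l.e →₀ ℕ) : QS.mk (c.co j b) ∈ KB (fun k => fc (l.La k)) t ht := by
  have h1 : KP (pv (qV l.La)) (dg (QS.mk (c.co j b)) t) := lit_kp (co_qV c j b) ht
  have h2 : pv (qV l.La) = fun k => fc (l.La k) := funext fun k => pv_qV l.La k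
  rwa [h2] at h1

/-- the point is known to the leaf and the visible parameter -/
theorem pt_kb {B : Part S} (hf : ∀ j, MvPolynomial.eval d.zb (c.Gq j) = cq Q j) (hL : PLe (fun k => fc (l.La k)) B)
    (hz : ∀ a, KP B (dg (d.z a) 1)) : PLe (pcd Q) B := by
  refine (pcd_rp Q).2.trans ?_
  have h1 : Q.dg 1 = univ.sup fun j => dg (cq Q j) 1 := by
    have h2 : Q = TR.vec fun j => TR.cor Q j := rfl
    rw [h2, TR.vec_dg_eq]
    apply Finset.sup_congr rfl
    intro j _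
    rw [← dg_mk _ le_rfl]
    rfl
  rw [h1]
  apply KP.finsup
  intro j _
  rw [← hf j, d.eval_zb]
  show _ ∈ KB B 1 le_rfl
  apply (KB B 1 le_rfl).sum_mem
  intro b _
  apply (KB B 1 le_rfl).mul_mem
  · exact KP.trans (co_wz (c := c) le_rfl j _) hL
  · apply (KB B 1 le_rfl).prod_mem
    intro a _
    exact (KB B 1 le_rfl).pow_mem (hz a) _

theorem pt_wz (hf : ∀ j, MvPolynomial.eval d.zb (c.Gq j) = cq Q j) : PLe (pcd Q) (d.wz 1) :=
  d.pt_kb hf (d.wz_La 1) fun a => d.wz_z le_rfl a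

theorem pt_zero (hf : ∀ j, MvPolynomial.eval d.zb (c.Gq j) = cq Q j) (h : d.n = 0) : PLe (pcd Q) (fun k => fc (l.La k)) :=
  d.pt_kb hf (PLe.refl _) fun a => absurd a.2 (by omega)

/-! ### top coefficients -/

end Dir

/-- top coefficients of the leaf of visible directions -/
theorem top_nl {M g r : ℕ} {w : Fin (M + 1) → ℝ} {s : MSys S (M + 1) (lin g) (Fin r)} {i : Fin r} {c : PCh (s.lf i) w}
    (d : Dir c) {θ : Fin (M + 1) → ℝ} (h0 : w 0 = 1) (hw : ∀ j, w j ≠ 1 → θ j = 0) (j : Fin (M + 1))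
    (b : Fin d.n →₀ ℕ) (hb : ((b.degree : ℕ) : ℝ) = w j) :
    ∃ (n : ℕ) (f : Fin n → TR S) (t : Fin n → Fin r), (∀ x, IsTop w s (t x) (f x)) ∧
      ∀ x : ℝ, x ≤ 1 → QS.dg (QS.mk (d.cf' θ j b)) x ≤ (TR.vec f).dg x := by
  classical
  have key : ∀ j', w j' = w j → IsTop w s i (c.co j' (b.mapDomain d.J)) := by
    intro j' hj'
    refine ⟨j', b.mapDomain d.J, fun k ω => c.G k ω j', ?_, fun k ω => c.deg k ω j', ?_, Eventually.of_forall fun _ _ _ => rfl⟩
    · rw [Finsupp.degree_mapDomain, hb, hj']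
    · filter_upwards [c.ev] with k hk ω hω y
      exact hk ω hω y j'
  by_cases hj : j = 0
  · subst hj
    refine ⟨M + 1, fun j' => if w j' = 1 then c.co j' (b.mapDomain d.J) else c.co 0 (b.mapDomain d.J), fun _ => i,
      fun x => ?_, fun x hx => ?_⟩
    · beta_reduce
      by_cases hx : w x = 1
      · rw [if_pos hx]
        exact key x (by rw [hx, h0])
      · rw [if_neg hx]
        exact key 0 rfl
    · rw [d.mk_cf'_zero, TR.vec_dg_eq]
      set A := univ.sup fun j' : Fin (M + 1) =>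
        TR.dg (if w j' = 1 then c.co j' (b.mapDomain d.J) else c.co 0 (b.mapDomain d.J)) x with hA
      apply (Kn S x hx A).sum_mem
      intro j' _
      by_cases hj' : w j' = 1
      · apply (Kn S x hx A).mul_mem
        · show dg (rcst S (θ j')) x ≤ A
          rw [dg_rcst]
          exact _root_.bot_le
        · show dg (QS.mk (c.co j' (b.mapDomain d.J))) x ≤ A
          rw [dg_mk _ hx]
          have h1 := Finset.le_sup (f := fun j' : Fin (M + 1) =>
            TR.dg (if w j' = 1 then c.co j' (b.mapDomain d.J) else c.co 0 (b.mapDomain d.J)) x) (Finset.mem_univ j')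
          beta_reduce at h1
          rw [if_pos hj'] at h1
          exact h1
      · rw [hw j' hj', map_zero, zero_mul]
        exact (Kn S x hx A).zero_mem
  · refine ⟨1, fun _ => c.co j (b.mapDomain d.J), fun _ => i, fun _ => key j rfl, fun x hx => ?_⟩
    rw [d.mk_cf'_ne θ hj, dg_mk _ hx, TR.vec_dg_eq]
    exact Finset.le_sup (f := fun _ : Fin 1 => TR.dg (c.co j (b.mapDomain d.J)) x) (Finset.mem_univ 0)

end

end Pool.Agent.Helper50.BLD
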