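import Pool.Agent.Helper50.BLD.Ltr

/-! Curves with literal coefficients in a linear change of the parameter: `y = g (t - c)`, the curve is a polynomial in
`t`, the coefficients are literal. -/

set_option autoImplicit false

namespace Pool.Agent.Helper50.BLD

open Finset Filter Topology Pool.Agent.Helper69.RK Pool.Agent.Helper31.EC Pool.Agent.Helper31.EC.Sp
open Pool.Agent.Helper31.EC.QS Pool.Agent.Helper40.EL Polynomial
open Pool.Agent.Helper82.TP (Lit)

noncomputable section

variable {S : Sp} {β : ℕ → Type} {V : ∀ k, (S.F k).Ω → β k}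

/-- the polynomial `p(g (t - c))` -/
def rpm (p : Polynomial (LR V)) (c g : LR V) : Polynomial (LR V) := p.comp (C g * (X - C c))

theorem rpm_deg (p : Polynomial (LR V)) (c g : LR V) : (rpm p c g).natDegree ≤ p.natDegree := by
  unfold rpm
  refine natDegree_comp_le.trans ?_
  have h1 : (C g * (X - C c)).natDegree ≤ 1 := (natDegree_C_mul_le _ _).trans (natDegree_X_sub_C_le c)
  calc p.natDegree * (C g * (X - C c)).natDegree ≤ p.natDegree * 1 := Nat.mul_le_mul_left _ h1
    _ = p.natDegree := mul_one _

/-- coefficients -/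
def cfl (p : Polynomial (LR V)) (c g : LR V) (n : ℕ) : QS S := ((rpm p c g).coeff n : QS S)

theorem cfl_lit (p : Polynomial (LR V)) (c g : LR V) (n : ℕ) : Lit V (cfl p c g n) := ((rpm p c g).coeff n).2

theorem cfl_zero {p : Polynomial (LR V)} {c g : LR V} {n : ℕ} (h : p.natDegree < n) : cfl p c g n = 0 := by
  unfold cfl
  rw [coeff_eq_zero_of_natDegree_lt ((rpm_deg p c g).trans_lt h)]
  rfl

theorem pe_cfl (p : Polynomial (LR V)) (c g : LR V) {D : ℕ} (hD : p.natDegree ≤ D) {y t : QS S}
    (e : y = (g : QS S) * (t - c)) : pe (fun n : Fin (D + 1) => cfl p c g n) t = (p.map (LR V).subtype).eval y := by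
  have h1 : (p.map (LR V).subtype).eval y = ((rpm p c g).map (LR V).subtype).eval t := by
    unfold rpm
    rw [Polynomial.map_comp, eval_comp, e]
    congr 1
    rw [Polynomial.map_mul, Polynomial.map_sub, map_C, map_C, map_X, eval_mul, eval_sub, eval_C, eval_C, eval_X]
    rfl
  have h2 : ((rpm p c g).map (LR V).subtype).natDegree < D + 1 :=
    Nat.lt_succ_of_le (natDegree_map_le.trans ((rpm_deg p c g).trans hD))
  rw [h1, eval_eq_sum_range' h2, Finset.sum_range]
  unfold pe
  apply Finset.sum_congr rfl
  intro i _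
  rw [coeff_map]
  rfl

end

end Pool.Agent.Helper50.BLD
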