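import Mathlib

/-! RANK over a ring in which all minors are units or zero: all columns are combinations of the columns of a largest
invertible minor. Small real combinations of the rows with unit or zero entries. -/

set_option autoImplicit false

namespace Pool.Agent.Helper50.BLD

open Finset Matrix

noncomputable section

variable {R : Type*} [CommRing R]

/-- the bordered minor -/
theorem bordered {n : ℕ} (A : Matrix (Fin n) (Fin n) R) (hA : IsUnit A.det) (b : Fin n → R) (c : Fin n → R) (d : R)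
    (h : (fromBlocks A (Matrix.of fun i (_ : Fin 1) => b i) (Matrix.of fun (_ : Fin 1) j => c j)
      (Matrix.of fun (_ _ : Fin 1) => d)).det = 0) : d = ∑ i, c i * ∑ j, A⁻¹ i j * b j := by
  have := A.invertibleOfIsUnitDet hA
  rw [det_fromBlocks₁₁] at h
  have h1 : (Matrix.of (fun (_ _ : Fin 1) => d) - Matrix.of (fun (_ : Fin 1) j => c j) * ⅟A *
      Matrix.of (fun i (_ : Fin 1) => b i)).det = 0 := by
    exact hA.mul_right_eq_zero.mp h
  rw [det_fin_one, Matrix.sub_apply, Matrix.mul_assoc, Matrix.mul_apply, invOf_eq_nonsing_inv] at h1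
  rw [sub_eq_zero] at h1
  rw [Matrix.of_apply] at h1
  rw [h1]
  apply Finset.sum_congr rfl
  intro i _
  rw [Matrix.of_apply, Matrix.mul_apply]
  rfl

/-- RANK -/
theorem rank_lemma [Nontrivial R] {m e : ℕ} (B : Matrix (Fin m) (Fin e) R)
    (h : ∀ k (I : Fin k → Fin m) (J : Fin k → Fin e), k ≤ m + 1 → IsUnit (B.submatrix I J).det ∨
      (B.submatrix I J).det = 0) :
    ∃ (n : ℕ) (I : Fin n → Fin m) (J : Fin n → Fin e), IsUnit (B.submatrix I J).det ∧ Function.Injective I ∧
      Function.Injective J ∧ ∀ j c, B j c = ∑ a, B j (J a) * ∑ b, (B.submatrix I J)⁻¹ a b * B (I b) c := by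
  classical
  set P : ℕ → Prop := fun k => ∃ (I : Fin k → Fin m) (J : Fin k → Fin e), IsUnit (B.submatrix I J).det with hP
  have inj : ∀ k (I : Fin k → Fin m) (J : Fin k → Fin e), IsUnit (B.submatrix I J).det →
      Function.Injective I ∧ Function.Injective J := by
    intro k I J hu
    constructor
    · intro a b hab
      by_contra hne
      rw [det_zero_of_row_eq hne (by funext j; rw [submatrix_apply, submatrix_apply, hab])] at hu
      exact not_isUnit_zero hu
    · intro a b hab
      by_contra hne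
      rw [det_zero_of_column_eq hne (by intro j; rw [submatrix_apply, submatrix_apply, hab])] at hu
      exact not_isUnit_zero hu
  have hle : ∀ k, P k → k ≤ m := by
    rintro k ⟨I, J, hu⟩
    have h1 := Fintype.card_le_of_injective I (inj k I J hu).1
    rwa [Fintype.card_fin, Fintype.card_fin] at h1
  have h0 : P 0 := ⟨Fin.elim0, Fin.elim0, by rw [det_isEmpty]; exact isUnit_one⟩
  obtain ⟨n, hn, hmax⟩ : ∃ n, P n ∧ ¬ P (n + 1) := by
    by_contra hc
    push Not at hc
    have h2 : ∀ k, P k := fun k => Nat.rec h0 (fun k ih => hc k ih) k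
    have h3 := hle (m + 1) (h2 (m + 1))
    omega
  obtain ⟨I, J, hu⟩ := hn
  have hnm := hle n ⟨I, J, hu⟩
  refine ⟨n, I, J, hu, (inj n I J hu).1, (inj n I J hu).2, fun j c => ?_⟩
  set I' : Fin (n + 1) → Fin m := (Sum.elim I fun _ : Fin 1 => j) ∘ finSumFinEquiv.symm with hI'
  set J' : Fin (n + 1) → Fin e := (Sum.elim J fun _ : Fin 1 => c) ∘ finSumFinEquiv.symm with hJ'
  have h1 : (B.submatrix I' J').det = 0 := by
    rcases h (n + 1) I' J' (by omega) with h2 | h2
    · exact absurd ⟨I', J', h2⟩ hmax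
    · exact h2
  have h2 : B.submatrix I' J' = (B.submatrix (Sum.elim I fun _ : Fin 1 => j) (Sum.elim J fun _ : Fin 1 => c)).submatrix
      finSumFinEquiv.symm finSumFinEquiv.symm := rfl
  rw [h2, det_submatrix_equiv_self] at h1
  have h3 : B.submatrix (Sum.elim I fun _ : Fin 1 => j) (Sum.elim J fun _ : Fin 1 => c) =
      fromBlocks (B.submatrix I J) (Matrix.of fun i (_ : Fin 1) => B (I i) c)
        (Matrix.of fun (_ : Fin 1) i => B j (J i)) (Matrix.of fun (_ _ : Fin 1) => B j c) := by
    ext x y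
    rcases x with x | x <;> rcases y with y | y <;> rfl
  rw [h3] at h1
  exact bordered _ hu _ _ _ h1

/-! ### combinations of the rows -/

/-- at most `m` values of `a` kill a nonzero column: over a ring with a map from the reals -/
theorem few_bad (φ : ℝ →+* R) {m : ℕ} (b : Fin m → R) (T : Finset ℕ) (hT : ∀ a ∈ T, ∑ j : Fin m, φ ((a : ℝ) ^ (j : ℕ)) * b j = 0)
    (hc : m ≤ T.card) : b = 0 := by
  obtain ⟨U, hU, hUc⟩ := Finset.exists_subset_card_eq hc
  set ι : Fin m → ℕ := fun i => U.orderIsoOfFin hUc i with hι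
  have hι1 : Function.Injective ι := fun x y hxy => (U.orderIsoOfFin hUc).injective (Subtype.ext hxy)
  have hι2 : ∀ i, ι i ∈ T := fun i => hU (U.orderIsoOfFin hUc i).2
  set W : Matrix (Fin m) (Fin m) ℝ := vandermonde fun i => (ι i : ℝ) with hW
  have hd : IsUnit W.det := by
    rw [isUnit_iff_ne_zero, det_vandermonde_ne_zero_iff]
    intro x y hxy
    have hxy' : (ι x : ℝ) = ι y := hxy
    exact hι1 (by exact_mod_cast hxy')
  have e1 : W⁻¹ * W = 1 := nonsing_inv_mul W hd
  funext j
  have h1 : ∀ i, ∑ j, φ (W i j) * b j = 0 := fun i => by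
    have h2 := hT (ι i) (hι2 i)
    exact h2
  have h2 : b j = ∑ i, φ (W⁻¹ j i) * ∑ j', φ (W i j') * b j' := by
    have h3 : ∑ i, φ (W⁻¹ j i) * ∑ j', φ (W i j') * b j' = ∑ j', φ ((W⁻¹ * W) j j') * b j' := by
      have h4 : ∀ i, φ (W⁻¹ j i) * ∑ j', φ (W i j') * b j' = ∑ j', φ (W⁻¹ j i * W i j') * b j' := by
        intro i
        rw [Finset.mul_sum]
        apply Finset.sum_congr rfl
        intro j' _
        rw [map_mul]
        ring
      rw [Finset.sum_congr rfl fun i _ => h4 i, Finset.sum_comm]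
      apply Finset.sum_congr rfl
      intro j' _
      rw [← Finset.sum_mul, Matrix.mul_apply, map_sum]
    rw [h3, e1, Finset.sum_eq_single j]
    · rw [Matrix.one_apply_eq, map_one, one_mul]
    · intro j' _ hj
      rw [Matrix.one_apply_ne (Ne.symm hj), map_zero, zero_mul]
    · intro hn; exact absurd (Finset.mem_univ j) hn
  rw [h2, Pi.zero_apply]
  apply Finset.sum_eq_zero
  intro i _
  rw [h1, mul_zero]

/-- a common real combination with nonzero values on all nonzero columns -/
theorem exists_comb (φ : ℝ →+* R) {m : ℕ} {κ : Type*} [Fintype κ] (b : κ → Fin m → R) :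
    ∃ a : ℕ, a ≤ Fintype.card κ * m ∧ ∀ x, b x ≠ 0 → ∑ j : Fin m, φ ((a : ℝ) ^ (j : ℕ)) * b x j ≠ 0 := by
  classical
  by_contra hc
  push Not at hc
  have h1 : (range (Fintype.card κ * m + 1)) ⊆ univ.biUnion fun x : κ => (range (Fintype.card κ * m + 1)).filter fun a : ℕ =>
      b x ≠ 0 ∧ ∑ j : Fin m, φ ((a : ℝ) ^ (j : ℕ)) * b x j = 0 := by
    intro a ha
    obtain ⟨x, hx, hx0⟩ := hc a (Nat.lt_succ_iff.mp (Finset.mem_range.mp ha))
    exact Finset.mem_biUnion.mpr ⟨x, Finset.mem_univ x, Finset.mem_filter.mpr ⟨ha, hx, hx0⟩⟩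
  have h2 := (Finset.card_le_card h1).trans Finset.card_biUnion_le
  have h3 : ∀ x : κ, ((range (Fintype.card κ * m + 1)).filter fun a : ℕ =>
      b x ≠ 0 ∧ ∑ j : Fin m, φ ((a : ℝ) ^ (j : ℕ)) * b x j = 0).card ≤ m := by
    intro x
    by_contra hx
    have hx1 := not_le.mp hx
    by_cases hb : b x = 0
    · rw [Finset.filter_false_of_mem fun a _ h => h.1 hb, Finset.card_empty] at hx1
      omega
    · apply hb
      apply few_bad φ (b x) _ _ hx1.le
      intro a ha
      exact (Finset.mem_filter.mp ha).2.2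
  have h4 := h2.trans (Finset.sum_le_sum fun x _ => h3 x)
  rw [Finset.card_range, Finset.sum_const, Finset.card_univ, smul_eq_mul] at h4
  omega

end

end Pool.Agent.Helper50.BLD
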