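import Pool.Agent.Helper50.BLD.Dex

/-! Truncations of charts with visible directions; members for which the point is EXACTLY a function of the visible
parameter. -/

set_option autoImplicit false

namespace Pool.Agent.Helper50.BLD

open Finset Filter Topology Pool.Agent.Helper69.RK Pool.Agent.Helper31.EC Pool.Agent.Helper31.EC.Sp
open Pool.Agent.Helper31.EC.QS Pool.Agent.Helper40.EL Pool.Agent.Helper84.MT Pool.Agent.Helper36.AM
open Pool.Agent.Helper57.TA (rcst)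
open Pool.Agent.Helper82.TP (Lit)
open Pool.Agent.Helper13.AM (cQ cQ_mk cQ_eq_zero cT)
open Pool.Agent.Helper5.HB (cq)
open Pool.Agent.Helper91.BOX (hom_one_le hom_le_last)

noncomputable section

variable {S : Sp}

theorem lit_cQ {β : ℕ → Type} {V : ∀ k, (S.F k).Ω → β k} {f : QS S} (hf : Lit V f) {e : ℝ} (h0 : 0 < e) (h1 : e ≤ 1) :
    Lit (S := S.chg S.tr e h0) V (cQ S.tr e h0 h1 f) := by
  obtain ⟨g, rfl, hg⟩ := hf
  refine ⟨cT S.tr e h0 g, rfl, ?_⟩
  filter_upwards [hg] with k hk ω ω' a b z v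
  exact hk ω ω' a b z.2 v

theorem rcst_cQ (x : ℝ) {e : ℝ} (h0 : 0 < e) (h1 : e ≤ 1) : cQ S.tr e h0 h1 (rcst S x) = rcst (S.chg S.tr e h0) x := rfl

section

variable {M : ℕ} {E : ℕ → ℕ} {Q : S.VV M} {l : Leaf S Q E} {w : Fin M → ℝ} {c : PCh l w}

theorem bc_trn {e : ℝ} (h0 : 0 < e) (h1 : e ≤ 1) (j : Fin M) (m : Fin l.e) :
    (c.trn e h0 h1).bc j m = cQ S.tr e h0 h1 (c.bc j m) := rfl

theorem y_trn {e : ℝ} (h0 : 0 < e) (h1 : e ≤ 1) (m : Fin l.e) :
    PCh.y (l.trn e h0 h1) m = cQ S.tr e h0 h1 (PCh.y l m) := rfl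

/-- visible directions of the truncation -/
def Dir.trn (d : Dir c) {e : ℝ} (h0 : 0 < e) (h1 : e ≤ 1) : Dir (c.trn e h0 h1) where
  n := d.n
  J := d.J
  inj := d.inj
  C := fun a m => cQ S.tr e h0 h1 (d.C a m)
  lit := fun a m => lit_cQ (d.lit a m) h0 h1
  one := fun a b => by
    rw [d.one]
    by_cases h : a = b
    · rw [if_pos h, if_pos h, map_one]
    · rw [if_neg h, if_neg h, map_zero]
  lin := fun j hj m => by
    refine (congrArg (cQ S.tr e h0 h1) (d.lin j hj m)).trans ?_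
    rw [map_sum]
    apply Finset.sum_congr rfl
    intro a _
    rw [map_mul]
    rfl

theorem z_trn (d : Dir c) {e : ℝ} (h0 : 0 < e) (h1 : e ≤ 1) (a : Fin d.n) :
    (d.trn h0 h1).z a = cQ S.tr e h0 h1 (d.z a) := by
  unfold Dir.z
  rw [map_sum]
  apply Finset.sum_congr rfl
  intro m _
  rw [map_mul]
  rfl

theorem zb_trn (d : Dir c) {e : ℝ} (h0 : 0 < e) (h1 : e ≤ 1) (m : Fin l.e) :
    (d.trn h0 h1).zb m = cQ S.tr e h0 h1 (d.zb m) := by
  obtain ⟨x, rfl⟩ := d.eq.surjective m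
  rcases x with a | m
  · rw [d.eq_inl, d.zb_J, ← z_trn d h0 h1 a]
    exact (d.trn h0 h1).zb_J a
  · rw [d.eq_inr, d.zb_σ, map_zero]
    exact (d.trn h0 h1).zb_σ m

theorem eval_trn (d : Dir c) {e : ℝ} (h0 : 0 < e) (h1 : e ≤ 1) (j : Fin M) :
    MvPolynomial.eval (d.trn h0 h1).zb ((c.trn e h0 h1).Gq j) = cQ S.tr e h0 h1 (MvPolynomial.eval d.zb (c.Gq j)) := by
  refine ((c.trn e h0 h1).Gq_eval j (d.trn h0 h1).zb).trans ?_
  rw [c.Gq_eval, map_sum]
  apply Finset.sum_congr rfl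
  intro a _
  rw [map_mul, map_prod]
  refine congrArg₂ (fun x y => x * y) rfl ?_
  apply Finset.prod_congr rfl
  intro m _
  rw [map_pow]
  exact congrArg (fun x => x ^ a m) (zb_trn d h0 h1 m)

end

section hom

variable {M g r : ℕ} {w : Fin (M + 1) → ℝ} {Cl : MCl (M + 1)} {ρ : ℝ}
  {TT : ∀ S : Sp, MSys S (M + 1) (lin g) (Fin r) → Prop}

/-- FLAT MEMBERS: the point is exactly a function of the visible parameter -/
theorem exists_flat (hT : Hom M Cl g r w ρ TT) (hl : 1 < w (Fin.last M)) :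
    ∃ (S : Sp) (s : MSys S (M + 1) (lin g) (Fin r)) (c : ∀ i, PCh (s.lf i) w) (θ : Fin (M + 1) → ℝ)
      (d : ∀ i, Dir (c i)), TT S s ∧ θ 0 = 1 ∧ (∀ j, w j ≠ 1 → θ j = 0) ∧
        (∀ i, (d i).n ≤ nd1 w) ∧ (∀ i a, IsUnit (∑ j, rcst S (θ j) * (c i).bc j ((d i).J a))) ∧
        ∀ i j, MvPolynomial.eval (d i).zb ((c i).Gq j) = cq s.Q j := by
  classical
  obtain ⟨S, s, c, hs, hm, θ, h0, hw, hu⟩ := exists_good hT
  choose d hd1 hd2 using fun i => exists_dir (c i) (fun k I J hk => hm i k I J hk)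
  obtain ⟨w1, hw1, hwj, hwl⟩ : ∃ w1 : ℝ, 1 < w1 ∧ (∀ j, w j = 1 ∨ w1 ≤ w j) ∧ w1 ≤ w (Fin.last M) := by
    have hne : ((univ : Finset (Fin (M + 1))).filter fun j => w j ≠ 1).Nonempty :=
      ⟨Fin.last M, Finset.mem_filter.mpr ⟨Finset.mem_univ _, hl.ne'⟩⟩
    obtain ⟨j, hj, hj'⟩ := Finset.exists_min_image _ w hne
    have hj1 : w j ≠ 1 := (Finset.mem_filter.mp hj).2
    refine ⟨w j, lt_of_le_of_ne (hom_one_le hT j) (Ne.symm hj1), fun i => ?_, hj' _ (Finset.mem_filter.mpr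
      ⟨Finset.mem_univ _, hl.ne'⟩)⟩
    by_cases hi : w i = 1
    · exact Or.inl hi
    · exact Or.inr (hj' i (Finset.mem_filter.mpr ⟨Finset.mem_univ _, hi⟩))
  set W := w (Fin.last M) with hW
  have hW0 : 0 < W := zero_lt_one.trans hl
  set c0 : ℝ := 1 / (2 * W) with hc0
  have p0 : 0 < c0 := by positivity
  have p1 : W * c0 = 1 / 2 := by rw [hc0]; field_simp
  have p2 : w1 * c0 ≤ 1 / 2 := by
    rw [← p1]
    exact mul_le_mul_of_nonneg_right hwl p0.le
  obtain ⟨K, hK, hd⟩ := box_dg hT hs hwj p0.le (by rw [← hW, p1]; norm_num) hwl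
  set e : ℝ := w1 * c0 - c0 with he
  have q0 : 0 < e := by
    have : 1 * c0 < w1 * c0 := mul_lt_mul_of_pos_right hw1 p0
    linarith
  have q1 : e ≤ 1 := by linarith
  have hid : ∀ i j, cq s.Q j - MvPolynomial.eval (d i).zb ((c i).Gq j) ∈ Id S e := fun i j =>
    (d i).hid p0.le (by linarith) (by linarith) (hK i) hd j
  refine ⟨_, s.trn e q0 q1, fun i => (c i).trn e q0 q1, θ, fun i => (d i).trn q0 q1, hT.trn S s hs e q0 q1, h0, hw,
    fun i => hd1 i, fun i a => ?_, fun i j => ?_⟩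
  · have h1 := (hu i ((d i).J a) (hd2 i a)).map (cQ S.tr e q0 q1)
    rw [map_sum] at h1
    have h2 : ∑ j, cQ S.tr e q0 q1 (rcst S (θ j) * (c i).bc j ((d i).J a)) =
        ∑ j, rcst (S.chg S.tr e q0) (θ j) * ((c i).trn e q0 q1).bc j (((d i).trn q0 q1).J a) := by
      apply Finset.sum_congr rfl
      intro j _
      rw [map_mul]
      rfl
    rw [h2] at h1
    exact h1
  · refine (eval_trn (d i) q0 q1 j).trans ?_
    have h1 := (cQ_eq_zero S.tr e q0 q1).mpr (hid i j)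
    rw [map_sub, sub_eq_zero] at h1
    exact h1.symm

end hom

end

end Pool.Agent.Helper50.BLD
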